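import Pool.Agent.Helper89.TQ.Ctx

set_option autoImplicit false
set_option linter.all false
set_option maxHeartbeats 4000000

namespace Pool.Agent.Helper89.TQ

theorem c0_13_23_23_k0 {n1 n2 n3 A1 A2 A3 B1 B2 B3 m11_1 m11_2 m11_3 m13_1 m13_2 m13_3 m22_1 m22_2 m22_3 m23_1 m23_2 m23_3 m33_1 m33_2 m33_3 : ℤ}
    (C : Ctx0 n1 n2 n3 A1 A2 A3 B1 B2 B3 m11_1 m11_2 m11_3 m13_1 m13_2 m13_3 m22_1 m22_2 m22_3 m23_1 m23_2 m23_3 m33_1 m33_2 m33_3)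
    (e0 : 0 < A1)
    (e1 : 0 < B3)
    (e2 : 0 < A2)
    (s1 : 0 * A1 + 3 * B1 ≤ m13_1 + m23_1 + m23_1)
    (s2 : 0 * A2 + 3 * B2 ≤ m13_2 + m23_2 + m23_2)
    (s3 : 0 * A3 + 3 * B3 ≤ m13_3 + m23_3 + m23_3) : False := by

  linarith only [C.f13_7, C.f23_9, s3]

theorem c0_13_23_23_k1 {n1 n2 n3 A1 A2 A3 B1 B2 B3 m11_1 m11_2 m11_3 m13_1 m13_2 m13_3 m22_1 m22_2 m22_3 m23_1 m23_2 m23_3 m33_1 m33_2 m33_3 : ℤ}
    (C : Ctx0 n1 n2 n3 A1 A2 A3 B1 B2 B3 m11_1 m11_2 m11_3 m13_1 m13_2 m13_3 m22_1 m22_2 m22_3 m23_1 m23_2 m23_3 m33_1 m33_2 m33_3)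
    (e0 : 0 < A1)
    (e1 : 0 < B3)
    (e2 : 0 < A2)
    (s1 : 1 * A1 + 2 * B1 ≤ m13_1 + m23_1 + m23_1)
    (s2 : 1 * A2 + 2 * B2 ≤ m13_2 + m23_2 + m23_2)
    (s3 : 1 * A3 + 2 * B3 ≤ m13_3 + m23_3 + m23_3) : False := by
  have d_t12 : (-A1 + 1 ≤ 0 ∧ -A1 + A2 - n2 + 1 ≤ 0) ∨ (-B1 + 1 ≤ 0 ∧ -B1 + B2 - n2 + 1 ≤ 0) := by
    have h := C.t12
    omega
  have d_t23 : (A1 - A2 + 1 ≤ 0 ∧ -A2 + A3 - n3 + 1 ≤ 0) ∨ (B1 - B2 + 1 ≤ 0 ∧ -B2 + B3 - n3 + 1 ≤ 0) := by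
    have h := C.t23
    omega
  have d_f13_2 : (-A1 + m13_1 + 1 ≤ 0 ∧ A1 - m13_1 - 1 ≤ 0) ∨ (-B3 + m13_1 + 1 ≤ 0 ∧ B3 - m13_1 - 1 ≤ 0) := by
    have h := C.f13_2
    omega
  have d_tzpm : -A1 + A2 ≤ 0 ∨ A2 - A3 + n3 - 1 ≤ 0 ∨ B1 - B2 + n2 ≤ 0 ∨ -B2 + B3 - 1 ≤ 0 ∨ (-A2 + B2 + 1 ≤ 0 ∧ -A3 + B3 - 1 ≤ 0) := by
    have h := C.tzpm
    omega
  have d_tpzm : A1 ≤ 0 ∨ A1 - A2 + n2 ≤ 0 ∨ A2 - A3 + n3 ≤ 0 ∨ -B1 + n1 ≤ 0 ∨ -B1 + B2 ≤ 0 ∨ -B2 + B3 ≤ 0 ∨ -A3 + B3 - 1 ≤ 0 ∨ (A1 - B1 - 1 ≤ 0 ∧ A2 - B2 ≤ 0) := by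
    have h := C.tpzm
    omega
  rcases d_f13_2 with ⟨x1_0_0, x1_0_1⟩ | ⟨x1_1_0, x1_1_1⟩
  · rcases d_t12 with ⟨x2_0_0, x2_0_1⟩ | ⟨x2_1_0, x2_1_1⟩
    · rcases d_t23 with ⟨x3_0_0, x3_0_1⟩ | ⟨x3_1_0, x3_1_1⟩
      · rcases d_tzpm with x4_0_0 | x4_1_0 | x4_2_0 | x4_3_0 | ⟨x4_4_0, x4_4_1⟩
        · linarith only [x3_0_0, x4_0_0]
        · linarith only [C.b5, C.f13_7, C.f23_9, C.o1, s3, x4_1_0]
        · rcases d_tpzm with x5_0_0 | x5_1_0 | x5_2_0 | x5_3_0 | x5_4_0 | x5_5_0 | x5_6_0 | ⟨x5_7_0, x5_7_1⟩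
          · linarith only [C.b0, C.f13_0, C.f13_3, C.f23_5, s2, x2_0_1, x4_2_0, x5_0_0]
          · linarith only [x2_0_1, x5_1_0]
          · linarith only [C.f13_7, C.f23_5, C.f23_8, C.o2, s3, x5_2_0]
          · linarith only [C.a1, C.f13_0, C.f13_3, C.f23_5, s2, x2_0_1, x4_2_0, x5_3_0]
          · linarith only [x2_0_1, x3_0_0, x4_2_0, x5_4_0]
          · linarith only [C.a4, C.f13_4, C.f23_5, C.o2, s2, x5_5_0]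
          · linarith only [C.f13_7, C.f23_9, s3, x5_6_0]
          · linarith only [C.f13_0, C.f13_3, C.f23_5, s2, x2_0_1, x4_2_0, x5_7_0]
        · linarith only [C.a4, C.f13_4, C.f13_7, C.f23_5, C.f23_9, s2, s3, x4_3_0]
        · linarith only [C.f13_7, C.f23_9, s3, x4_4_1]
      · rcases d_tpzm with x6_0_0 | x6_1_0 | x6_2_0 | x6_3_0 | x6_4_0 | x6_5_0 | x6_6_0 | ⟨x6_7_0, x6_7_1⟩
        · linarith only [C.b0, C.o0, x6_0_0]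
        · linarith only [x2_0_1, x6_1_0]
        · linarith only [C.o1, C.o2, x3_1_1, x6_2_0]
        · linarith only [C.a1, C.o0, x6_3_0]
        · linarith only [x3_1_0, x6_4_0]
        · linarith only [C.a4, C.f13_4, C.f23_5, C.o2, s2, x6_5_0]
        · linarith only [C.f13_7, C.f23_9, s3, x6_6_0]
        · rcases d_tzpm with x7_0_0 | x7_1_0 | x7_2_0 | x7_3_0 | ⟨x7_4_0, x7_4_1⟩
          · linarith only [C.f13_0, C.f23_1, s1, x6_7_0, x7_0_0]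
          · linarith only [C.o1, C.o2, x3_1_1, x7_1_0]
          · linarith only [C.f13_0, C.f13_3, C.f23_5, s2, x2_0_1, x6_7_0, x7_2_0]
          · linarith only [C.a4, C.f13_4, C.f13_7, C.f23_5, C.f23_9, s2, s3, x7_3_0]
          · linarith only [C.f13_7, C.f23_9, s3, x7_4_1]
    · rcases d_tzpm with x8_0_0 | x8_1_0 | x8_2_0 | x8_3_0 | ⟨x8_4_0, x8_4_1⟩
      · rcases d_t23 with ⟨x9_0_0, x9_0_1⟩ | ⟨x9_1_0, x9_1_1⟩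
        · linarith only [x8_0_0, x9_0_0]
        · rcases d_tpzm with x10_0_0 | x10_1_0 | x10_2_0 | x10_3_0 | x10_4_0 | x10_5_0 | x10_6_0 | ⟨x10_7_0, x10_7_1⟩
          · linarith only [C.f23_1, s1, x10_0_0, x1_0_0, x2_1_0, x8_0_0]
          · linarith only [x10_1_0, x2_1_1, x8_0_0, x9_1_0]
          · linarith only [C.o1, C.o2, x10_2_0, x9_1_1]
          · linarith only [C.a1, C.f23_1, s1, x10_3_0, x1_0_0, x8_0_0]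
          · linarith only [x10_4_0, x9_1_0]
          · linarith only [C.a4, C.f13_4, C.f23_5, C.o2, s2, x10_5_0]
          · linarith only [C.f13_7, C.f23_9, s3, x10_6_0]
          · linarith only [C.f23_1, s1, x10_7_0, x1_0_0, x8_0_0]
      · linarith only [C.f13_7, C.f23_5, C.f23_8, C.o2, s3, x8_1_0]
      · linarith only [x2_1_1, x8_2_0]
      · linarith only [C.a4, C.f13_4, C.f23_5, C.o2, s2, x8_3_0]
      · linarith only [C.f13_7, C.f23_9, s3, x8_4_1]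
  · linarith only [C.a2, C.a4, C.f13_0, C.o2, x1_1_1]

theorem c0_13_23_23_k2 {n1 n2 n3 A1 A2 A3 B1 B2 B3 m11_1 m11_2 m11_3 m13_1 m13_2 m13_3 m22_1 m22_2 m22_3 m23_1 m23_2 m23_3 m33_1 m33_2 m33_3 : ℤ}
    (C : Ctx0 n1 n2 n3 A1 A2 A3 B1 B2 B3 m11_1 m11_2 m11_3 m13_1 m13_2 m13_3 m22_1 m22_2 m22_3 m23_1 m23_2 m23_3 m33_1 m33_2 m33_3)
    (e0 : 0 < A1)
    (e1 : 0 < B3)
    (e2 : 0 < A2)
    (s1 : 2 * A1 + 1 * B1 ≤ m13_1 + m23_1 + m23_1)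
    (s2 : 2 * A2 + 1 * B2 ≤ m13_2 + m23_2 + m23_2)
    (s3 : 2 * A3 + 1 * B3 ≤ m13_3 + m23_3 + m23_3) : False := by
  have d_t12 : (-A1 + 1 ≤ 0 ∧ -A1 + A2 - n2 + 1 ≤ 0) ∨ (-B1 + 1 ≤ 0 ∧ -B1 + B2 - n2 + 1 ≤ 0) := by
    have h := C.t12
    omega
  have d_t23 : (A1 - A2 + 1 ≤ 0 ∧ -A2 + A3 - n3 + 1 ≤ 0) ∨ (B1 - B2 + 1 ≤ 0 ∧ -B2 + B3 - n3 + 1 ≤ 0) := by
    have h := C.t23
    omega
  have d_f13_5 : (-m13_1 + m13_2 - n2 ≤ 0 ∧ m13_1 - m13_2 + n2 ≤ 0) ∨ (-B3 + m13_2 + 1 ≤ 0 ∧ B3 - m13_2 - 1 ≤ 0) := by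
    have h := C.f13_5
    omega
  have d_f23_3 : (m23_1 - n1 ≤ 0 ∧ -m23_1 + n1 ≤ 0) ∨ (-A2 + m23_1 + 1 ≤ 0 ∧ A2 - m23_1 - 1 ≤ 0) ∨ (-B3 + m23_1 + 1 ≤ 0 ∧ B3 - m23_1 - 1 ≤ 0) := by
    have h := C.f23_3
    omega
  have d_f33_2 : (m33_1 - n1 ≤ 0 ∧ -m33_1 + n1 ≤ 0) ∨ (-A3 + m33_1 + 1 ≤ 0 ∧ A3 - m33_1 - 1 ≤ 0) := by
    have h := C.f33_2
    omega
  have d_f33_5 : (-m33_1 + m33_2 - n2 ≤ 0 ∧ m33_1 - m33_2 + n2 ≤ 0) ∨ (-A3 + m33_2 + 1 ≤ 0 ∧ A3 - m33_2 - 1 ≤ 0) := by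
    have h := C.f33_5
    omega
  have d_f33_8 : (-m33_2 + m33_3 - n3 ≤ 0 ∧ m33_2 - m33_3 + n3 ≤ 0) ∨ (-A3 + m33_3 + 1 ≤ 0 ∧ A3 - m33_3 - 1 ≤ 0) := by
    have h := C.f33_8
    omega
  have d_p23_33A : A2 ≤ 0 ∨ B3 ≤ 0 ∨ A3 ≤ 0 ∨ (-2) * A1 + m23_1 + m33_1 + 1 ≤ 0 ∨ (-2) * A2 + m23_2 + m33_2 + 1 ≤ 0 ∨ (-2) * A3 + m23_3 + m33_3 + 1 ≤ 0 := by
    have h := C.p23_33A
    omega
  have d_tzpm : -A1 + A2 ≤ 0 ∨ A2 - A3 + n3 - 1 ≤ 0 ∨ B1 - B2 + n2 ≤ 0 ∨ -B2 + B3 - 1 ≤ 0 ∨ (-A2 + B2 + 1 ≤ 0 ∧ -A3 + B3 - 1 ≤ 0) := by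
    have h := C.tzpm
    omega
  have d_tpzm : A1 ≤ 0 ∨ A1 - A2 + n2 ≤ 0 ∨ A2 - A3 + n3 ≤ 0 ∨ -B1 + n1 ≤ 0 ∨ -B1 + B2 ≤ 0 ∨ -B2 + B3 ≤ 0 ∨ -A3 + B3 - 1 ≤ 0 ∨ (A1 - B1 - 1 ≤ 0 ∧ A2 - B2 ≤ 0) := by
    have h := C.tpzm
    omega
  rcases d_f33_5 with ⟨x1_0_0, x1_0_1⟩ | ⟨x1_1_0, x1_1_1⟩
  · rcases d_t12 with ⟨x2_0_0, x2_0_1⟩ | ⟨x2_1_0, x2_1_1⟩
    · rcases d_f33_2 with ⟨x3_0_0, x3_0_1⟩ | ⟨x3_1_0, x3_1_1⟩
      · rcases d_f13_5 with ⟨x4_0_0, x4_0_1⟩ | ⟨x4_1_0, x4_1_1⟩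
        · rcases d_f33_8 with ⟨x5_0_0, x5_0_1⟩ | ⟨x5_1_0, x5_1_1⟩
          · linarith only [C.b3, C.b5, C.f13_0, C.f23_0, C.f33_7, C.o0, C.o2, s1, x1_0_1, x3_0_1, x5_0_1]
          · rcases d_t23 with ⟨x6_0_0, x6_0_1⟩ | ⟨x6_1_0, x6_1_1⟩
            · rcases d_tzpm with x7_0_0 | x7_1_0 | x7_2_0 | x7_3_0 | ⟨x7_4_0, x7_4_1⟩
              · linarith only [x6_0_0, x7_0_0]
              · linarith only [C.f13_7, C.f23_5, C.f23_8, s3, x7_1_0]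
              · rcases d_tpzm with x8_0_0 | x8_1_0 | x8_2_0 | x8_3_0 | x8_4_0 | x8_5_0 | x8_6_0 | ⟨x8_7_0, x8_7_1⟩
                · linarith only [C.b0, C.f13_0, C.f13_3, C.f23_5, s2, x7_2_0, x8_0_0]
                · linarith only [x2_0_1, x8_1_0]
                · linarith only [C.b5, C.f13_7, C.f23_9, C.o1, s3, x8_2_0]
                · linarith only [C.f13_0, C.f13_3, C.f23_0, C.f23_5, s1, s2, x7_2_0, x8_3_0]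
                · linarith only [x2_0_1, x6_0_0, x7_2_0, x8_4_0]
                · linarith only [C.b3, C.f13_0, C.f13_7, C.f23_0, C.f23_9, C.f33_4, C.o1, s1, s3, x1_0_1, x2_0_1, x3_0_1, x8_5_0]
                · linarith only [C.f13_7, C.f23_9, s3, x8_6_0]
                · linarith only [C.f13_0, C.f13_3, C.f23_5, s2, x7_2_0, x8_7_0]
              · linarith only [C.b3, C.f13_0, C.f13_7, C.f23_0, C.f23_9, C.f33_4, C.o1, s1, s3, x1_0_1, x2_0_1, x3_0_1, x7_3_0]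
              · linarith only [C.f13_7, C.f23_9, s3, x7_4_1]
            · rcases d_tpzm with x9_0_0 | x9_1_0 | x9_2_0 | x9_3_0 | x9_4_0 | x9_5_0 | x9_6_0 | ⟨x9_7_0, x9_7_1⟩
              · linarith only [C.b0, C.o0, x9_0_0]
              · linarith only [x2_0_1, x9_1_0]
              · linarith only [C.o1, C.o2, x6_1_1, x9_2_0]
              · linarith only [C.a1, C.o0, x9_3_0]
              · linarith only [x6_1_0, x9_4_0]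
              · linarith only [C.b3, C.f13_0, C.f23_0, C.f33_4, C.o0, C.o2, s1, x1_0_1, x3_0_1, x9_5_0]
              · linarith only [C.f13_7, C.f23_9, s3, x9_6_0]
              · rcases d_p23_33A with x10_0_0 | x10_1_0 | x10_2_0 | x10_3_0 | x10_4_0 | x10_5_0
                · linarith only [C.b0, C.f13_0, C.f23_1, C.o0, s1, x10_0_0]
                · linarith only [C.b0, C.b3, C.f13_4, C.f23_1, C.f23_6, C.o0, s1, s2, x10_1_0, x4_0_1, x6_1_0]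
                · linarith only [C.a4, C.b0, C.f13_0, C.f23_1, C.o0, s1, x10_2_0]
                · linarith only [C.a1, C.f13_0, s1, x10_3_0, x3_0_1, x9_7_0]
                · linarith only [C.a1, C.f13_0, C.f13_3, s2, x10_4_0, x1_0_1, x2_0_1, x3_0_1, x9_7_1]
                · linarith only [C.f13_7, s3, x10_5_0, x5_1_1]
        · linarith only [C.a1, C.f13_0, C.f13_3, C.f33_4, C.o2, x1_0_1, x3_0_1, x4_1_1]
      · linarith only [C.a2, C.f33_4, x1_0_1, x2_0_1, x3_1_1]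
    · rcases d_f33_2 with ⟨x11_0_0, x11_0_1⟩ | ⟨x11_1_0, x11_1_1⟩
      · rcases d_tzpm with x12_0_0 | x12_1_0 | x12_2_0 | x12_3_0 | ⟨x12_4_0, x12_4_1⟩
        · rcases d_t23 with ⟨x13_0_0, x13_0_1⟩ | ⟨x13_1_0, x13_1_1⟩
          · linarith only [x12_0_0, x13_0_0]
          · rcases d_tpzm with x14_0_0 | x14_1_0 | x14_2_0 | x14_3_0 | x14_4_0 | x14_5_0 | x14_6_0 | ⟨x14_7_0, x14_7_1⟩
            · linarith only [C.f13_0, C.f23_1, s1, x12_0_0, x14_0_0, x2_1_0]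
            · linarith only [x12_0_0, x13_1_0, x14_1_0, x2_1_1]
            · linarith only [C.f13_7, C.f23_9, C.o1, s3, x13_1_1, x14_2_0]
            · linarith only [C.a1, C.f13_0, C.f23_1, s1, x12_0_0, x14_3_0]
            · linarith only [x13_1_0, x14_4_0]
            · linarith only [C.f13_0, C.f13_7, C.f23_0, C.f23_9, C.f33_4, C.o0, s1, s3, x11_0_1, x14_5_0, x1_0_1, x2_1_1]
            · linarith only [C.f13_7, C.f23_9, s3, x14_6_0]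
            · linarith only [C.f13_0, C.f23_1, s1, x12_0_0, x14_7_0]
        · linarith only [C.b5, C.f13_7, C.f23_9, C.o1, s3, x12_1_0]
        · linarith only [x12_2_0, x2_1_1]
        · linarith only [C.f13_0, C.f13_7, C.f23_0, C.f23_9, C.f33_4, C.o0, s1, s3, x11_0_1, x12_3_0, x1_0_1, x2_1_1]
        · linarith only [C.f13_7, C.f23_9, s3, x12_4_1]
      · linarith only [C.b2, C.f33_4, x11_1_1, x1_0_1, x2_1_1]
  · rcases d_f33_8 with ⟨x15_0_0, x15_0_1⟩ | ⟨x15_1_0, x15_1_1⟩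
    · linarith only [C.b5, C.f13_4, C.f23_5, C.f33_7, s2, x15_0_1, x1_1_1]
    · rcases d_p23_33A with x16_0_0 | x16_1_0 | x16_2_0 | x16_3_0 | x16_4_0 | x16_5_0
      · linarith only [C.b0, C.f13_0, C.f23_1, C.o0, s1, x16_0_0]
      · linarith only [C.b0, C.b2, C.f13_4, C.f23_5, s2, x16_1_0]
      · linarith only [C.a4, C.b0, C.f13_0, C.f23_1, C.o0, s1, x16_2_0]
      · rcases d_t23 with ⟨x17_0_0, x17_0_1⟩ | ⟨x17_1_0, x17_1_1⟩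
        · rcases d_f23_3 with ⟨x18_0_0, x18_0_1⟩ | ⟨x18_1_0, x18_1_1⟩ | ⟨x18_2_0, x18_2_1⟩
          · rcases d_f33_2 with ⟨x19_0_0, x19_0_1⟩ | ⟨x19_1_0, x19_1_1⟩
            · linarith only [C.a1, x16_3_0, x18_0_1, x19_0_1]
            · linarith only [C.a1, C.a4, x16_3_0, x17_0_0, x18_0_1, x19_1_1]
          · rcases d_f33_2 with ⟨x20_0_0, x20_0_1⟩ | ⟨x20_1_0, x20_1_1⟩
            · linarith only [C.a1, x16_3_0, x17_0_0, x18_1_1, x20_0_1]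
            · linarith only [C.a4, x16_3_0, x17_0_0, x18_1_1, x20_1_1]
          · linarith only [C.a4, C.f13_7, C.f23_1, C.f23_9, s3, x18_2_1]
        · rcases d_t12 with ⟨x21_0_0, x21_0_1⟩ | ⟨x21_1_0, x21_1_1⟩
          · rcases d_tpzm with x22_0_0 | x22_1_0 | x22_2_0 | x22_3_0 | x22_4_0 | x22_5_0 | x22_6_0 | ⟨x22_7_0, x22_7_1⟩
            · linarith only [C.b0, C.o0, x22_0_0]
            · linarith only [x21_0_1, x22_1_0]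
            · linarith only [C.o1, C.o2, x17_1_1, x22_2_0]
            · linarith only [C.a1, C.o0, x22_3_0]
            · linarith only [x17_1_0, x22_4_0]
            · linarith only [C.f13_4, C.f23_5, s2, x22_5_0]
            · linarith only [C.f13_7, C.f23_9, s3, x22_6_0]
            · rcases d_f33_2 with ⟨x23_0_0, x23_0_1⟩ | ⟨x23_1_0, x23_1_1⟩
              · linarith only [C.a1, C.f13_0, s1, x16_3_0, x22_7_0, x23_0_1]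
              · linarith only [C.a4, C.f13_0, C.f23_1, s1, x16_3_0, x22_7_0, x23_1_1]
          · rcases d_tzpm with x24_0_0 | x24_1_0 | x24_2_0 | x24_3_0 | ⟨x24_4_0, x24_4_1⟩
            · rcases d_tpzm with x25_0_0 | x25_1_0 | x25_2_0 | x25_3_0 | x25_4_0 | x25_5_0 | x25_6_0 | ⟨x25_7_0, x25_7_1⟩
              · linarith only [C.f13_0, C.f23_1, s1, x21_1_0, x24_0_0, x25_0_0]
              · linarith only [x17_1_0, x21_1_1, x24_0_0, x25_1_0]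
              · linarith only [C.f13_7, C.f23_9, C.o1, s3, x17_1_1, x25_2_0]
              · linarith only [C.a1, C.f13_0, C.f23_1, s1, x24_0_0, x25_3_0]
              · linarith only [x17_1_0, x25_4_0]
              · linarith only [C.a4, C.f13_7, C.f23_9, C.o1, s3, x25_5_0]
              · linarith only [C.f13_7, C.f23_9, s3, x25_6_0]
              · linarith only [C.f13_0, C.f23_1, s1, x24_0_0, x25_7_0]
            · linarith only [C.f13_7, C.f23_9, C.o1, s3, x17_1_1, x24_1_0]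
            · linarith only [x21_1_1, x24_2_0]
            · linarith only [C.f13_4, C.f23_5, s2, x24_3_0]
            · linarith only [C.f13_7, C.f23_9, s3, x24_4_1]
      · rcases d_tzpm with x26_0_0 | x26_1_0 | x26_2_0 | x26_3_0 | ⟨x26_4_0, x26_4_1⟩
        · rcases d_t23 with ⟨x27_0_0, x27_0_1⟩ | ⟨x27_1_0, x27_1_1⟩
          · linarith only [x26_0_0, x27_0_0]
          · rcases d_tpzm with x28_0_0 | x28_1_0 | x28_2_0 | x28_3_0 | x28_4_0 | x28_5_0 | x28_6_0 | ⟨x28_7_0, x28_7_1⟩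
            · linarith only [C.b0, C.f13_0, C.f23_1, s1, x26_0_0, x28_0_0]
            · linarith only [C.b3, x26_0_0, x27_1_0, x28_1_0]
            · linarith only [C.f13_4, C.f23_5, s2, x16_4_0, x1_1_1, x27_1_1, x28_2_0]
            · linarith only [C.a1, C.f13_0, C.f23_1, s1, x26_0_0, x28_3_0]
            · linarith only [x27_1_0, x28_4_0]
            · linarith only [C.f13_4, C.f23_5, s2, x28_5_0]
            · linarith only [C.f13_7, C.f23_9, s3, x28_6_0]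
            · linarith only [C.f13_0, C.f23_1, s1, x26_0_0, x28_7_0]
        · linarith only [C.b5, C.f13_4, C.f23_5, s2, x16_4_0, x1_1_1, x26_1_0]
        · rcases d_t23 with ⟨x29_0_0, x29_0_1⟩ | ⟨x29_1_0, x29_1_1⟩
          · rcases d_tpzm with x30_0_0 | x30_1_0 | x30_2_0 | x30_3_0 | x30_4_0 | x30_5_0 | x30_6_0 | ⟨x30_7_0, x30_7_1⟩
            · linarith only [C.b0, C.f13_0, C.f13_3, C.f23_5, s2, x26_2_0, x30_0_0]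
            · rcases d_t12 with ⟨x31_0_0, x31_0_1⟩ | ⟨x31_1_0, x31_1_1⟩
              · linarith only [x30_1_0, x31_0_1]
              · linarith only [x26_2_0, x31_1_1]
            · linarith only [C.b5, C.f13_7, C.f23_9, C.o1, s3, x30_2_0]
            · linarith only [C.a1, C.f13_0, C.f13_3, C.f23_5, s2, x26_2_0, x30_3_0]
            · linarith only [C.a3, x26_2_0, x29_0_0, x30_4_0]
            · linarith only [C.f13_4, C.f23_6, C.o1, s2, x30_5_0]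
            · linarith only [C.f13_7, C.f23_9, s3, x30_6_0]
            · linarith only [C.f13_0, C.f13_3, C.f23_5, s2, x26_2_0, x30_7_0]
          · rcases d_t12 with ⟨x32_0_0, x32_0_1⟩ | ⟨x32_1_0, x32_1_1⟩
            · rcases d_tpzm with x33_0_0 | x33_1_0 | x33_2_0 | x33_3_0 | x33_4_0 | x33_5_0 | x33_6_0 | ⟨x33_7_0, x33_7_1⟩
              · linarith only [C.b0, C.f13_0, C.f13_3, C.f23_5, s2, x26_2_0, x33_0_0]
              · linarith only [x32_0_1, x33_1_0]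
              · linarith only [C.f13_4, C.f23_5, s2, x16_4_0, x1_1_1, x29_1_1, x33_2_0]
              · linarith only [C.a1, C.f13_0, C.f13_3, C.f23_5, s2, x26_2_0, x33_3_0]
              · linarith only [C.a2, x26_2_0, x32_0_1, x33_4_0]
              · linarith only [C.f13_4, C.f23_5, s2, x33_5_0]
              · linarith only [C.f13_7, C.f23_9, s3, x33_6_0]
              · linarith only [C.f13_0, C.f13_3, C.f23_5, s2, x26_2_0, x33_7_0]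
            · linarith only [x26_2_0, x32_1_1]
        · linarith only [C.f13_4, C.f23_5, s2, x26_3_0]
        · linarith only [C.f13_7, C.f23_9, s3, x26_4_1]
      · linarith only [C.f13_7, s3, x15_1_1, x16_5_0]

theorem c0_13_23_23_k3 {n1 n2 n3 A1 A2 A3 B1 B2 B3 m11_1 m11_2 m11_3 m13_1 m13_2 m13_3 m22_1 m22_2 m22_3 m23_1 m23_2 m23_3 m33_1 m33_2 m33_3 : ℤ}
    (C : Ctx0 n1 n2 n3 A1 A2 A3 B1 B2 B3 m11_1 m11_2 m11_3 m13_1 m13_2 m13_3 m22_1 m22_2 m22_3 m23_1 m23_2 m23_3 m33_1 m33_2 m33_3)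
    (e0 : 0 < A1)
    (e1 : 0 < B3)
    (e2 : 0 < A2)
    (s1 : 3 * A1 + 0 * B1 ≤ m13_1 + m23_1 + m23_1)
    (s2 : 3 * A2 + 0 * B2 ≤ m13_2 + m23_2 + m23_2)
    (s3 : 3 * A3 + 0 * B3 ≤ m13_3 + m23_3 + m23_3) : False := by
  have d_f13_2 : (-A1 + m13_1 + 1 ≤ 0 ∧ A1 - m13_1 - 1 ≤ 0) ∨ (-B3 + m13_1 + 1 ≤ 0 ∧ B3 - m13_1 - 1 ≤ 0) := by
    have h := C.f13_2
    omega
  have d_f13_8 : (-m13_2 + m13_3 - n3 ≤ 0 ∧ m13_2 - m13_3 + n3 ≤ 0) ∨ (-B3 + m13_3 + 1 ≤ 0 ∧ B3 - m13_3 - 1 ≤ 0) := by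
    have h := C.f13_8
    omega
  have d_p13_23A : A1 ≤ 0 ∨ B3 ≤ 0 ∨ A2 ≤ 0 ∨ (-2) * A1 + m13_1 + m23_1 + 1 ≤ 0 ∨ (-2) * A2 + m13_2 + m23_2 + 1 ≤ 0 ∨ (-2) * A3 + m13_3 + m23_3 + 1 ≤ 0 := by
    have h := C.p13_23A
    omega
  rcases d_f13_8 with ⟨x1_0_0, x1_0_1⟩ | ⟨x1_1_0, x1_1_1⟩
  · linarith only [C.b5, C.f13_7, C.f23_5, C.o1, s2, x1_0_1]
  · rcases d_p13_23A with x2_0_0 | x2_1_0 | x2_2_0 | x2_3_0 | x2_4_0 | x2_5_0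
    · linarith only [C.b0, C.o0, x2_0_0]
    · linarith only [C.b0, C.f13_1, C.f13_4, C.f23_1, C.f23_6, C.o0, s1, s2, x2_1_0]
    · linarith only [C.b0, C.f13_0, C.f23_1, C.o0, s1, x2_2_0]
    · rcases d_f13_2 with ⟨x3_0_0, x3_0_1⟩ | ⟨x3_1_0, x3_1_1⟩
      · linarith only [s1, x2_3_0, x3_0_1]
      · linarith only [C.f13_0, C.f13_4, C.f23_1, C.f23_6, s1, s2, x3_1_1]
    · linarith only [C.f23_5, s2, x2_4_0]
    · linarith only [C.o2, s3, x1_1_1, x2_5_0]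

theorem c0_13_23_33_k0 {n1 n2 n3 A1 A2 A3 B1 B2 B3 m11_1 m11_2 m11_3 m13_1 m13_2 m13_3 m22_1 m22_2 m22_3 m23_1 m23_2 m23_3 m33_1 m33_2 m33_3 : ℤ}
    (C : Ctx0 n1 n2 n3 A1 A2 A3 B1 B2 B3 m11_1 m11_2 m11_3 m13_1 m13_2 m13_3 m22_1 m22_2 m22_3 m23_1 m23_2 m23_3 m33_1 m33_2 m33_3)
    (e0 : 0 < A1)
    (e1 : 0 < B3)
    (e2 : 0 < A2)
    (e3 : 0 < A3)
    (s1 : 0 * A1 + 3 * B1 ≤ m13_1 + m23_1 + m33_1)
    (s2 : 0 * A2 + 3 * B2 ≤ m13_2 + m23_2 + m33_2)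
    (s3 : 0 * A3 + 3 * B3 ≤ m13_3 + m23_3 + m33_3) : False := by

  linarith only [C.f13_7, C.f23_9, C.f33_7, C.o2, s3]

theorem c0_13_23_33_k1 {n1 n2 n3 A1 A2 A3 B1 B2 B3 m11_1 m11_2 m11_3 m13_1 m13_2 m13_3 m22_1 m22_2 m22_3 m23_1 m23_2 m23_3 m33_1 m33_2 m33_3 : ℤ}
    (C : Ctx0 n1 n2 n3 A1 A2 A3 B1 B2 B3 m11_1 m11_2 m11_3 m13_1 m13_2 m13_3 m22_1 m22_2 m22_3 m23_1 m23_2 m23_3 m33_1 m33_2 m33_3)
    (e0 : 0 < A1)
    (e1 : 0 < B3)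
    (e2 : 0 < A2)
    (e3 : 0 < A3)
    (s1 : 1 * A1 + 2 * B1 ≤ m13_1 + m23_1 + m33_1)
    (s2 : 1 * A2 + 2 * B2 ≤ m13_2 + m23_2 + m33_2)
    (s3 : 1 * A3 + 2 * B3 ≤ m13_3 + m23_3 + m33_3) : False := by

  linarith only [C.f13_7, C.f23_9, C.f33_7, s3]

theorem c0_13_23_33_k3 {n1 n2 n3 A1 A2 A3 B1 B2 B3 m11_1 m11_2 m11_3 m13_1 m13_2 m13_3 m22_1 m22_2 m22_3 m23_1 m23_2 m23_3 m33_1 m33_2 m33_3 : ℤ}
    (C : Ctx0 n1 n2 n3 A1 A2 A3 B1 B2 B3 m11_1 m11_2 m11_3 m13_1 m13_2 m13_3 m22_1 m22_2 m22_3 m23_1 m23_2 m23_3 m33_1 m33_2 m33_3)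
    (e0 : 0 < A1)
    (e1 : 0 < B3)
    (e2 : 0 < A2)
    (e3 : 0 < A3)
    (s1 : 3 * A1 + 0 * B1 ≤ m13_1 + m23_1 + m33_1)
    (s2 : 3 * A2 + 0 * B2 ≤ m13_2 + m23_2 + m33_2)
    (s3 : 3 * A3 + 0 * B3 ≤ m13_3 + m23_3 + m33_3) : False := by
  have d_f13_2 : (-A1 + m13_1 + 1 ≤ 0 ∧ A1 - m13_1 - 1 ≤ 0) ∨ (-B3 + m13_1 + 1 ≤ 0 ∧ B3 - m13_1 - 1 ≤ 0) := by
    have h := C.f13_2
    omega
  have d_f13_5 : (-m13_1 + m13_2 - n2 ≤ 0 ∧ m13_1 - m13_2 + n2 ≤ 0) ∨ (-B3 + m13_2 + 1 ≤ 0 ∧ B3 - m13_2 - 1 ≤ 0) := by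
    have h := C.f13_5
    omega
  have d_f13_8 : (-m13_2 + m13_3 - n3 ≤ 0 ∧ m13_2 - m13_3 + n3 ≤ 0) ∨ (-B3 + m13_3 + 1 ≤ 0 ∧ B3 - m13_3 - 1 ≤ 0) := by
    have h := C.f13_8
    omega
  have d_f33_2 : (m33_1 - n1 ≤ 0 ∧ -m33_1 + n1 ≤ 0) ∨ (-A3 + m33_1 + 1 ≤ 0 ∧ A3 - m33_1 - 1 ≤ 0) := by
    have h := C.f33_2
    omega
  have d_f33_5 : (-m33_1 + m33_2 - n2 ≤ 0 ∧ m33_1 - m33_2 + n2 ≤ 0) ∨ (-A3 + m33_2 + 1 ≤ 0 ∧ A3 - m33_2 - 1 ≤ 0) := by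
    have h := C.f33_5
    omega
  have d_f33_8 : (-m33_2 + m33_3 - n3 ≤ 0 ∧ m33_2 - m33_3 + n3 ≤ 0) ∨ (-A3 + m33_3 + 1 ≤ 0 ∧ A3 - m33_3 - 1 ≤ 0) := by
    have h := C.f33_8
    omega
  have d_p13_23A : A1 ≤ 0 ∨ B3 ≤ 0 ∨ A2 ≤ 0 ∨ (-2) * A1 + m13_1 + m23_1 + 1 ≤ 0 ∨ (-2) * A2 + m13_2 + m23_2 + 1 ≤ 0 ∨ (-2) * A3 + m13_3 + m23_3 + 1 ≤ 0 := by
    have h := C.p13_23A
    omega
  have d_p13_33A : A1 ≤ 0 ∨ B3 ≤ 0 ∨ A3 ≤ 0 ∨ (-2) * A1 + m13_1 + m33_1 + 1 ≤ 0 ∨ (-2) * A2 + m13_2 + m33_2 + 1 ≤ 0 ∨ (-2) * A3 + m13_3 + m33_3 + 1 ≤ 0 := by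
    have h := C.p13_33A
    omega
  rcases d_p13_23A with x1_0_0 | x1_1_0 | x1_2_0 | x1_3_0 | x1_4_0 | x1_5_0
  · linarith only [C.b0, C.o0, x1_0_0]
  · linarith only [C.b0, C.f13_1, C.f13_4, C.f13_7, C.f23_1, C.f23_6, C.f23_9, C.f33_1, C.f33_4, C.f33_7, C.o0, s1, s2, s3, x1_1_0]
  · linarith only [C.a2, C.b0, C.o0, x1_2_0]
  · rcases d_f13_2 with ⟨x2_0_0, x2_0_1⟩ | ⟨x2_1_0, x2_1_1⟩
    · rcases d_p13_33A with x3_0_0 | x3_1_0 | x3_2_0 | x3_3_0 | x3_4_0 | x3_5_0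
      · linarith only [C.b0, C.o0, x3_0_0]
      · linarith only [C.b0, C.f13_1, C.f13_4, C.f13_7, C.f23_1, C.f23_6, C.f23_9, C.f33_1, C.f33_4, C.f33_7, C.o0, s1, s2, s3, x3_1_0]
      · linarith only [C.a4, C.b0, C.f13_0, C.f23_1, C.f33_1, C.o0, s1, x3_2_0]
      · linarith only [s1, x1_3_0, x2_0_1, x3_3_0]
      · linarith only [C.f23_5, s2, x3_4_0]
      · rcases d_f13_8 with ⟨x4_0_0, x4_0_1⟩ | ⟨x4_1_0, x4_1_1⟩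
        · rcases d_f13_5 with ⟨x5_0_0, x5_0_1⟩ | ⟨x5_1_0, x5_1_1⟩
          · linarith only [C.b3, C.b5, C.f13_7, C.o0, x2_0_1, x4_0_1, x5_0_1]
          · linarith only [C.b5, C.f13_7, C.f23_5, C.f23_9, C.f33_4, C.o1, s2, s3, x3_5_0, x4_0_1, x5_1_1]
        · rcases d_f33_8 with ⟨x6_0_0, x6_0_1⟩ | ⟨x6_1_0, x6_1_1⟩
          · rcases d_f33_5 with ⟨x7_0_0, x7_0_1⟩ | ⟨x7_1_0, x7_1_1⟩
            · linarith only [C.b3, C.b5, C.f33_7, C.o0, C.o2, s1, x1_3_0, x6_0_1, x7_0_1]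
            · linarith only [C.b5, C.f13_4, C.f13_7, C.f23_6, C.f23_9, C.f33_7, C.o1, s2, s3, x6_0_1, x7_1_1]
          · linarith only [C.f23_9, s3, x3_5_0, x4_1_1, x6_1_1]
    · linarith only [C.f13_0, C.f13_4, C.f13_7, C.f23_1, C.f23_6, C.f23_9, C.f33_1, C.f33_4, C.f33_7, s1, s2, s3, x2_1_1]
  · rcases d_f13_2 with ⟨x8_0_0, x8_0_1⟩ | ⟨x8_1_0, x8_1_1⟩
    · rcases d_p13_33A with x9_0_0 | x9_1_0 | x9_2_0 | x9_3_0 | x9_4_0 | x9_5_0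
      · linarith only [C.b0, C.o0, x9_0_0]
      · linarith only [C.b0, C.f13_1, C.f13_4, C.f13_7, C.f23_1, C.f23_6, C.f23_9, C.f33_1, C.f33_4, C.f33_7, C.o0, s1, s2, s3, x9_1_0]
      · linarith only [C.b0, C.f13_0, C.f23_1, C.f33_1, C.f33_4, C.o0, s1, s2, x1_4_0, x9_2_0]
      · rcases d_f33_2 with ⟨x10_0_0, x10_0_1⟩ | ⟨x10_1_0, x10_1_1⟩
        · linarith only [C.f23_0, s1, x10_0_1, x8_0_1, x9_3_0]
        · linarith only [C.f23_1, C.f33_4, s1, s2, x10_1_1, x1_4_0, x8_0_1, x9_3_0]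
      · linarith only [C.f23_5, s2, x9_4_0]
      · rcases d_f13_8 with ⟨x11_0_0, x11_0_1⟩ | ⟨x11_1_0, x11_1_1⟩
        · rcases d_f13_5 with ⟨x12_0_0, x12_0_1⟩ | ⟨x12_1_0, x12_1_1⟩
          · linarith only [C.b3, C.b5, C.f13_7, C.o0, x11_0_1, x12_0_1, x8_0_1]
          · linarith only [C.b5, C.f13_7, C.f23_9, C.f33_4, C.o1, s2, s3, x11_0_1, x12_1_1, x1_4_0, x9_5_0]
        · rcases d_f33_8 with ⟨x13_0_0, x13_0_1⟩ | ⟨x13_1_0, x13_1_1⟩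
          · linarith only [C.b5, C.f13_7, C.f23_9, C.f33_7, C.o1, s2, s3, x13_0_1, x1_4_0]
          · linarith only [C.f23_9, s3, x11_1_1, x13_1_1, x9_5_0]
    · linarith only [C.f13_0, C.f13_4, C.f13_7, C.f23_1, C.f23_6, C.f23_9, C.f33_1, C.f33_4, C.f33_7, s1, s2, s3, x8_1_1]
  · linarith only [C.f33_7, s3, x1_5_0]

end Pool.Agent.Helper89.TQ
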