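import Pool.Agent.Helper89.TQ.Ctx

set_option autoImplicit false
set_option linter.all false
set_option maxHeartbeats 4000000

namespace Pool.Agent.Helper89.TQ

theorem c0_22_23_23_k0 {n1 n2 n3 A1 A2 A3 B1 B2 B3 m11_1 m11_2 m11_3 m13_1 m13_2 m13_3 m22_1 m22_2 m22_3 m23_1 m23_2 m23_3 m33_1 m33_2 m33_3 : ℤ}
    (C : Ctx0 n1 n2 n3 A1 A2 A3 B1 B2 B3 m11_1 m11_2 m11_3 m13_1 m13_2 m13_3 m22_1 m22_2 m22_3 m23_1 m23_2 m23_3 m33_1 m33_2 m33_3)
    (e0 : 0 < B2)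
    (e1 : 0 < A2)
    (e2 : 0 < B3)
    (s1 : 0 * A1 + 3 * B1 ≤ m22_1 + m23_1 + m23_1)
    (s2 : 0 * A2 + 3 * B2 ≤ m22_2 + m23_2 + m23_2)
    (s3 : 0 * A3 + 3 * B3 ≤ m22_3 + m23_3 + m23_3) : False := by
  have d_t12 : (-A1 + 1 ≤ 0 ∧ -A1 + A2 - n2 + 1 ≤ 0) ∨ (-B1 + 1 ≤ 0 ∧ -B1 + B2 - n2 + 1 ≤ 0) := by
    have h := C.t12
    omega
  have d_t23 : (A1 - A2 + 1 ≤ 0 ∧ -A2 + A3 - n3 + 1 ≤ 0) ∨ (B1 - B2 + 1 ≤ 0 ∧ -B2 + B3 - n3 + 1 ≤ 0) := by
    have h := C.t23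
    omega
  have d_f13_2 : (-A1 + m13_1 + 1 ≤ 0 ∧ A1 - m13_1 - 1 ≤ 0) ∨ (-B3 + m13_1 + 1 ≤ 0 ∧ B3 - m13_1 - 1 ≤ 0) := by
    have h := C.f13_2
    omega
  have d_f13_5 : (-m13_1 + m13_2 - n2 ≤ 0 ∧ m13_1 - m13_2 + n2 ≤ 0) ∨ (-B3 + m13_2 + 1 ≤ 0 ∧ B3 - m13_2 - 1 ≤ 0) := by
    have h := C.f13_5
    omega
  have d_f13_8 : (-m13_2 + m13_3 - n3 ≤ 0 ∧ m13_2 - m13_3 + n3 ≤ 0) ∨ (-B3 + m13_3 + 1 ≤ 0 ∧ B3 - m13_3 - 1 ≤ 0) := by
    have h := C.f13_8
    omega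
  have d_f22_2 : (m22_1 - n1 ≤ 0 ∧ -m22_1 + n1 ≤ 0) ∨ (-B2 + m22_1 + 1 ≤ 0 ∧ B2 - m22_1 - 1 ≤ 0) := by
    have h := C.f22_2
    omega
  have d_f22_5 : (-m22_1 + m22_2 - n2 ≤ 0 ∧ m22_1 - m22_2 + n2 ≤ 0) ∨ (-B2 + m22_2 + 1 ≤ 0 ∧ B2 - m22_2 - 1 ≤ 0) := by
    have h := C.f22_5
    omega
  have d_f23_3 : (m23_1 - n1 ≤ 0 ∧ -m23_1 + n1 ≤ 0) ∨ (-A2 + m23_1 + 1 ≤ 0 ∧ A2 - m23_1 - 1 ≤ 0) ∨ (-B3 + m23_1 + 1 ≤ 0 ∧ B3 - m23_1 - 1 ≤ 0) := by
    have h := C.f23_3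
    omega
  have d_f33_2 : (m33_1 - n1 ≤ 0 ∧ -m33_1 + n1 ≤ 0) ∨ (-A3 + m33_1 + 1 ≤ 0 ∧ A3 - m33_1 - 1 ≤ 0) := by
    have h := C.f33_2
    omega
  have d_p11_23B : B1 ≤ 0 ∨ A2 ≤ 0 ∨ B3 ≤ 0 ∨ (-2) * B1 + m11_1 + m23_1 + 1 ≤ 0 ∨ (-2) * B2 + m11_2 + m23_2 + 1 ≤ 0 ∨ (-2) * B3 + m11_3 + m23_3 + 1 ≤ 0 := by
    have h := C.p11_23B
    omega
  have d_p13_22B : A1 ≤ 0 ∨ B3 ≤ 0 ∨ B2 ≤ 0 ∨ (-2) * B1 + m13_1 + m22_1 + 1 ≤ 0 ∨ (-2) * B2 + m13_2 + m22_2 + 1 ≤ 0 ∨ (-2) * B3 + m13_3 + m22_3 + 1 ≤ 0 := by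
    have h := C.p13_22B
    omega
  rcases d_f13_2 with ⟨x1_0_0, x1_0_1⟩ | ⟨x1_1_0, x1_1_1⟩
  · rcases d_t12 with ⟨x2_0_0, x2_0_1⟩ | ⟨x2_1_0, x2_1_1⟩
    · rcases d_f13_5 with ⟨x3_0_0, x3_0_1⟩ | ⟨x3_1_0, x3_1_1⟩
      · rcases d_f13_8 with ⟨x4_0_0, x4_0_1⟩ | ⟨x4_1_0, x4_1_1⟩
        · linarith only [C.f13_7, C.f22_4, C.f22_6, C.f23_5, C.f23_8, s2, s3, x1_0_1, x2_0_1, x3_0_1, x4_0_1]
        · rcases d_t23 with ⟨x5_0_0, x5_0_1⟩ | ⟨x5_1_0, x5_1_1⟩
          · rcases d_f23_3 with ⟨x6_0_0, x6_0_1⟩ | ⟨x6_1_0, x6_1_1⟩ | ⟨x6_2_0, x6_2_1⟩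
            · rcases d_p11_23B with x7_0_0 | x7_1_0 | x7_2_0 | x7_3_0 | x7_4_0 | x7_5_0
              · rcases d_p13_22B with x8_0_0 | x8_1_0 | x8_2_0 | x8_3_0 | x8_4_0 | x8_5_0
                · linarith only [C.b0, C.o0, x8_0_0]
                · linarith only [C.a4, C.b0, C.o0, C.o2, x5_0_0, x8_1_0]
                · linarith only [e0, x8_2_0]
                · rcases d_f22_2 with ⟨x9_0_0, x9_0_1⟩ | ⟨x9_1_0, x9_1_1⟩
                  · linarith only [C.f23_0, C.o0, s1, x1_0_1, x8_3_0, x9_0_1]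
                  · linarith only [C.o0, e0, x1_0_1, x7_0_0, x8_3_0, x9_1_1]
                · rcases d_f22_2 with ⟨x10_0_0, x10_0_1⟩ | ⟨x10_1_0, x10_1_1⟩
                  · rcases d_f22_5 with ⟨x11_0_0, x11_0_1⟩ | ⟨x11_1_0, x11_1_1⟩
                    · linarith only [C.a1, C.f23_5, s2, x10_0_1, x11_0_1, x1_0_1, x2_0_1, x3_0_1, x8_4_0]
                    · linarith only [C.f23_5, s2, x11_1_1, x1_0_1, x2_0_1, x3_0_1, x8_4_0]
                  · rcases d_f22_5 with ⟨x12_0_0, x12_0_1⟩ | ⟨x12_1_0, x12_1_1⟩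
                    · linarith only [C.f23_5, s2, x10_1_1, x12_0_1, x1_0_1, x2_0_1, x3_0_1, x5_0_0, x8_4_0]
                    · linarith only [C.f23_5, s2, x12_1_1, x1_0_1, x2_0_1, x3_0_1, x8_4_0]
                · linarith only [C.f23_9, s3, x4_1_1, x8_5_0]
              · linarith only [C.b0, C.o0, x5_0_0, x7_1_0]
              · linarith only [C.a4, C.b0, C.o0, C.o2, x5_0_0, x7_2_0]
              · linarith only [C.a1, C.f11_0, C.o0, x6_0_1, x7_3_0]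
              · linarith only [C.b3, C.f11_0, C.f11_1, C.f22_4, s2, x7_4_0]
              · linarith only [C.b3, C.f11_0, C.f11_1, C.f11_2, C.f22_4, C.f22_6, C.f23_9, s3, x7_5_0]
            · rcases d_p11_23B with x13_0_0 | x13_1_0 | x13_2_0 | x13_3_0 | x13_4_0 | x13_5_0
              · rcases d_p13_22B with x14_0_0 | x14_1_0 | x14_2_0 | x14_3_0 | x14_4_0 | x14_5_0
                · linarith only [C.b0, C.o0, x14_0_0]
                · linarith only [C.a4, C.b0, C.o0, C.o2, x14_1_0, x5_0_0]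
                · linarith only [e0, x14_2_0]
                · rcases d_f22_2 with ⟨x15_0_0, x15_0_1⟩ | ⟨x15_1_0, x15_1_1⟩
                  · linarith only [C.f23_0, C.o0, s1, x14_3_0, x15_0_1, x1_0_1]
                  · linarith only [C.o0, e0, x13_0_0, x14_3_0, x15_1_1, x1_0_1]
                · rcases d_f22_2 with ⟨x16_0_0, x16_0_1⟩ | ⟨x16_1_0, x16_1_1⟩
                  · linarith only [C.f22_1, C.f23_0, C.f23_5, s2, x14_4_0, x16_0_1, x1_0_1, x2_0_1, x3_0_1, x6_1_1]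
                  · rcases d_f22_5 with ⟨x17_0_0, x17_0_1⟩ | ⟨x17_1_0, x17_1_1⟩
                    · linarith only [C.f23_5, s2, x14_4_0, x16_1_1, x17_0_1, x1_0_1, x2_0_1, x3_0_1, x5_0_0]
                    · linarith only [C.f23_5, s2, x14_4_0, x17_1_1, x1_0_1, x2_0_1, x3_0_1]
                · linarith only [C.f23_9, s3, x14_5_0, x4_1_1]
              · linarith only [C.b0, C.o0, x13_1_0, x5_0_0]
              · linarith only [C.a4, C.b0, C.o0, C.o2, x13_2_0, x5_0_0]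
              · linarith only [C.f11_0, C.o0, x13_3_0, x5_0_0, x6_1_1]
              · linarith only [C.b3, C.f11_0, C.f11_1, C.f22_4, s2, x13_4_0]
              · linarith only [C.b3, C.f11_0, C.f11_1, C.f11_2, C.f22_4, C.f22_6, C.f23_9, s3, x13_5_0]
            · linarith only [C.a4, C.f23_1, C.o2, x6_2_1]
          · rcases d_f22_2 with ⟨x18_0_0, x18_0_1⟩ | ⟨x18_1_0, x18_1_1⟩
            · rcases d_p13_22B with x19_0_0 | x19_1_0 | x19_2_0 | x19_3_0 | x19_4_0 | x19_5_0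
              · linarith only [C.b0, C.o0, x19_0_0]
              · linarith only [C.a2, C.a4, C.b0, C.o0, C.o2, x19_1_0]
              · linarith only [C.a1, C.b0, C.f22_1, C.o0, x18_0_1, x19_2_0]
              · linarith only [C.a1, C.o0, x18_0_1, x19_3_0, x1_0_1]
              · rcases d_f22_5 with ⟨x20_0_0, x20_0_1⟩ | ⟨x20_1_0, x20_1_1⟩
                · linarith only [C.a1, C.f22_4, C.f23_5, s2, x18_0_1, x20_0_1, x2_0_1]
                · linarith only [C.f23_5, s2, x19_4_0, x1_0_1, x20_1_1, x2_0_1, x3_0_1]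
              · linarith only [C.f23_9, s3, x19_5_0, x4_1_1]
            · rcases d_p13_22B with x21_0_0 | x21_1_0 | x21_2_0 | x21_3_0 | x21_4_0 | x21_5_0
              · linarith only [x21_0_0, x2_0_0]
              · linarith only [C.a2, C.a4, C.b0, C.o0, C.o2, x21_1_0]
              · linarith only [e0, x21_2_0]
              · linarith only [C.o0, x18_1_1, x1_0_1, x21_3_0, x5_1_0]
              · rcases d_f22_5 with ⟨x22_0_0, x22_0_1⟩ | ⟨x22_1_0, x22_1_1⟩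
                · linarith only [C.b3, C.f23_5, s2, x18_1_1, x1_0_1, x21_4_0, x22_0_1, x2_0_1, x3_0_1, x5_1_0]
                · linarith only [C.f23_5, s2, x1_0_1, x21_4_0, x22_1_1, x2_0_1, x3_0_1]
              · linarith only [C.f23_9, s3, x21_5_0, x4_1_1]
      · rcases d_f13_8 with ⟨x23_0_0, x23_0_1⟩ | ⟨x23_1_0, x23_1_1⟩
        · linarith only [C.a4, C.f13_7, C.f22_4, C.f22_6, C.f23_5, C.f23_8, C.o2, s2, s3, x23_0_1, x3_1_1]
        · rcases d_f23_3 with ⟨x24_0_0, x24_0_1⟩ | ⟨x24_1_0, x24_1_1⟩ | ⟨x24_2_0, x24_2_1⟩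
          · rcases d_f33_2 with ⟨x25_0_0, x25_0_1⟩ | ⟨x25_1_0, x25_1_1⟩
            · rcases d_p13_22B with x26_0_0 | x26_1_0 | x26_2_0 | x26_3_0 | x26_4_0 | x26_5_0
              · linarith only [C.b0, C.o0, x26_0_0]
              · linarith only [C.a2, C.a4, C.b0, C.o0, C.o2, x26_1_0]
              · linarith only [e0, x26_2_0]
              · rcases d_f22_2 with ⟨x27_0_0, x27_0_1⟩ | ⟨x27_1_0, x27_1_1⟩
                · linarith only [C.a1, C.o0, x1_0_1, x26_3_0, x27_0_1]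
                · rcases d_p11_23B with x28_0_0 | x28_1_0 | x28_2_0 | x28_3_0 | x28_4_0 | x28_5_0
                  · linarith only [e0, x1_0_1, x26_3_0, x27_1_1, x28_0_0, x2_0_0]
                  · linarith only [C.f22_4, C.f23_5, e0, s2, x28_1_0]
                  · linarith only [C.a2, C.a4, C.b0, C.o0, C.o2, x28_2_0]
                  · linarith only [C.f11_0, C.o0, s1, x1_0_1, x26_3_0, x28_3_0]
                  · linarith only [C.a1, C.f11_0, C.f11_1, C.f13_3, C.f22_4, C.f23_5, C.f33_1, C.o2, s2, x25_0_1, x26_3_0, x27_1_1, x28_4_0, x2_0_1, x3_1_1]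
                  · linarith only [C.f11_0, C.f11_1, C.f11_2, C.f22_3, C.f22_6, C.f23_5, C.f23_8, C.o0, s3, x1_0_1, x26_3_0, x28_5_0, x2_0_1]
              · rcases d_f22_5 with ⟨x29_0_0, x29_0_1⟩ | ⟨x29_1_0, x29_1_1⟩
                · rcases d_f22_2 with ⟨x30_0_0, x30_0_1⟩ | ⟨x30_1_0, x30_1_1⟩
                  · linarith only [C.a1, C.f22_4, C.f23_5, s2, x29_0_1, x2_0_1, x30_0_1]
                  · linarith only [C.a1, C.f22_4, C.f23_5, C.f33_1, C.o2, s2, x25_0_1, x26_4_0, x29_0_1, x2_0_1, x30_1_1, x3_1_1]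
                · linarith only [C.a4, C.f23_5, C.o2, s2, x26_4_0, x29_1_1, x3_1_1]
              · linarith only [C.f23_9, s3, x23_1_1, x26_5_0]
            · rcases d_p13_22B with x31_0_0 | x31_1_0 | x31_2_0 | x31_3_0 | x31_4_0 | x31_5_0
              · linarith only [C.b0, C.o0, x31_0_0]
              · linarith only [C.a2, C.a4, C.b0, C.o0, C.o2, x31_1_0]
              · linarith only [e0, x31_2_0]
              · rcases d_f22_2 with ⟨x32_0_0, x32_0_1⟩ | ⟨x32_1_0, x32_1_1⟩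
                · linarith only [C.a1, C.o0, x1_0_1, x31_3_0, x32_0_1]
                · rcases d_p11_23B with x33_0_0 | x33_1_0 | x33_2_0 | x33_3_0 | x33_4_0 | x33_5_0
                  · linarith only [e0, x1_0_1, x2_0_0, x31_3_0, x32_1_1, x33_0_0]
                  · linarith only [C.f22_4, C.f23_5, e0, s2, x33_1_0]
                  · linarith only [C.a2, C.a4, C.b0, C.o0, C.o2, x33_2_0]
                  · linarith only [C.a4, C.f11_0, C.f22_1, C.f22_4, C.f23_5, C.f33_0, s1, s2, x24_0_1, x25_1_1, x33_3_0]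
                  · linarith only [C.f11_0, C.f11_1, C.f22_3, C.f22_4, C.f23_5, s2, x1_0_1, x2_0_1, x31_3_0, x33_4_0]
                  · linarith only [C.f11_0, C.f11_1, C.f11_2, C.f22_3, C.f22_6, C.f23_5, C.f23_8, C.o0, s3, x1_0_1, x2_0_1, x31_3_0, x33_5_0]
              · rcases d_f22_5 with ⟨x34_0_0, x34_0_1⟩ | ⟨x34_1_0, x34_1_1⟩
                · rcases d_f22_2 with ⟨x35_0_0, x35_0_1⟩ | ⟨x35_1_0, x35_1_1⟩
                  · linarith only [C.a1, C.f22_4, C.f23_5, s2, x2_0_1, x34_0_1, x35_0_1]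
                  · linarith only [C.a1, C.f22_4, C.f23_1, x24_0_1, x2_0_1, x34_0_1, x35_1_1]
                · linarith only [C.a4, C.f23_5, C.o2, s2, x31_4_0, x34_1_1, x3_1_1]
              · linarith only [C.f23_9, s3, x23_1_1, x31_5_0]
          · rcases d_p13_22B with x36_0_0 | x36_1_0 | x36_2_0 | x36_3_0 | x36_4_0 | x36_5_0
            · linarith only [C.b0, C.o0, x36_0_0]
            · linarith only [C.a2, C.a4, C.b0, C.o0, C.o2, x36_1_0]
            · linarith only [e0, x36_2_0]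
            · rcases d_f22_2 with ⟨x37_0_0, x37_0_1⟩ | ⟨x37_1_0, x37_1_1⟩
              · linarith only [C.a1, C.o0, x1_0_1, x36_3_0, x37_0_1]
              · rcases d_p11_23B with x38_0_0 | x38_1_0 | x38_2_0 | x38_3_0 | x38_4_0 | x38_5_0
                · linarith only [e0, x1_0_1, x2_0_0, x36_3_0, x37_1_1, x38_0_0]
                · linarith only [C.f22_4, C.f23_5, e0, s2, x38_1_0]
                · linarith only [C.a2, C.a4, C.b0, C.o0, C.o2, x38_2_0]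
                · linarith only [C.f11_0, C.f22_1, C.f22_4, C.f23_5, s1, s2, x24_1_1, x38_3_0]
                · linarith only [C.f11_0, C.f11_1, C.f22_3, C.f22_4, C.f23_5, s2, x1_0_1, x2_0_1, x36_3_0, x38_4_0]
                · linarith only [C.f11_0, C.f11_1, C.f11_2, C.f22_3, C.f22_6, C.f23_5, C.f23_8, C.o0, s3, x1_0_1, x2_0_1, x36_3_0, x38_5_0]
            · rcases d_f22_5 with ⟨x39_0_0, x39_0_1⟩ | ⟨x39_1_0, x39_1_1⟩
              · rcases d_f22_2 with ⟨x40_0_0, x40_0_1⟩ | ⟨x40_1_0, x40_1_1⟩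
                · linarith only [C.a1, C.f22_4, C.f23_5, s2, x2_0_1, x39_0_1, x40_0_1]
                · linarith only [C.a2, C.a4, C.f23_5, C.o2, s2, x2_0_1, x36_4_0, x39_0_1, x3_1_1, x40_1_1]
              · linarith only [C.a4, C.f23_5, C.o2, s2, x36_4_0, x39_1_1, x3_1_1]
            · linarith only [C.f23_9, s3, x23_1_1, x36_5_0]
          · linarith only [C.a4, C.f23_1, C.o2, x24_2_1]
    · rcases d_p11_23B with x41_0_0 | x41_1_0 | x41_2_0 | x41_3_0 | x41_4_0 | x41_5_0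
      · linarith only [x2_1_0, x41_0_0]
      · linarith only [C.a2, C.o0, x2_1_0, x41_1_0]
      · linarith only [C.a2, C.a4, C.o0, C.o2, x2_1_0, x41_2_0]
      · rcases d_f23_3 with ⟨x42_0_0, x42_0_1⟩ | ⟨x42_1_0, x42_1_1⟩ | ⟨x42_2_0, x42_2_1⟩
        · linarith only [C.a1, C.f11_0, C.o0, x41_3_0, x42_0_1]
        · linarith only [C.f11_0, C.f22_1, C.f22_4, C.f23_5, s1, s2, x41_3_0, x42_1_1]
        · linarith only [C.a4, C.b2, C.f11_0, C.f22_4, C.f23_5, C.o2, s2, x41_3_0, x42_2_1]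
      · linarith only [C.f11_0, C.f11_1, C.f22_4, s2, x2_1_1, x41_4_0]
      · linarith only [C.b5, C.f11_0, C.f11_1, C.f11_2, C.f22_4, C.f22_6, s3, x2_1_1, x41_5_0]
  · linarith only [C.a2, C.a4, C.f13_0, C.o2, x1_1_1]

theorem c0_22_23_23_k1 {n1 n2 n3 A1 A2 A3 B1 B2 B3 m11_1 m11_2 m11_3 m13_1 m13_2 m13_3 m22_1 m22_2 m22_3 m23_1 m23_2 m23_3 m33_1 m33_2 m33_3 : ℤ}
    (C : Ctx0 n1 n2 n3 A1 A2 A3 B1 B2 B3 m11_1 m11_2 m11_3 m13_1 m13_2 m13_3 m22_1 m22_2 m22_3 m23_1 m23_2 m23_3 m33_1 m33_2 m33_3)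
    (e0 : 0 < B2)
    (e1 : 0 < A2)
    (e2 : 0 < B3)
    (s1 : 1 * A1 + 2 * B1 ≤ m22_1 + m23_1 + m23_1)
    (s2 : 1 * A2 + 2 * B2 ≤ m22_2 + m23_2 + m23_2)
    (s3 : 1 * A3 + 2 * B3 ≤ m22_3 + m23_3 + m23_3) : False := by
  have d_t12 : (-A1 + 1 ≤ 0 ∧ -A1 + A2 - n2 + 1 ≤ 0) ∨ (-B1 + 1 ≤ 0 ∧ -B1 + B2 - n2 + 1 ≤ 0) := by
    have h := C.t12
    omega
  have d_t23 : (A1 - A2 + 1 ≤ 0 ∧ -A2 + A3 - n3 + 1 ≤ 0) ∨ (B1 - B2 + 1 ≤ 0 ∧ -B2 + B3 - n3 + 1 ≤ 0) := by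
    have h := C.t23
    omega
  have d_f13_2 : (-A1 + m13_1 + 1 ≤ 0 ∧ A1 - m13_1 - 1 ≤ 0) ∨ (-B3 + m13_1 + 1 ≤ 0 ∧ B3 - m13_1 - 1 ≤ 0) := by
    have h := C.f13_2
    omega
  have d_f13_5 : (-m13_1 + m13_2 - n2 ≤ 0 ∧ m13_1 - m13_2 + n2 ≤ 0) ∨ (-B3 + m13_2 + 1 ≤ 0 ∧ B3 - m13_2 - 1 ≤ 0) := by
    have h := C.f13_5
    omega
  have d_f13_8 : (-m13_2 + m13_3 - n3 ≤ 0 ∧ m13_2 - m13_3 + n3 ≤ 0) ∨ (-B3 + m13_3 + 1 ≤ 0 ∧ B3 - m13_3 - 1 ≤ 0) := by
    have h := C.f13_8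
    omega
  have d_f22_2 : (m22_1 - n1 ≤ 0 ∧ -m22_1 + n1 ≤ 0) ∨ (-B2 + m22_1 + 1 ≤ 0 ∧ B2 - m22_1 - 1 ≤ 0) := by
    have h := C.f22_2
    omega
  have d_f23_3 : (m23_1 - n1 ≤ 0 ∧ -m23_1 + n1 ≤ 0) ∨ (-A2 + m23_1 + 1 ≤ 0 ∧ A2 - m23_1 - 1 ≤ 0) ∨ (-B3 + m23_1 + 1 ≤ 0 ∧ B3 - m23_1 - 1 ≤ 0) := by
    have h := C.f23_3
    omega
  have d_p11_13B : B1 ≤ 0 ∨ A1 ≤ 0 ∨ B3 ≤ 0 ∨ (-2) * B1 + m11_1 + m13_1 + 1 ≤ 0 ∨ (-2) * B2 + m11_2 + m13_2 + 1 ≤ 0 ∨ (-2) * B3 + m11_3 + m13_3 + 1 ≤ 0 := by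
    have h := C.p11_13B
    omega
  have d_p11_23B : B1 ≤ 0 ∨ A2 ≤ 0 ∨ B3 ≤ 0 ∨ (-2) * B1 + m11_1 + m23_1 + 1 ≤ 0 ∨ (-2) * B2 + m11_2 + m23_2 + 1 ≤ 0 ∨ (-2) * B3 + m11_3 + m23_3 + 1 ≤ 0 := by
    have h := C.p11_23B
    omega
  have d_p13_22B : A1 ≤ 0 ∨ B3 ≤ 0 ∨ B2 ≤ 0 ∨ (-2) * B1 + m13_1 + m22_1 + 1 ≤ 0 ∨ (-2) * B2 + m13_2 + m22_2 + 1 ≤ 0 ∨ (-2) * B3 + m13_3 + m22_3 + 1 ≤ 0 := by
    have h := C.p13_22B
    omega
  have d_p22_23B : B2 ≤ 0 ∨ A2 ≤ 0 ∨ B3 ≤ 0 ∨ (-2) * B1 + m22_1 + m23_1 + 1 ≤ 0 ∨ (-2) * B2 + m22_2 + m23_2 + 1 ≤ 0 ∨ (-2) * B3 + m22_3 + m23_3 + 1 ≤ 0 := by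
    have h := C.p22_23B
    omega
  have d_tzpm : -A1 + A2 ≤ 0 ∨ A2 - A3 + n3 - 1 ≤ 0 ∨ B1 - B2 + n2 ≤ 0 ∨ -B2 + B3 - 1 ≤ 0 ∨ (-A2 + B2 + 1 ≤ 0 ∧ -A3 + B3 - 1 ≤ 0) := by
    have h := C.tzpm
    omega
  have d_tpmm : A1 ≤ 0 ∨ A1 - A2 + n2 - 1 ≤ 0 ∨ -B1 + n1 ≤ 0 ∨ -B1 + B2 - 1 ≤ 0 ∨ -A3 + B3 - 1 ≤ 0 := by
    have h := C.tpmm
    omega
  have d_tpzm : A1 ≤ 0 ∨ A1 - A2 + n2 ≤ 0 ∨ A2 - A3 + n3 ≤ 0 ∨ -B1 + n1 ≤ 0 ∨ -B1 + B2 ≤ 0 ∨ -B2 + B3 ≤ 0 ∨ -A3 + B3 - 1 ≤ 0 ∨ (A1 - B1 - 1 ≤ 0 ∧ A2 - B2 ≤ 0) := by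
    have h := C.tpzm
    omega
  rcases d_f13_2 with ⟨x1_0_0, x1_0_1⟩ | ⟨x1_1_0, x1_1_1⟩
  · rcases d_t12 with ⟨x2_0_0, x2_0_1⟩ | ⟨x2_1_0, x2_1_1⟩
    · rcases d_f13_5 with ⟨x3_0_0, x3_0_1⟩ | ⟨x3_1_0, x3_1_1⟩
      · rcases d_f13_8 with ⟨x4_0_0, x4_0_1⟩ | ⟨x4_1_0, x4_1_1⟩
        · linarith only [C.b5, C.f13_7, C.f22_4, C.f23_5, s2, x1_0_1, x2_0_1, x3_0_1, x4_0_1]
        · rcases d_t23 with ⟨x5_0_0, x5_0_1⟩ | ⟨x5_1_0, x5_1_1⟩
          · rcases d_f22_2 with ⟨x6_0_0, x6_0_1⟩ | ⟨x6_1_0, x6_1_1⟩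
            · rcases d_p13_22B with x7_0_0 | x7_1_0 | x7_2_0 | x7_3_0 | x7_4_0 | x7_5_0
              · linarith only [C.b0, C.o0, x7_0_0]
              · linarith only [C.a4, C.b0, C.o0, C.o2, x5_0_0, x7_1_0]
              · linarith only [C.a1, C.f22_1, x2_0_0, x6_0_1, x7_2_0]
              · linarith only [C.f23_0, C.o0, s1, x1_0_1, x6_0_1, x7_3_0]
              · linarith only [C.f23_5, s2, x1_0_1, x2_0_1, x3_0_1, x7_4_0]
              · rcases d_tpzm with x8_0_0 | x8_1_0 | x8_2_0 | x8_3_0 | x8_4_0 | x8_5_0 | x8_6_0 | ⟨x8_7_0, x8_7_1⟩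
                · linarith only [x2_0_0, x8_0_0]
                · linarith only [x2_0_1, x8_1_0]
                · linarith only [C.b5, C.f22_4, C.f23_5, C.o2, s2, x8_2_0]
                · linarith only [C.a1, C.o0, x8_3_0]
                · linarith only [C.a1, C.f22_1, C.o0, x6_0_1, x8_4_0]
                · linarith only [C.a4, C.f22_6, C.f23_5, C.f23_8, C.o2, s2, s3, x4_1_1, x7_5_0, x8_5_0]
                · linarith only [C.f23_9, s3, x4_1_1, x7_5_0, x8_6_0]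
                · linarith only [C.f22_4, C.f23_5, s2, x8_7_1]
            · rcases d_p22_23B with x9_0_0 | x9_1_0 | x9_2_0 | x9_3_0 | x9_4_0 | x9_5_0
              · linarith only [e0, x9_0_0]
              · linarith only [C.b0, C.o0, x5_0_0, x9_1_0]
              · linarith only [C.a4, C.b0, C.o0, C.o2, x5_0_0, x9_2_0]
              · linarith only [C.b2, C.o0, s1, x6_1_1, x9_3_0]
              · linarith only [C.f23_5, s2, x9_4_0]
              · rcases d_tzpm with x10_0_0 | x10_1_0 | x10_2_0 | x10_3_0 | ⟨x10_4_0, x10_4_1⟩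
                · linarith only [x10_0_0, x5_0_0]
                · linarith only [C.b5, C.f22_4, C.f23_5, C.o2, s2, x10_1_0]
                · rcases d_tpzm with x11_0_0 | x11_1_0 | x11_2_0 | x11_3_0 | x11_4_0 | x11_5_0 | x11_6_0 | ⟨x11_7_0, x11_7_1⟩
                  · linarith only [C.b0, C.f22_4, C.f23_5, s2, x10_2_0, x11_0_0, x2_0_1]
                  · linarith only [x11_1_0, x2_0_1]
                  · linarith only [C.b5, C.f22_4, C.f23_5, C.o2, s2, x11_2_0]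
                  · linarith only [C.a1, C.f22_4, C.f23_5, s2, x10_2_0, x11_3_0, x2_0_1]
                  · linarith only [x10_2_0, x11_4_0, x2_0_1, x5_0_0]
                  · linarith only [C.a4, C.f22_6, C.f23_5, C.f23_8, s2, s3, x11_5_0, x9_5_0]
                  · linarith only [C.f23_9, s3, x11_6_0, x9_5_0]
                  · linarith only [C.f22_4, C.f23_5, s2, x11_7_1]
                · linarith only [C.a4, C.f22_6, C.f23_5, C.f23_8, s2, s3, x10_3_0, x9_5_0]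
                · linarith only [C.f23_9, s3, x10_4_1, x9_5_0]
          · rcases d_f22_2 with ⟨x12_0_0, x12_0_1⟩ | ⟨x12_1_0, x12_1_1⟩
            · rcases d_p13_22B with x13_0_0 | x13_1_0 | x13_2_0 | x13_3_0 | x13_4_0 | x13_5_0
              · linarith only [C.b0, C.o0, x13_0_0]
              · linarith only [C.a2, C.a4, C.b0, C.o0, C.o2, x13_1_0]
              · linarith only [C.a1, C.b0, C.f22_1, C.o0, x12_0_1, x13_2_0]
              · linarith only [C.a1, C.o0, x12_0_1, x13_3_0, x1_0_1]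
              · linarith only [C.f23_5, s2, x13_4_0, x1_0_1, x2_0_1, x3_0_1]
              · rcases d_tpzm with x14_0_0 | x14_1_0 | x14_2_0 | x14_3_0 | x14_4_0 | x14_5_0 | x14_6_0 | ⟨x14_7_0, x14_7_1⟩
                · linarith only [x14_0_0, x2_0_0]
                · linarith only [x14_1_0, x2_0_1]
                · linarith only [C.o1, C.o2, x14_2_0, x5_1_1]
                · linarith only [C.a1, C.o0, x14_3_0]
                · linarith only [C.a1, C.f22_1, C.o0, x12_0_1, x14_4_0]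
                · linarith only [C.a4, C.f22_6, C.f23_5, C.f23_8, C.o2, s2, s3, x13_5_0, x14_5_0, x4_1_1]
                · linarith only [C.f23_9, s3, x13_5_0, x14_6_0, x4_1_1]
                · linarith only [C.f22_6, C.f23_5, s2, x13_5_0, x14_7_1, x4_1_1, x5_1_1]
            · rcases d_p13_22B with x15_0_0 | x15_1_0 | x15_2_0 | x15_3_0 | x15_4_0 | x15_5_0
              · linarith only [x15_0_0, x2_0_0]
              · linarith only [C.a2, C.a4, C.b0, C.o0, C.o2, x15_1_0]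
              · linarith only [e0, x15_2_0]
              · linarith only [C.o0, x12_1_1, x15_3_0, x1_0_1, x5_1_0]
              · linarith only [C.f23_5, s2, x15_4_0, x1_0_1, x2_0_1, x3_0_1]
              · rcases d_tpzm with x16_0_0 | x16_1_0 | x16_2_0 | x16_3_0 | x16_4_0 | x16_5_0 | x16_6_0 | ⟨x16_7_0, x16_7_1⟩
                · linarith only [C.b0, C.o0, x16_0_0]
                · linarith only [x16_1_0, x2_0_1]
                · linarith only [C.o1, C.o2, x16_2_0, x5_1_1]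
                · linarith only [C.a1, C.o0, x16_3_0]
                · linarith only [x16_4_0, x5_1_0]
                · linarith only [C.a4, C.f22_6, C.f23_5, C.f23_8, C.o2, s2, s3, x15_5_0, x16_5_0, x4_1_1]
                · linarith only [C.f23_9, s3, x15_5_0, x16_6_0, x4_1_1]
                · linarith only [C.f22_6, C.f23_5, s2, x15_5_0, x16_7_1, x4_1_1, x5_1_1]
      · rcases d_f13_8 with ⟨x17_0_0, x17_0_1⟩ | ⟨x17_1_0, x17_1_1⟩
        · linarith only [C.a4, C.b5, C.f13_7, C.f22_4, C.f23_5, C.o2, s2, x17_0_1, x3_1_1]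
        · rcases d_f23_3 with ⟨x18_0_0, x18_0_1⟩ | ⟨x18_1_0, x18_1_1⟩ | ⟨x18_2_0, x18_2_1⟩
          · rcases d_p11_23B with x19_0_0 | x19_1_0 | x19_2_0 | x19_3_0 | x19_4_0 | x19_5_0
            · rcases d_f22_2 with ⟨x20_0_0, x20_0_1⟩ | ⟨x20_1_0, x20_1_1⟩
              · rcases d_p13_22B with x21_0_0 | x21_1_0 | x21_2_0 | x21_3_0 | x21_4_0 | x21_5_0
                · linarith only [C.b0, C.o0, x21_0_0]
                · linarith only [C.a2, C.a4, C.b0, C.o0, C.o2, x21_1_0]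
                · linarith only [C.a1, C.b0, C.f22_1, C.o0, x20_0_1, x21_2_0]
                · linarith only [C.a1, C.o0, x1_0_1, x20_0_1, x21_3_0]
                · linarith only [C.a4, C.f23_5, C.o2, s2, x21_4_0, x3_1_1]
                · rcases d_tpmm with x22_0_0 | x22_1_0 | x22_2_0 | x22_3_0 | x22_4_0
                  · linarith only [C.b0, C.o0, x22_0_0]
                  · linarith only [C.a4, C.f13_0, C.f13_3, C.f23_9, s3, x17_1_1, x21_5_0, x22_1_0, x3_1_1]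
                  · linarith only [C.a1, C.o0, x22_2_0]
                  · linarith only [C.a1, C.f22_1, C.o0, x20_0_1, x22_3_0]
                  · linarith only [C.f23_9, s3, x17_1_1, x21_5_0, x22_4_0]
              · rcases d_p13_22B with x23_0_0 | x23_1_0 | x23_2_0 | x23_3_0 | x23_4_0 | x23_5_0
                · linarith only [C.b0, C.o0, x23_0_0]
                · linarith only [C.a2, C.a4, C.b0, C.o0, C.o2, x23_1_0]
                · linarith only [e0, x23_2_0]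
                · linarith only [e0, x19_0_0, x1_0_1, x20_1_1, x23_3_0, x2_0_0]
                · linarith only [C.a4, C.f23_5, C.o2, s2, x23_4_0, x3_1_1]
                · rcases d_tpzm with x24_0_0 | x24_1_0 | x24_2_0 | x24_3_0 | x24_4_0 | x24_5_0 | x24_6_0 | ⟨x24_7_0, x24_7_1⟩
                  · linarith only [C.b0, C.o0, x24_0_0]
                  · linarith only [C.a4, C.f13_0, C.f13_3, C.o2, x24_1_0, x3_1_1]
                  · linarith only [C.b5, C.f22_4, C.f23_5, C.o2, s2, x24_2_0]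
                  · linarith only [C.a1, C.o0, x24_3_0]
                  · linarith only [e0, x19_0_0, x24_4_0]
                  · linarith only [C.a4, C.f22_6, C.f23_5, C.f23_8, C.o2, s2, s3, x17_1_1, x23_5_0, x24_5_0]
                  · linarith only [C.f23_9, s3, x17_1_1, x23_5_0, x24_6_0]
                  · linarith only [C.f22_4, C.f23_5, s2, x24_7_1]
            · linarith only [C.f22_4, C.f23_5, e0, s2, x19_1_0]
            · linarith only [C.a2, C.a4, C.b0, C.o0, C.o2, x19_2_0]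
            · linarith only [C.a1, C.f11_0, C.o0, x18_0_1, x19_3_0]
            · linarith only [C.b3, C.f11_0, C.f11_1, C.f22_4, C.f23_5, s2, x19_4_0]
            · rcases d_tpmm with x25_0_0 | x25_1_0 | x25_2_0 | x25_3_0 | x25_4_0
              · linarith only [C.a4, C.b0, C.f11_0, C.f11_1, C.f11_2, C.f13_0, C.f13_3, C.f22_4, C.f22_6, C.f23_5, C.f23_8, s2, s3, x19_5_0, x25_0_0, x2_0_1, x3_1_1]
              · linarith only [C.a4, C.b3, C.f11_0, C.f11_1, C.f11_2, C.f13_0, C.f13_3, C.f22_4, C.f22_6, C.f23_9, s3, x19_5_0, x25_1_0, x3_1_1]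
              · linarith only [C.a1, C.a4, C.f11_0, C.f11_1, C.f11_2, C.f13_0, C.f13_3, C.f22_4, C.f22_6, C.f23_5, C.f23_8, s2, s3, x19_5_0, x25_2_0, x2_0_1, x3_1_1]
              · linarith only [C.a2, C.a4, C.f11_0, C.f11_1, C.f11_2, C.f13_0, C.f13_3, C.f22_4, C.f22_6, C.f23_9, s3, x19_5_0, x25_3_0, x3_1_1]
              · linarith only [C.b3, C.f11_0, C.f11_1, C.f11_2, C.f22_4, C.f22_6, C.f23_9, s3, x19_5_0, x25_4_0]
          · rcases d_t23 with ⟨x26_0_0, x26_0_1⟩ | ⟨x26_1_0, x26_1_1⟩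
            · rcases d_f22_2 with ⟨x27_0_0, x27_0_1⟩ | ⟨x27_1_0, x27_1_1⟩
              · linarith only [C.f22_1, C.f22_4, C.f23_0, C.f23_5, s2, x18_1_1, x27_0_1]
              · rcases d_p22_23B with x28_0_0 | x28_1_0 | x28_2_0 | x28_3_0 | x28_4_0 | x28_5_0
                · linarith only [e0, x28_0_0]
                · linarith only [C.b0, C.o0, x26_0_0, x28_1_0]
                · linarith only [C.a4, C.b0, C.o0, C.o2, x26_0_0, x28_2_0]
                · linarith only [C.b2, C.o0, s1, x27_1_1, x28_3_0]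
                · linarith only [C.f23_5, s2, x28_4_0]
                · rcases d_tzpm with x29_0_0 | x29_1_0 | x29_2_0 | x29_3_0 | ⟨x29_4_0, x29_4_1⟩
                  · linarith only [x26_0_0, x29_0_0]
                  · linarith only [C.b5, C.f22_4, C.f23_5, C.o2, s2, x29_1_0]
                  · rcases d_tpmm with x30_0_0 | x30_1_0 | x30_2_0 | x30_3_0 | x30_4_0
                    · linarith only [C.b0, C.f22_4, C.f23_5, s2, x29_2_0, x2_0_1, x30_0_0]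
                    · linarith only [C.a4, C.f13_0, C.f13_3, C.f23_9, s3, x28_5_0, x30_1_0, x3_1_1]
                    · linarith only [C.a1, C.f22_4, C.f23_5, s2, x29_2_0, x2_0_1, x30_2_0]
                    · linarith only [x26_0_0, x29_2_0, x2_0_1, x30_3_0]
                    · linarith only [C.f23_9, s3, x28_5_0, x30_4_0]
                  · linarith only [C.a4, C.f22_6, C.f23_5, C.f23_8, s2, s3, x28_5_0, x29_3_0]
                  · linarith only [C.f23_9, s3, x28_5_0, x29_4_1]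
            · rcases d_f22_2 with ⟨x31_0_0, x31_0_1⟩ | ⟨x31_1_0, x31_1_1⟩
              · linarith only [C.f22_1, C.f22_4, C.f23_0, C.f23_5, s2, x18_1_1, x31_0_1]
              · rcases d_p13_22B with x32_0_0 | x32_1_0 | x32_2_0 | x32_3_0 | x32_4_0 | x32_5_0
                · linarith only [C.b0, C.o0, x32_0_0]
                · linarith only [C.a2, C.a4, C.b0, C.o0, C.o2, x32_1_0]
                · linarith only [e0, x32_2_0]
                · linarith only [C.o0, x1_0_1, x26_1_0, x31_1_1, x32_3_0]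
                · linarith only [C.a4, C.f23_5, C.o2, s2, x32_4_0, x3_1_1]
                · rcases d_tpzm with x33_0_0 | x33_1_0 | x33_2_0 | x33_3_0 | x33_4_0 | x33_5_0 | x33_6_0 | ⟨x33_7_0, x33_7_1⟩
                  · linarith only [C.b0, C.o0, x33_0_0]
                  · linarith only [C.a4, C.f13_0, C.f13_3, C.o2, x33_1_0, x3_1_1]
                  · linarith only [C.f22_4, C.f23_5, C.o2, s2, x26_1_1, x33_2_0]
                  · linarith only [C.f22_4, C.f23_0, C.f23_5, s2, x18_1_1, x26_1_0, x33_3_0]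
                  · linarith only [x26_1_0, x33_4_0]
                  · linarith only [C.a4, C.f22_6, C.f23_5, C.f23_8, C.o2, s2, s3, x17_1_1, x32_5_0, x33_5_0]
                  · linarith only [C.f23_9, s3, x17_1_1, x32_5_0, x33_6_0]
                  · linarith only [C.f22_4, C.f23_5, s2, x33_7_1]
          · linarith only [C.a4, C.f23_1, C.o2, x18_2_1]
    · rcases d_f13_5 with ⟨x34_0_0, x34_0_1⟩ | ⟨x34_1_0, x34_1_1⟩
      · rcases d_f13_8 with ⟨x35_0_0, x35_0_1⟩ | ⟨x35_1_0, x35_1_1⟩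
        · linarith only [C.b5, C.f13_7, C.o0, x1_0_1, x2_1_1, x34_0_1, x35_0_1]
        · rcases d_f22_2 with ⟨x36_0_0, x36_0_1⟩ | ⟨x36_1_0, x36_1_1⟩
          · rcases d_f23_3 with ⟨x37_0_0, x37_0_1⟩ | ⟨x37_1_0, x37_1_1⟩ | ⟨x37_2_0, x37_2_1⟩
            · rcases d_tzpm with x38_0_0 | x38_1_0 | x38_2_0 | x38_3_0 | ⟨x38_4_0, x38_4_1⟩
              · linarith only [C.a1, C.f22_1, C.f22_4, C.f23_5, s2, x36_0_1, x38_0_0]
              · linarith only [C.b5, C.f22_4, C.f23_5, C.o2, s2, x38_1_0]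
              · linarith only [x2_1_1, x38_2_0]
              · linarith only [C.a4, C.f22_4, C.f23_5, C.o2, s2, x38_3_0]
              · rcases d_p11_23B with x39_0_0 | x39_1_0 | x39_2_0 | x39_3_0 | x39_4_0 | x39_5_0
                · linarith only [x2_1_0, x39_0_0]
                · linarith only [C.a1, C.f22_1, C.o0, x2_1_0, x36_0_1, x38_4_0, x39_1_0]
                · linarith only [C.a1, C.a4, C.f22_1, C.o0, C.o2, x2_1_0, x36_0_1, x38_4_0, x39_2_0]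
                · linarith only [C.a1, C.f11_0, C.o0, x37_0_1, x39_3_0]
                · linarith only [C.f11_0, C.f11_1, C.f22_4, s2, x2_1_1, x38_4_0, x39_4_0]
                · linarith only [C.b5, C.f11_0, C.f11_1, C.f11_2, C.f22_4, C.f22_6, s3, x2_1_1, x38_4_1, x39_5_0]
            · linarith only [C.f22_1, C.f22_4, C.f23_0, C.f23_5, s2, x36_0_1, x37_1_1]
            · linarith only [C.f13_4, C.f22_1, C.f23_0, C.o0, x1_0_1, x2_1_1, x34_0_1, x36_0_1, x37_2_1]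
          · rcases d_p22_23B with x40_0_0 | x40_1_0 | x40_2_0 | x40_3_0 | x40_4_0 | x40_5_0
            · linarith only [C.b2, x2_1_0, x40_0_0]
            · linarith only [C.a2, C.o0, x2_1_0, x40_1_0]
            · linarith only [C.a2, C.a4, C.o0, C.o2, x2_1_0, x40_2_0]
            · linarith only [C.b2, C.o0, s1, x36_1_1, x40_3_0]
            · linarith only [C.f23_5, s2, x40_4_0]
            · rcases d_t23 with ⟨x41_0_0, x41_0_1⟩ | ⟨x41_1_0, x41_1_1⟩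
              · rcases d_tzpm with x42_0_0 | x42_1_0 | x42_2_0 | x42_3_0 | ⟨x42_4_0, x42_4_1⟩
                · linarith only [x41_0_0, x42_0_0]
                · linarith only [C.b5, C.f22_4, C.f23_5, C.o2, s2, x42_1_0]
                · linarith only [x2_1_1, x42_2_0]
                · linarith only [C.a4, C.f22_4, C.f23_5, C.o2, s2, x42_3_0]
                · linarith only [C.f23_9, s3, x40_5_0, x42_4_1]
              · rcases d_p11_13B with x43_0_0 | x43_1_0 | x43_2_0 | x43_3_0 | x43_4_0 | x43_5_0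
                · linarith only [x2_1_0, x43_0_0]
                · linarith only [C.o0, x2_1_0, x43_1_0]
                · linarith only [C.a2, C.a4, C.o0, C.o2, x2_1_0, x43_2_0]
                · rcases d_tzpm with x44_0_0 | x44_1_0 | x44_2_0 | x44_3_0 | ⟨x44_4_0, x44_4_1⟩
                  · linarith only [C.f11_0, C.f22_4, C.f23_5, s2, x1_0_1, x41_1_0, x43_3_0, x44_0_0]
                  · linarith only [C.f22_4, C.f23_5, C.o2, s2, x41_1_1, x44_1_0]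
                  · linarith only [C.a3, C.f11_0, C.f22_4, C.f23_5, s2, x1_0_1, x43_3_0, x44_2_0]
                  · linarith only [C.a4, C.f22_4, C.f23_5, C.o2, s2, x44_3_0]
                  · linarith only [C.f23_9, s3, x40_5_0, x44_4_1]
                · linarith only [C.f11_0, C.f11_1, C.o0, x1_0_1, x2_1_1, x34_0_1, x43_4_0]
                · linarith only [C.f11_0, C.f11_1, C.f11_2, x2_1_1, x35_1_1, x41_1_1, x43_5_0]
      · rcases d_f22_2 with ⟨x45_0_0, x45_0_1⟩ | ⟨x45_1_0, x45_1_1⟩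
        · rcases d_f23_3 with ⟨x46_0_0, x46_0_1⟩ | ⟨x46_1_0, x46_1_1⟩ | ⟨x46_2_0, x46_2_1⟩
          · rcases d_p11_23B with x47_0_0 | x47_1_0 | x47_2_0 | x47_3_0 | x47_4_0 | x47_5_0
            · linarith only [x2_1_0, x47_0_0]
            · linarith only [C.a1, C.f22_1, C.o0, C.o1, x2_1_0, x45_0_1, x47_1_0]
            · linarith only [C.a1, C.a4, C.f22_1, C.o0, C.o1, C.o2, x2_1_0, x45_0_1, x47_2_0]
            · linarith only [C.a1, C.f11_0, C.o0, x46_0_1, x47_3_0]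
            · linarith only [C.f11_0, C.f11_1, C.f22_4, C.o1, s2, x2_1_1, x47_4_0]
            · rcases d_tzpm with x48_0_0 | x48_1_0 | x48_2_0 | x48_3_0 | ⟨x48_4_0, x48_4_1⟩
              · linarith only [C.a1, C.f22_1, C.f22_4, C.f23_5, s2, x45_0_1, x48_0_0]
              · linarith only [C.b5, C.f22_4, C.f23_5, C.o2, s2, x48_1_0]
              · linarith only [x2_1_1, x48_2_0]
              · linarith only [C.a4, C.f22_4, C.f23_5, C.o2, s2, x48_3_0]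
              · linarith only [C.b5, C.f11_0, C.f11_1, C.f11_2, C.f22_4, C.f22_6, s3, x2_1_1, x47_5_0, x48_4_1]
          · linarith only [C.f22_1, C.f22_4, C.f23_0, C.f23_5, s2, x45_0_1, x46_1_1]
          · linarith only [C.a4, C.f22_1, C.f22_4, C.f23_0, C.f23_5, C.o2, s2, x45_0_1, x46_2_1]
        · rcases d_p22_23B with x49_0_0 | x49_1_0 | x49_2_0 | x49_3_0 | x49_4_0 | x49_5_0
          · linarith only [e0, x49_0_0]
          · linarith only [C.a2, C.o0, x2_1_0, x49_1_0]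
          · linarith only [C.a2, C.a4, C.o0, C.o2, x2_1_0, x49_2_0]
          · linarith only [C.b2, C.o0, s1, x45_1_1, x49_3_0]
          · linarith only [C.f23_5, s2, x49_4_0]
          · rcases d_tpzm with x50_0_0 | x50_1_0 | x50_2_0 | x50_3_0 | x50_4_0 | x50_5_0 | x50_6_0 | ⟨x50_7_0, x50_7_1⟩
            · linarith only [C.o0, x2_1_0, x50_0_0]
            · linarith only [C.a4, C.f13_0, C.f13_3, C.f23_9, s3, x34_1_1, x49_5_0, x50_1_0]
            · linarith only [C.b5, C.f22_4, C.f23_5, C.o2, s2, x50_2_0]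
            · linarith only [C.f22_0, C.f23_0, C.o0, s1, x50_3_0]
            · rcases d_p11_23B with x51_0_0 | x51_1_0 | x51_2_0 | x51_3_0 | x51_4_0 | x51_5_0
              · linarith only [x2_1_0, x51_0_0]
              · linarith only [C.a2, C.o0, x2_1_0, x51_1_0]
              · linarith only [C.a2, C.a4, C.o0, C.o2, x2_1_0, x51_2_0]
              · linarith only [C.f11_0, C.f22_1, C.o0, s1, x50_4_0, x51_3_0]
              · linarith only [C.f11_0, C.f11_1, C.f22_1, C.f22_4, C.f23_1, C.o0, s1, s2, x2_1_1, x50_4_0, x51_4_0]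
              · linarith only [C.a2, C.a4, C.b5, C.f11_0, C.f11_1, C.f11_2, C.f13_0, C.f13_3, C.f22_4, C.f22_6, s3, x2_1_1, x34_1_1, x50_4_0, x51_5_0]
            · linarith only [C.a4, C.f22_4, C.f23_5, C.o2, s2, x50_5_0]
            · linarith only [C.f23_9, s3, x49_5_0, x50_6_0]
            · linarith only [C.f22_4, C.f23_5, s2, x50_7_1]
  · linarith only [C.a2, C.a4, C.f13_0, C.o2, x1_1_1]

theorem c0_22_23_23_k2 {n1 n2 n3 A1 A2 A3 B1 B2 B3 m11_1 m11_2 m11_3 m13_1 m13_2 m13_3 m22_1 m22_2 m22_3 m23_1 m23_2 m23_3 m33_1 m33_2 m33_3 : ℤ}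
    (C : Ctx0 n1 n2 n3 A1 A2 A3 B1 B2 B3 m11_1 m11_2 m11_3 m13_1 m13_2 m13_3 m22_1 m22_2 m22_3 m23_1 m23_2 m23_3 m33_1 m33_2 m33_3)
    (e0 : 0 < B2)
    (e1 : 0 < A2)
    (e2 : 0 < B3)
    (s1 : 2 * A1 + 1 * B1 ≤ m22_1 + m23_1 + m23_1)
    (s2 : 2 * A2 + 1 * B2 ≤ m22_2 + m23_2 + m23_2)
    (s3 : 2 * A3 + 1 * B3 ≤ m22_3 + m23_3 + m23_3) : False := by

  linarith only [C.f22_4, C.f23_5, s2]

theorem c0_22_23_23_k3 {n1 n2 n3 A1 A2 A3 B1 B2 B3 m11_1 m11_2 m11_3 m13_1 m13_2 m13_3 m22_1 m22_2 m22_3 m23_1 m23_2 m23_3 m33_1 m33_2 m33_3 : ℤ}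
    (C : Ctx0 n1 n2 n3 A1 A2 A3 B1 B2 B3 m11_1 m11_2 m11_3 m13_1 m13_2 m13_3 m22_1 m22_2 m22_3 m23_1 m23_2 m23_3 m33_1 m33_2 m33_3)
    (e0 : 0 < B2)
    (e1 : 0 < A2)
    (e2 : 0 < B3)
    (s1 : 3 * A1 + 0 * B1 ≤ m22_1 + m23_1 + m23_1)
    (s2 : 3 * A2 + 0 * B2 ≤ m22_2 + m23_2 + m23_2)
    (s3 : 3 * A3 + 0 * B3 ≤ m22_3 + m23_3 + m23_3) : False := by

  linarith only [C.f22_4, C.f23_5, C.o1, s2]

theorem c0_22_23_33_k0 {n1 n2 n3 A1 A2 A3 B1 B2 B3 m11_1 m11_2 m11_3 m13_1 m13_2 m13_3 m22_1 m22_2 m22_3 m23_1 m23_2 m23_3 m33_1 m33_2 m33_3 : ℤ}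
    (C : Ctx0 n1 n2 n3 A1 A2 A3 B1 B2 B3 m11_1 m11_2 m11_3 m13_1 m13_2 m13_3 m22_1 m22_2 m22_3 m23_1 m23_2 m23_3 m33_1 m33_2 m33_3)
    (e0 : 0 < B2)
    (e1 : 0 < A2)
    (e2 : 0 < B3)
    (e3 : 0 < A3)
    (s1 : 0 * A1 + 3 * B1 ≤ m22_1 + m23_1 + m33_1)
    (s2 : 0 * A2 + 3 * B2 ≤ m22_2 + m23_2 + m33_2)
    (s3 : 0 * A3 + 3 * B3 ≤ m22_3 + m23_3 + m33_3) : False := by
  have d_t12 : (-A1 + 1 ≤ 0 ∧ -A1 + A2 - n2 + 1 ≤ 0) ∨ (-B1 + 1 ≤ 0 ∧ -B1 + B2 - n2 + 1 ≤ 0) := by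
    have h := C.t12
    omega
  have d_t23 : (A1 - A2 + 1 ≤ 0 ∧ -A2 + A3 - n3 + 1 ≤ 0) ∨ (B1 - B2 + 1 ≤ 0 ∧ -B2 + B3 - n3 + 1 ≤ 0) := by
    have h := C.t23
    omega
  have d_f13_2 : (-A1 + m13_1 + 1 ≤ 0 ∧ A1 - m13_1 - 1 ≤ 0) ∨ (-B3 + m13_1 + 1 ≤ 0 ∧ B3 - m13_1 - 1 ≤ 0) := by
    have h := C.f13_2
    omega
  have d_f13_5 : (-m13_1 + m13_2 - n2 ≤ 0 ∧ m13_1 - m13_2 + n2 ≤ 0) ∨ (-B3 + m13_2 + 1 ≤ 0 ∧ B3 - m13_2 - 1 ≤ 0) := by
    have h := C.f13_5
    omega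
  have d_f13_8 : (-m13_2 + m13_3 - n3 ≤ 0 ∧ m13_2 - m13_3 + n3 ≤ 0) ∨ (-B3 + m13_3 + 1 ≤ 0 ∧ B3 - m13_3 - 1 ≤ 0) := by
    have h := C.f13_8
    omega
  have d_f22_2 : (m22_1 - n1 ≤ 0 ∧ -m22_1 + n1 ≤ 0) ∨ (-B2 + m22_1 + 1 ≤ 0 ∧ B2 - m22_1 - 1 ≤ 0) := by
    have h := C.f22_2
    omega
  have d_f22_5 : (-m22_1 + m22_2 - n2 ≤ 0 ∧ m22_1 - m22_2 + n2 ≤ 0) ∨ (-B2 + m22_2 + 1 ≤ 0 ∧ B2 - m22_2 - 1 ≤ 0) := by
    have h := C.f22_5
    omega
  have d_f23_3 : (m23_1 - n1 ≤ 0 ∧ -m23_1 + n1 ≤ 0) ∨ (-A2 + m23_1 + 1 ≤ 0 ∧ A2 - m23_1 - 1 ≤ 0) ∨ (-B3 + m23_1 + 1 ≤ 0 ∧ B3 - m23_1 - 1 ≤ 0) := by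
    have h := C.f23_3
    omega
  have d_f23_7 : (-m23_1 + m23_2 - n2 ≤ 0 ∧ m23_1 - m23_2 + n2 ≤ 0) ∨ (-A2 + m23_2 + 1 ≤ 0 ∧ A2 - m23_2 - 1 ≤ 0) ∨ (-B3 + m23_2 + 1 ≤ 0 ∧ B3 - m23_2 - 1 ≤ 0) := by
    have h := C.f23_7
    omega
  have d_f33_2 : (m33_1 - n1 ≤ 0 ∧ -m33_1 + n1 ≤ 0) ∨ (-A3 + m33_1 + 1 ≤ 0 ∧ A3 - m33_1 - 1 ≤ 0) := by
    have h := C.f33_2
    omega
  have d_f33_5 : (-m33_1 + m33_2 - n2 ≤ 0 ∧ m33_1 - m33_2 + n2 ≤ 0) ∨ (-A3 + m33_2 + 1 ≤ 0 ∧ A3 - m33_2 - 1 ≤ 0) := by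
    have h := C.f33_5
    omega
  have d_p11_13B : B1 ≤ 0 ∨ A1 ≤ 0 ∨ B3 ≤ 0 ∨ (-2) * B1 + m11_1 + m13_1 + 1 ≤ 0 ∨ (-2) * B2 + m11_2 + m13_2 + 1 ≤ 0 ∨ (-2) * B3 + m11_3 + m13_3 + 1 ≤ 0 := by
    have h := C.p11_13B
    omega
  have d_p11_23B : B1 ≤ 0 ∨ A2 ≤ 0 ∨ B3 ≤ 0 ∨ (-2) * B1 + m11_1 + m23_1 + 1 ≤ 0 ∨ (-2) * B2 + m11_2 + m23_2 + 1 ≤ 0 ∨ (-2) * B3 + m11_3 + m23_3 + 1 ≤ 0 := by
    have h := C.p11_23B
    omega
  have d_p11_33B : B1 ≤ 0 ∨ A3 ≤ 0 ∨ (-2) * B1 + m11_1 + m33_1 + 1 ≤ 0 ∨ (-2) * B2 + m11_2 + m33_2 + 1 ≤ 0 ∨ (-2) * B3 + m11_3 + m33_3 + 1 ≤ 0 := by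
    have h := C.p11_33B
    omega
  have d_p13_22B : A1 ≤ 0 ∨ B3 ≤ 0 ∨ B2 ≤ 0 ∨ (-2) * B1 + m13_1 + m22_1 + 1 ≤ 0 ∨ (-2) * B2 + m13_2 + m22_2 + 1 ≤ 0 ∨ (-2) * B3 + m13_3 + m22_3 + 1 ≤ 0 := by
    have h := C.p13_22B
    omega
  have d_p22_23B : B2 ≤ 0 ∨ A2 ≤ 0 ∨ B3 ≤ 0 ∨ (-2) * B1 + m22_1 + m23_1 + 1 ≤ 0 ∨ (-2) * B2 + m22_2 + m23_2 + 1 ≤ 0 ∨ (-2) * B3 + m22_3 + m23_3 + 1 ≤ 0 := by
    have h := C.p22_23B
    omega
  have d_p22_33A : B2 ≤ 0 ∨ A3 ≤ 0 ∨ (-2) * A1 + m22_1 + m33_1 + 1 ≤ 0 ∨ (-2) * A2 + m22_2 + m33_2 + 1 ≤ 0 ∨ (-2) * A3 + m22_3 + m33_3 + 1 ≤ 0 := by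
    have h := C.p22_33A
    omega
  have d_p22_33B : B2 ≤ 0 ∨ A3 ≤ 0 ∨ (-2) * B1 + m22_1 + m33_1 + 1 ≤ 0 ∨ (-2) * B2 + m22_2 + m33_2 + 1 ≤ 0 ∨ (-2) * B3 + m22_3 + m33_3 + 1 ≤ 0 := by
    have h := C.p22_33B
    omega
  have d_tzmp : A1 - A2 + n2 ≤ 0 ∨ -A2 + A3 - 1 ≤ 0 ∨ -B1 + B2 ≤ 0 ∨ B2 - B3 + n3 - 1 ≤ 0 := by
    have h := C.tzmp
    omega
  rcases d_f13_2 with ⟨x1_0_0, x1_0_1⟩ | ⟨x1_1_0, x1_1_1⟩
  · rcases d_t12 with ⟨x2_0_0, x2_0_1⟩ | ⟨x2_1_0, x2_1_1⟩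
    · rcases d_f13_5 with ⟨x3_0_0, x3_0_1⟩ | ⟨x3_1_0, x3_1_1⟩
      · rcases d_f13_8 with ⟨x4_0_0, x4_0_1⟩ | ⟨x4_1_0, x4_1_1⟩
        · linarith only [C.b3, C.f13_7, C.f22_4, C.f22_6, C.f23_5, C.f23_8, C.f33_7, C.o0, C.o2, s3, x1_0_1, x2_0_1, x3_0_1, x4_0_1]
        · rcases d_f22_2 with ⟨x5_0_0, x5_0_1⟩ | ⟨x5_1_0, x5_1_1⟩
          · rcases d_p13_22B with x6_0_0 | x6_1_0 | x6_2_0 | x6_3_0 | x6_4_0 | x6_5_0
            · linarith only [C.b0, C.o0, x6_0_0]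
            · linarith only [C.a2, C.a4, C.b0, C.o0, C.o2, x6_1_0]
            · linarith only [C.a1, C.b0, C.f22_1, C.o0, x5_0_1, x6_2_0]
            · linarith only [C.a1, C.o0, x1_0_1, x5_0_1, x6_3_0]
            · rcases d_tzmp with x7_0_0 | x7_1_0 | x7_2_0 | x7_3_0
              · linarith only [x2_0_1, x7_0_0]
              · rcases d_f22_5 with ⟨x8_0_0, x8_0_1⟩ | ⟨x8_1_0, x8_1_1⟩
                · linarith only [C.a1, C.f22_4, C.f23_5, C.f33_4, s2, x2_0_1, x5_0_1, x7_1_0, x8_0_1]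
                · linarith only [C.f23_5, C.f33_4, s2, x1_0_1, x2_0_1, x3_0_1, x6_4_0, x7_1_0, x8_1_1]
              · linarith only [C.a1, C.f22_1, C.o0, x5_0_1, x7_2_0]
              · linarith only [C.f22_6, C.f23_5, C.f23_8, C.f33_7, C.o2, s3, x1_0_1, x2_0_1, x3_0_1, x6_4_0, x7_3_0]
            · linarith only [C.f23_9, C.f33_7, C.o2, s3, x4_1_1, x6_5_0]
          · rcases d_f23_3 with ⟨x9_0_0, x9_0_1⟩ | ⟨x9_1_0, x9_1_1⟩ | ⟨x9_2_0, x9_2_1⟩
            · rcases d_f22_5 with ⟨x10_0_0, x10_0_1⟩ | ⟨x10_1_0, x10_1_1⟩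
              · linarith only [C.a1, C.f22_4, C.f23_1, x10_0_1, x2_0_1, x5_1_1, x9_0_1]
              · rcases d_f23_7 with ⟨x11_0_0, x11_0_1⟩ | ⟨x11_1_0, x11_1_1⟩ | ⟨x11_2_0, x11_2_1⟩
                · linarith only [C.a1, C.f23_5, x11_0_1, x2_0_1, x9_0_1]
                · rcases d_p22_23B with x12_0_0 | x12_1_0 | x12_2_0 | x12_3_0 | x12_4_0 | x12_5_0
                  · linarith only [e0, x12_0_0]
                  · linarith only [C.a1, C.f23_1, x12_1_0, x2_0_0, x9_0_1]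
                  · linarith only [C.a2, C.a4, C.b0, C.o0, C.o2, x12_2_0]
                  · linarith only [C.b2, C.f33_0, s1, x12_3_0, x5_1_1, x9_0_1]
                  · rcases d_f33_2 with ⟨x13_0_0, x13_0_1⟩ | ⟨x13_1_0, x13_1_1⟩
                    · rcases d_p22_33B with x14_0_0 | x14_1_0 | x14_2_0 | x14_3_0 | x14_4_0
                      · linarith only [e0, x14_0_0]
                      · linarith only [C.a4, C.f22_4, C.f23_5, C.f33_4, e0, s2, x14_1_0]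
                      · linarith only [C.a1, C.f23_1, C.o0, s1, x10_1_1, x11_1_1, x12_4_0, x13_0_1, x14_2_0, x5_1_1]
                      · linarith only [s2, x10_1_1, x12_4_0, x14_3_0]
                      · linarith only [C.f23_9, s3, x14_4_0]
                    · linarith only [C.f23_1, C.f33_0, C.f33_4, s2, x10_1_1, x11_1_1, x12_4_0, x13_1_1, x9_0_1]
                  · linarith only [C.f33_7, C.o2, s3, x12_5_0]
                · linarith only [C.f13_4, C.f23_5, x11_2_1, x1_0_1, x2_0_1, x3_0_1]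
            · rcases d_p22_33A with x15_0_0 | x15_1_0 | x15_2_0 | x15_3_0 | x15_4_0
              · linarith only [e0, x15_0_0]
              · linarith only [C.a4, C.f22_4, C.f23_5, C.f33_4, e0, s2, x15_1_0]
              · rcases d_p13_22B with x16_0_0 | x16_1_0 | x16_2_0 | x16_3_0 | x16_4_0 | x16_5_0
                · linarith only [C.b0, C.o0, x16_0_0]
                · linarith only [C.a4, C.b0, C.f22_1, C.f22_4, C.f23_1, C.f23_5, C.f33_1, C.f33_4, C.o2, s1, s2, x16_1_0]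
                · linarith only [e0, x16_2_0]
                · rcases d_t23 with ⟨x17_0_0, x17_0_1⟩ | ⟨x17_1_0, x17_1_1⟩
                  · rcases d_f23_7 with ⟨x18_0_0, x18_0_1⟩ | ⟨x18_1_0, x18_1_1⟩ | ⟨x18_2_0, x18_2_1⟩
                    · linarith only [C.f23_5, x17_0_0, x18_0_1, x2_0_1, x9_1_1]
                    · rcases d_p11_23B with x19_0_0 | x19_1_0 | x19_2_0 | x19_3_0 | x19_4_0 | x19_5_0
                      · linarith only [C.o0, e0, x16_3_0, x19_0_0, x1_0_1, x5_1_1]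
                      · linarith only [C.o0, e0, x16_3_0, x17_0_0, x19_1_0, x1_0_1, x5_1_1]
                      · linarith only [C.a4, C.f22_4, C.f23_5, C.f33_4, C.o2, e0, s2, x19_2_0]
                      · linarith only [C.f11_0, C.o0, x17_0_0, x19_3_0, x9_1_1]
                      · linarith only [C.f11_0, C.f11_1, C.o0, x16_3_0, x17_0_0, x18_1_1, x19_4_0, x1_0_1, x2_0_1, x5_1_1]
                      · linarith only [C.f11_0, C.f11_1, C.f11_2, C.f22_4, C.f22_6, C.f33_7, C.o0, C.o2, s3, x16_3_0, x17_0_0, x19_5_0, x1_0_1, x2_0_1, x5_1_1]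
                    · linarith only [C.f13_4, C.f23_5, x18_2_1, x1_0_1, x2_0_1, x3_0_1]
                  · linarith only [C.o0, x16_3_0, x17_1_0, x1_0_1, x5_1_1]
                · rcases d_f22_5 with ⟨x20_0_0, x20_0_1⟩ | ⟨x20_1_0, x20_1_1⟩
                  · linarith only [C.a2, C.f22_4, x20_0_1, x2_0_1, x5_1_1]
                  · linarith only [C.a2, C.f23_5, C.f33_3, s2, x15_2_0, x16_4_0, x1_0_1, x20_1_1, x2_0_1, x3_0_1, x5_1_1]
                · linarith only [C.f23_9, C.f33_7, C.o2, s3, x16_5_0, x4_1_1]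
              · rcases d_t23 with ⟨x21_0_0, x21_0_1⟩ | ⟨x21_1_0, x21_1_1⟩
                · rcases d_f33_2 with ⟨x22_0_0, x22_0_1⟩ | ⟨x22_1_0, x22_1_1⟩
                  · rcases d_p22_33B with x23_0_0 | x23_1_0 | x23_2_0 | x23_3_0 | x23_4_0
                    · linarith only [e0, x23_0_0]
                    · linarith only [C.a4, C.b0, C.o0, x21_0_0, x23_1_0]
                    · linarith only [C.b2, C.f23_0, s1, x22_0_1, x23_2_0, x5_1_1]
                    · rcases d_f22_5 with ⟨x24_0_0, x24_0_1⟩ | ⟨x24_1_0, x24_1_1⟩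
                      · linarith only [C.f22_4, x21_0_0, x24_0_1, x2_0_1, x5_1_1]
                      · rcases d_f33_5 with ⟨x25_0_0, x25_0_1⟩ | ⟨x25_1_0, x25_1_1⟩
                        · linarith only [C.f23_0, C.f23_5, s2, x21_0_0, x22_0_1, x23_3_0, x24_1_1, x25_0_1, x2_0_1, x9_1_1]
                        · linarith only [C.f23_0, C.f23_5, C.f33_1, s2, x22_0_1, x23_3_0, x24_1_1, x25_1_1, x9_1_1]
                    · linarith only [C.f23_9, s3, x23_4_0]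
                  · rcases d_p22_33B with x26_0_0 | x26_1_0 | x26_2_0 | x26_3_0 | x26_4_0
                    · linarith only [e0, x26_0_0]
                    · linarith only [C.a4, C.b0, C.o0, x21_0_0, x26_1_0]
                    · linarith only [C.a4, C.b2, C.f22_4, C.f23_5, C.f33_4, s2, x22_1_1, x26_2_0, x5_1_1]
                    · rcases d_f22_5 with ⟨x27_0_0, x27_0_1⟩ | ⟨x27_1_0, x27_1_1⟩
                      · linarith only [C.f22_4, x21_0_0, x27_0_1, x2_0_1, x5_1_1]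
                      · rcases d_f33_5 with ⟨x28_0_0, x28_0_1⟩ | ⟨x28_1_0, x28_1_1⟩
                        · linarith only [C.a4, C.f23_5, s2, x21_0_0, x22_1_1, x26_3_0, x27_1_1, x28_0_1, x2_0_1]
                        · linarith only [C.a4, C.f23_5, s2, x26_3_0, x27_1_1, x28_1_1]
                    · linarith only [C.f23_9, s3, x26_4_0]
                · rcases d_p13_22B with x29_0_0 | x29_1_0 | x29_2_0 | x29_3_0 | x29_4_0 | x29_5_0
                  · linarith only [C.b0, C.o0, x29_0_0]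
                  · linarith only [C.a2, C.a4, C.b0, C.o0, C.o2, x29_1_0]
                  · linarith only [e0, x29_2_0]
                  · linarith only [C.o0, x1_0_1, x21_1_0, x29_3_0, x5_1_1]
                  · rcases d_f22_5 with ⟨x30_0_0, x30_0_1⟩ | ⟨x30_1_0, x30_1_1⟩
                    · linarith only [C.b3, C.o0, x1_0_1, x21_1_0, x29_4_0, x30_0_1, x3_0_1, x5_1_1]
                    · linarith only [C.f23_5, s2, x15_3_0, x1_0_1, x29_4_0, x2_0_1, x30_1_1, x3_0_1]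
                  · linarith only [C.f23_9, C.f33_7, C.o2, s3, x29_5_0, x4_1_1]
              · linarith only [C.f23_9, C.o2, s3, x15_4_0]
            · linarith only [C.f13_4, C.f23_1, x1_0_1, x2_0_1, x3_0_1, x9_2_1]
      · rcases d_f13_8 with ⟨x31_0_0, x31_0_1⟩ | ⟨x31_1_0, x31_1_1⟩
        · linarith only [C.a4, C.f13_7, C.f22_4, C.f22_6, C.f23_5, C.f23_8, C.f33_4, C.f33_6, C.o2, s2, s3, x31_0_1, x3_1_1]
        · rcases d_f33_2 with ⟨x32_0_0, x32_0_1⟩ | ⟨x32_1_0, x32_1_1⟩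
          · rcases d_p13_22B with x33_0_0 | x33_1_0 | x33_2_0 | x33_3_0 | x33_4_0 | x33_5_0
            · linarith only [C.b0, C.o0, x33_0_0]
            · linarith only [C.a2, C.a4, C.b0, C.o0, C.o2, x33_1_0]
            · linarith only [e0, x33_2_0]
            · rcases d_f22_2 with ⟨x34_0_0, x34_0_1⟩ | ⟨x34_1_0, x34_1_1⟩
              · linarith only [C.a1, C.o0, x1_0_1, x33_3_0, x34_0_1]
              · rcases d_p11_33B with x35_0_0 | x35_1_0 | x35_2_0 | x35_3_0 | x35_4_0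
                · linarith only [e0, x1_0_1, x2_0_0, x33_3_0, x34_1_1, x35_0_0]
                · linarith only [C.a4, C.f22_4, C.f23_5, C.f33_4, e0, s2, x35_1_0]
                · linarith only [C.a1, C.f11_0, C.o0, x32_0_1, x35_2_0]
                · linarith only [C.b2, C.f11_0, C.f11_1, C.f22_4, C.f23_5, s2, x1_0_1, x2_0_1, x33_3_0, x34_1_1, x35_3_0]
                · linarith only [C.f11_0, C.f11_1, C.f11_2, C.f22_3, C.f22_6, C.f23_9, C.o0, s3, x1_0_1, x33_3_0, x35_4_0]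
            · rcases d_f22_5 with ⟨x36_0_0, x36_0_1⟩ | ⟨x36_1_0, x36_1_1⟩
              · rcases d_f22_2 with ⟨x37_0_0, x37_0_1⟩ | ⟨x37_1_0, x37_1_1⟩
                · linarith only [C.a1, C.f13_0, C.f13_3, C.f22_4, C.f23_5, C.f33_4, C.o2, s2, x2_0_1, x36_0_1, x37_0_1, x3_1_1]
                · linarith only [C.a1, C.f13_0, C.f13_3, C.f22_4, C.f33_1, C.o2, x32_0_1, x36_0_1, x37_1_1, x3_1_1]
              · linarith only [C.a4, C.f23_5, C.f33_4, C.o2, s2, x33_4_0, x36_1_1, x3_1_1]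
            · linarith only [C.f23_9, C.f33_7, C.o2, s3, x31_1_1, x33_5_0]
          · rcases d_p13_22B with x38_0_0 | x38_1_0 | x38_2_0 | x38_3_0 | x38_4_0 | x38_5_0
            · linarith only [C.b0, C.o0, x38_0_0]
            · linarith only [C.a2, C.a4, C.b0, C.o0, C.o2, x38_1_0]
            · linarith only [e0, x38_2_0]
            · rcases d_f22_2 with ⟨x39_0_0, x39_0_1⟩ | ⟨x39_1_0, x39_1_1⟩
              · linarith only [C.a1, C.o0, x1_0_1, x38_3_0, x39_0_1]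
              · rcases d_p11_33B with x40_0_0 | x40_1_0 | x40_2_0 | x40_3_0 | x40_4_0
                · linarith only [e0, x1_0_1, x2_0_0, x38_3_0, x39_1_1, x40_0_0]
                · linarith only [C.a4, C.f22_4, C.f23_5, C.f33_4, e0, s2, x40_1_0]
                · linarith only [C.a4, C.f11_0, C.f22_1, C.f22_4, C.f23_1, C.f23_5, C.f33_4, s1, s2, x32_1_1, x40_2_0]
                · linarith only [C.b2, C.f11_0, C.f11_1, C.f22_4, C.f23_5, s2, x1_0_1, x2_0_1, x38_3_0, x39_1_1, x40_3_0]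
                · linarith only [C.f11_0, C.f11_1, C.f11_2, C.f22_3, C.f22_6, C.f23_9, C.o0, s3, x1_0_1, x38_3_0, x40_4_0]
            · rcases d_f22_5 with ⟨x41_0_0, x41_0_1⟩ | ⟨x41_1_0, x41_1_1⟩
              · rcases d_f22_2 with ⟨x42_0_0, x42_0_1⟩ | ⟨x42_1_0, x42_1_1⟩
                · linarith only [C.a1, C.f13_0, C.f13_3, C.f22_4, C.f23_5, C.f33_4, C.o2, s2, x2_0_1, x3_1_1, x41_0_1, x42_0_1]
                · linarith only [C.f13_1, C.f22_4, C.f23_5, C.f33_1, C.f33_3, C.o2, s2, x1_0_1, x2_0_1, x38_4_0, x3_1_1, x41_0_1, x42_1_1]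
              · linarith only [C.a4, C.f23_5, C.f33_4, C.o2, s2, x38_4_0, x3_1_1, x41_1_1]
            · linarith only [C.f23_9, C.f33_7, C.o2, s3, x31_1_1, x38_5_0]
    · rcases d_f13_5 with ⟨x43_0_0, x43_0_1⟩ | ⟨x43_1_0, x43_1_1⟩
      · rcases d_f13_8 with ⟨x44_0_0, x44_0_1⟩ | ⟨x44_1_0, x44_1_1⟩
        · linarith only [C.a3, C.f13_7, C.f22_4, C.f22_6, C.f23_5, C.f23_8, C.f33_7, C.o0, C.o2, s3, x1_0_1, x2_1_1, x43_0_1, x44_0_1]
        · rcases d_f22_5 with ⟨x45_0_0, x45_0_1⟩ | ⟨x45_1_0, x45_1_1⟩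
          · rcases d_f22_2 with ⟨x46_0_0, x46_0_1⟩ | ⟨x46_1_0, x46_1_1⟩
            · linarith only [C.a1, C.a3, C.f22_4, C.f23_5, C.f33_0, C.f33_3, s2, x45_0_1, x46_0_1]
            · linarith only [C.b2, C.f22_4, x2_1_1, x45_0_1, x46_1_1]
          · rcases d_t23 with ⟨x47_0_0, x47_0_1⟩ | ⟨x47_1_0, x47_1_1⟩
            · rcases d_f33_2 with ⟨x48_0_0, x48_0_1⟩ | ⟨x48_1_0, x48_1_1⟩
              · rcases d_p11_33B with x49_0_0 | x49_1_0 | x49_2_0 | x49_3_0 | x49_4_0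
                · linarith only [x2_1_0, x49_0_0]
                · linarith only [C.a4, C.o0, x2_1_0, x47_0_0, x49_1_0]
                · linarith only [C.a1, C.f11_0, C.o0, x48_0_1, x49_2_0]
                · rcases d_f33_5 with ⟨x50_0_0, x50_0_1⟩ | ⟨x50_1_0, x50_1_1⟩
                  · linarith only [C.f11_0, C.f11_1, C.f22_4, C.f23_0, C.f23_4, s2, x2_1_1, x48_0_1, x49_3_0, x50_0_1]
                  · linarith only [C.a4, C.f11_0, C.f11_1, C.f22_4, C.f23_5, s2, x2_1_1, x49_3_0, x50_1_1]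
                · linarith only [C.f11_0, C.f11_1, C.f11_2, C.f22_4, C.f22_6, C.f23_9, s3, x2_1_1, x49_4_0]
              · rcases d_f33_5 with ⟨x51_0_0, x51_0_1⟩ | ⟨x51_1_0, x51_1_1⟩
                · linarith only [C.a3, C.f33_4, x47_0_0, x48_1_1, x51_0_1]
                · rcases d_p11_33B with x52_0_0 | x52_1_0 | x52_2_0 | x52_3_0 | x52_4_0
                  · linarith only [x2_1_0, x52_0_0]
                  · linarith only [C.a4, C.o0, x2_1_0, x47_0_0, x52_1_0]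
                  · linarith only [C.a4, C.f11_0, C.f22_1, C.f22_4, C.f23_1, C.f23_5, C.f33_4, s1, s2, x48_1_1, x52_2_0]
                  · linarith only [C.a4, C.f11_0, C.f11_1, C.f22_4, C.f23_5, s2, x2_1_1, x51_1_1, x52_3_0]
                  · linarith only [C.f11_0, C.f11_1, C.f11_2, C.f22_4, C.f22_6, C.f23_9, s3, x2_1_1, x52_4_0]
            · rcases d_f22_2 with ⟨x53_0_0, x53_0_1⟩ | ⟨x53_1_0, x53_1_1⟩
              · rcases d_p13_22B with x54_0_0 | x54_1_0 | x54_2_0 | x54_3_0 | x54_4_0 | x54_5_0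
                · linarith only [C.o0, x2_1_0, x54_0_0]
                · linarith only [C.a1, C.a4, C.f22_1, C.f22_4, C.f23_5, C.f33_4, C.o0, C.o2, s2, x2_1_0, x53_0_1, x54_1_0]
                · linarith only [C.a1, C.f22_1, C.o0, x2_1_0, x53_0_1, x54_2_0]
                · linarith only [C.a1, C.o0, x1_0_1, x53_0_1, x54_3_0]
                · linarith only [C.o0, x1_0_1, x2_1_1, x43_0_1, x45_1_1, x54_4_0]
                · linarith only [C.f23_9, C.f33_7, C.o2, s3, x44_1_1, x54_5_0]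
              · rcases d_p13_22B with x55_0_0 | x55_1_0 | x55_2_0 | x55_3_0 | x55_4_0 | x55_5_0
                · linarith only [C.o0, x2_1_0, x55_0_0]
                · linarith only [C.a2, C.a4, C.o0, C.o2, x2_1_0, x55_1_0]
                · linarith only [x2_1_0, x47_1_0, x55_2_0]
                · linarith only [C.o0, x1_0_1, x47_1_0, x53_1_1, x55_3_0]
                · linarith only [C.o0, x1_0_1, x2_1_1, x43_0_1, x45_1_1, x55_4_0]
                · linarith only [C.f23_9, C.f33_7, C.o2, s3, x44_1_1, x55_5_0]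
      · rcases d_f13_8 with ⟨x56_0_0, x56_0_1⟩ | ⟨x56_1_0, x56_1_1⟩
        · linarith only [C.a4, C.f13_7, C.f22_4, C.f22_6, C.f23_5, C.f23_8, C.f33_4, C.f33_6, C.o2, s2, s3, x43_1_1, x56_0_1]
        · rcases d_p11_13B with x57_0_0 | x57_1_0 | x57_2_0 | x57_3_0 | x57_4_0 | x57_5_0
          · linarith only [x2_1_0, x57_0_0]
          · linarith only [C.o0, x2_1_0, x57_1_0]
          · linarith only [C.a2, C.a4, C.o0, C.o2, x2_1_0, x57_2_0]
          · rcases d_p11_23B with x58_0_0 | x58_1_0 | x58_2_0 | x58_3_0 | x58_4_0 | x58_5_0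
            · linarith only [x2_1_0, x58_0_0]
            · linarith only [C.a2, C.o0, x2_1_0, x58_1_0]
            · linarith only [C.a2, C.a4, C.o0, C.o2, x2_1_0, x58_2_0]
            · rcases d_f23_3 with ⟨x59_0_0, x59_0_1⟩ | ⟨x59_1_0, x59_1_1⟩ | ⟨x59_2_0, x59_2_1⟩
              · linarith only [C.a1, C.f11_0, C.o0, x58_3_0, x59_0_1]
              · rcases d_p22_33B with x60_0_0 | x60_1_0 | x60_2_0 | x60_3_0 | x60_4_0
                · linarith only [C.b2, x2_1_0, x60_0_0]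
                · linarith only [C.a4, C.f11_0, C.f22_1, C.f22_4, C.f23_5, C.f33_1, C.f33_4, s1, s2, x2_1_0, x58_3_0, x60_1_0]
                · linarith only [C.f11_0, s1, x58_3_0, x60_2_0]
                · linarith only [C.b2, C.f11_0, C.f23_5, s2, x58_3_0, x59_1_1, x60_3_0]
                · linarith only [C.f23_9, s3, x60_4_0]
              · linarith only [C.a4, C.f11_0, C.f22_1, C.f22_4, C.f23_5, C.f33_1, C.f33_4, C.o2, s1, s2, x58_3_0, x59_2_1]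
            · linarith only [C.f11_0, C.f11_1, C.f13_3, C.f22_4, C.f33_4, C.o2, s2, x43_1_1, x57_3_0, x58_4_0]
            · linarith only [C.f11_0, C.f11_1, C.f11_2, C.f22_4, C.f22_6, C.f33_7, C.o2, s3, x2_1_1, x58_5_0]
          · linarith only [C.a4, C.f11_0, C.f11_1, C.f22_4, C.f23_5, C.f33_4, C.o2, s2, x2_1_1, x43_1_1, x57_4_0]
          · linarith only [C.f11_0, C.f11_1, C.f11_2, C.f22_4, C.f22_6, C.f23_9, C.f33_7, C.o2, s3, x2_1_1, x56_1_1, x57_5_0]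
  · linarith only [C.a2, C.a4, C.f13_0, C.o2, x1_1_1]

theorem c0_22_23_33_k1 {n1 n2 n3 A1 A2 A3 B1 B2 B3 m11_1 m11_2 m11_3 m13_1 m13_2 m13_3 m22_1 m22_2 m22_3 m23_1 m23_2 m23_3 m33_1 m33_2 m33_3 : ℤ}
    (C : Ctx0 n1 n2 n3 A1 A2 A3 B1 B2 B3 m11_1 m11_2 m11_3 m13_1 m13_2 m13_3 m22_1 m22_2 m22_3 m23_1 m23_2 m23_3 m33_1 m33_2 m33_3)
    (e0 : 0 < B2)
    (e1 : 0 < A2)
    (e2 : 0 < B3)
    (e3 : 0 < A3)
    (s1 : 1 * A1 + 2 * B1 ≤ m22_1 + m23_1 + m33_1)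
    (s2 : 1 * A2 + 2 * B2 ≤ m22_2 + m23_2 + m33_2)
    (s3 : 1 * A3 + 2 * B3 ≤ m22_3 + m23_3 + m33_3) : False := by
  have d_t12 : (-A1 + 1 ≤ 0 ∧ -A1 + A2 - n2 + 1 ≤ 0) ∨ (-B1 + 1 ≤ 0 ∧ -B1 + B2 - n2 + 1 ≤ 0) := by
    have h := C.t12
    omega
  have d_t23 : (A1 - A2 + 1 ≤ 0 ∧ -A2 + A3 - n3 + 1 ≤ 0) ∨ (B1 - B2 + 1 ≤ 0 ∧ -B2 + B3 - n3 + 1 ≤ 0) := by
    have h := C.t23
    omega
  have d_f13_2 : (-A1 + m13_1 + 1 ≤ 0 ∧ A1 - m13_1 - 1 ≤ 0) ∨ (-B3 + m13_1 + 1 ≤ 0 ∧ B3 - m13_1 - 1 ≤ 0) := by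
    have h := C.f13_2
    omega
  have d_f13_5 : (-m13_1 + m13_2 - n2 ≤ 0 ∧ m13_1 - m13_2 + n2 ≤ 0) ∨ (-B3 + m13_2 + 1 ≤ 0 ∧ B3 - m13_2 - 1 ≤ 0) := by
    have h := C.f13_5
    omega
  have d_f13_8 : (-m13_2 + m13_3 - n3 ≤ 0 ∧ m13_2 - m13_3 + n3 ≤ 0) ∨ (-B3 + m13_3 + 1 ≤ 0 ∧ B3 - m13_3 - 1 ≤ 0) := by
    have h := C.f13_8
    omega
  have d_f22_2 : (m22_1 - n1 ≤ 0 ∧ -m22_1 + n1 ≤ 0) ∨ (-B2 + m22_1 + 1 ≤ 0 ∧ B2 - m22_1 - 1 ≤ 0) := by
    have h := C.f22_2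
    omega
  have d_f22_5 : (-m22_1 + m22_2 - n2 ≤ 0 ∧ m22_1 - m22_2 + n2 ≤ 0) ∨ (-B2 + m22_2 + 1 ≤ 0 ∧ B2 - m22_2 - 1 ≤ 0) := by
    have h := C.f22_5
    omega
  have d_f23_3 : (m23_1 - n1 ≤ 0 ∧ -m23_1 + n1 ≤ 0) ∨ (-A2 + m23_1 + 1 ≤ 0 ∧ A2 - m23_1 - 1 ≤ 0) ∨ (-B3 + m23_1 + 1 ≤ 0 ∧ B3 - m23_1 - 1 ≤ 0) := by
    have h := C.f23_3
    omega
  have d_f23_7 : (-m23_1 + m23_2 - n2 ≤ 0 ∧ m23_1 - m23_2 + n2 ≤ 0) ∨ (-A2 + m23_2 + 1 ≤ 0 ∧ A2 - m23_2 - 1 ≤ 0) ∨ (-B3 + m23_2 + 1 ≤ 0 ∧ B3 - m23_2 - 1 ≤ 0) := by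
    have h := C.f23_7
    omega
  have d_f33_8 : (-m33_2 + m33_3 - n3 ≤ 0 ∧ m33_2 - m33_3 + n3 ≤ 0) ∨ (-A3 + m33_3 + 1 ≤ 0 ∧ A3 - m33_3 - 1 ≤ 0) := by
    have h := C.f33_8
    omega
  have d_p11_13B : B1 ≤ 0 ∨ A1 ≤ 0 ∨ B3 ≤ 0 ∨ (-2) * B1 + m11_1 + m13_1 + 1 ≤ 0 ∨ (-2) * B2 + m11_2 + m13_2 + 1 ≤ 0 ∨ (-2) * B3 + m11_3 + m13_3 + 1 ≤ 0 := by
    have h := C.p11_13B
    omega
  have d_p11_22B : B1 ≤ 0 ∨ B2 ≤ 0 ∨ (-2) * B1 + m11_1 + m22_1 + 1 ≤ 0 ∨ (-2) * B2 + m11_2 + m22_2 + 1 ≤ 0 ∨ (-2) * B3 + m11_3 + m22_3 + 1 ≤ 0 := by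
    have h := C.p11_22B
    omega
  have d_p11_23B : B1 ≤ 0 ∨ A2 ≤ 0 ∨ B3 ≤ 0 ∨ (-2) * B1 + m11_1 + m23_1 + 1 ≤ 0 ∨ (-2) * B2 + m11_2 + m23_2 + 1 ≤ 0 ∨ (-2) * B3 + m11_3 + m23_3 + 1 ≤ 0 := by
    have h := C.p11_23B
    omega
  have d_p11_33B : B1 ≤ 0 ∨ A3 ≤ 0 ∨ (-2) * B1 + m11_1 + m33_1 + 1 ≤ 0 ∨ (-2) * B2 + m11_2 + m33_2 + 1 ≤ 0 ∨ (-2) * B3 + m11_3 + m33_3 + 1 ≤ 0 := by
    have h := C.p11_33B
    omega
  have d_p13_22B : A1 ≤ 0 ∨ B3 ≤ 0 ∨ B2 ≤ 0 ∨ (-2) * B1 + m13_1 + m22_1 + 1 ≤ 0 ∨ (-2) * B2 + m13_2 + m22_2 + 1 ≤ 0 ∨ (-2) * B3 + m13_3 + m22_3 + 1 ≤ 0 := by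
    have h := C.p13_22B
    omega
  have d_p13_33A : A1 ≤ 0 ∨ B3 ≤ 0 ∨ A3 ≤ 0 ∨ (-2) * A1 + m13_1 + m33_1 + 1 ≤ 0 ∨ (-2) * A2 + m13_2 + m33_2 + 1 ≤ 0 ∨ (-2) * A3 + m13_3 + m33_3 + 1 ≤ 0 := by
    have h := C.p13_33A
    omega
  have d_p22_23B : B2 ≤ 0 ∨ A2 ≤ 0 ∨ B3 ≤ 0 ∨ (-2) * B1 + m22_1 + m23_1 + 1 ≤ 0 ∨ (-2) * B2 + m22_2 + m23_2 + 1 ≤ 0 ∨ (-2) * B3 + m22_3 + m23_3 + 1 ≤ 0 := by
    have h := C.p22_23B
    omega
  have d_p22_33A : B2 ≤ 0 ∨ A3 ≤ 0 ∨ (-2) * A1 + m22_1 + m33_1 + 1 ≤ 0 ∨ (-2) * A2 + m22_2 + m33_2 + 1 ≤ 0 ∨ (-2) * A3 + m22_3 + m33_3 + 1 ≤ 0 := by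
    have h := C.p22_33A
    omega
  have d_tzmp : A1 - A2 + n2 ≤ 0 ∨ -A2 + A3 - 1 ≤ 0 ∨ -B1 + B2 ≤ 0 ∨ B2 - B3 + n3 - 1 ≤ 0 := by
    have h := C.tzmp
    omega
  have d_tzpm : -A1 + A2 ≤ 0 ∨ A2 - A3 + n3 - 1 ≤ 0 ∨ B1 - B2 + n2 ≤ 0 ∨ -B2 + B3 - 1 ≤ 0 ∨ (-A2 + B2 + 1 ≤ 0 ∧ -A3 + B3 - 1 ≤ 0) := by
    have h := C.tzpm
    omega
  rcases d_f13_2 with ⟨x1_0_0, x1_0_1⟩ | ⟨x1_1_0, x1_1_1⟩
  · rcases d_f33_8 with ⟨x2_0_0, x2_0_1⟩ | ⟨x2_1_0, x2_1_1⟩
    · linarith only [C.f22_4, C.f22_6, C.f23_5, C.f23_9, C.f33_7, C.o2, s2, s3, x2_0_1]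
    · rcases d_t12 with ⟨x3_0_0, x3_0_1⟩ | ⟨x3_1_0, x3_1_1⟩
      · rcases d_t23 with ⟨x4_0_0, x4_0_1⟩ | ⟨x4_1_0, x4_1_1⟩
        · rcases d_f13_5 with ⟨x5_0_0, x5_0_1⟩ | ⟨x5_1_0, x5_1_1⟩
          · rcases d_f13_8 with ⟨x6_0_0, x6_0_1⟩ | ⟨x6_1_0, x6_1_1⟩
            · linarith only [C.b3, C.f13_7, C.f22_4, C.f22_6, C.f23_5, C.f23_8, C.f33_7, C.o0, s3, x1_0_1, x3_0_1, x5_0_1, x6_0_1]
            · rcases d_f22_5 with ⟨x7_0_0, x7_0_1⟩ | ⟨x7_1_0, x7_1_1⟩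
              · rcases d_f22_2 with ⟨x8_0_0, x8_0_1⟩ | ⟨x8_1_0, x8_1_1⟩
                · linarith only [C.f22_4, C.f23_5, C.f33_0, C.f33_3, s2, x7_0_1, x8_0_1]
                · linarith only [C.f22_4, x3_0_1, x4_0_0, x7_0_1, x8_1_1]
              · rcases d_f23_3 with ⟨x9_0_0, x9_0_1⟩ | ⟨x9_1_0, x9_1_1⟩ | ⟨x9_2_0, x9_2_1⟩
                · rcases d_f22_2 with ⟨x10_0_0, x10_0_1⟩ | ⟨x10_1_0, x10_1_1⟩
                  · rcases d_p13_22B with x11_0_0 | x11_1_0 | x11_2_0 | x11_3_0 | x11_4_0 | x11_5_0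
                    · linarith only [C.b0, C.o0, x11_0_0]
                    · linarith only [C.a4, C.b0, C.o0, C.o2, x11_1_0, x4_0_0]
                    · linarith only [C.b0, C.f22_1, C.f23_0, C.f33_0, C.o0, s1, x10_0_1, x11_2_0]
                    · linarith only [C.f23_0, C.f33_0, C.o0, s1, x10_0_1, x11_3_0, x1_0_1]
                    · rcases d_p22_33A with x12_0_0 | x12_1_0 | x12_2_0 | x12_3_0 | x12_4_0
                      · linarith only [C.b0, C.f22_1, C.f23_5, C.f33_0, C.f33_3, C.o0, s2, x10_0_1, x11_4_0, x12_0_0, x1_0_1, x5_0_1]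
                      · linarith only [C.b0, C.f23_5, C.f33_4, C.o0, s2, x11_4_0, x12_1_0, x1_0_1, x3_0_1, x4_0_0, x5_0_1]
                      · linarith only [C.f23_5, C.f33_0, C.f33_3, s2, x10_0_1, x11_4_0, x12_2_0, x1_0_1, x5_0_1]
                      · linarith only [C.f23_5, s2, x11_4_0, x12_3_0, x1_0_1, x3_0_1, x5_0_1, x7_1_1]
                      · linarith only [C.f23_9, C.o2, s3, x12_4_0]
                    · linarith only [C.f23_9, C.f33_7, s3, x11_5_0, x6_1_1]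
                  · rcases d_f23_7 with ⟨x13_0_0, x13_0_1⟩ | ⟨x13_1_0, x13_1_1⟩ | ⟨x13_2_0, x13_2_1⟩
                    · linarith only [C.a1, C.f23_5, x13_0_1, x3_0_1, x9_0_1]
                    · rcases d_p22_23B with x14_0_0 | x14_1_0 | x14_2_0 | x14_3_0 | x14_4_0 | x14_5_0
                      · linarith only [e0, x14_0_0]
                      · linarith only [C.b0, C.o0, x14_1_0, x4_0_0]
                      · linarith only [C.a4, C.b0, C.o0, C.o2, x14_2_0, x4_0_0]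
                      · linarith only [C.b2, C.f33_0, C.o0, s1, x10_1_1, x14_3_0, x9_0_1]
                      · rcases d_tzmp with x15_0_0 | x15_1_0 | x15_2_0 | x15_3_0
                        · linarith only [x15_0_0, x3_0_1]
                        · linarith only [C.f33_4, s2, x14_4_0, x15_1_0]
                        · linarith only [C.o0, x13_1_1, x14_4_0, x15_2_0, x4_0_0, x7_1_1]
                        · linarith only [C.f22_4, C.f22_6, C.f23_9, C.f33_7, s3, x15_3_0]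
                      · linarith only [C.f33_7, s3, x14_5_0]
                    · linarith only [C.f13_4, C.f23_5, x13_2_1, x1_0_1, x3_0_1, x5_0_1]
                · rcases d_f22_2 with ⟨x16_0_0, x16_0_1⟩ | ⟨x16_1_0, x16_1_1⟩
                  · rcases d_tzmp with x17_0_0 | x17_1_0 | x17_2_0 | x17_3_0
                    · linarith only [C.b3, C.f22_1, C.f23_0, C.o0, x16_0_1, x17_0_0, x9_1_1]
                    · linarith only [C.f22_1, C.f22_4, C.f23_0, C.f23_5, C.f33_4, s2, x16_0_1, x17_1_0, x9_1_1]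
                    · linarith only [C.f22_1, C.f23_0, C.f33_0, C.o0, s1, x16_0_1, x17_2_0]
                    · linarith only [C.f22_4, C.f22_6, C.f23_9, C.f33_7, s3, x17_3_0]
                  · rcases d_f23_7 with ⟨x18_0_0, x18_0_1⟩ | ⟨x18_1_0, x18_1_1⟩ | ⟨x18_2_0, x18_2_1⟩
                    · linarith only [C.f23_5, x18_0_1, x3_0_1, x4_0_0, x9_1_1]
                    · rcases d_p22_23B with x19_0_0 | x19_1_0 | x19_2_0 | x19_3_0 | x19_4_0 | x19_5_0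
                      · linarith only [e0, x19_0_0]
                      · linarith only [C.b0, C.o0, x19_1_0, x4_0_0]
                      · linarith only [C.a4, C.b0, C.o0, C.o2, x19_2_0, x4_0_0]
                      · linarith only [C.b2, C.o0, x16_1_1, x19_3_0, x4_0_0, x9_1_1]
                      · rcases d_tzmp with x20_0_0 | x20_1_0 | x20_2_0 | x20_3_0
                        · linarith only [x20_0_0, x3_0_1]
                        · linarith only [C.f33_4, s2, x19_4_0, x20_1_0]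
                        · linarith only [C.o0, x18_1_1, x19_4_0, x20_2_0, x4_0_0, x7_1_1]
                        · linarith only [C.f22_4, C.f22_6, C.f23_9, C.f33_7, s3, x20_3_0]
                      · linarith only [C.f33_7, s3, x19_5_0]
                    · linarith only [C.f13_4, C.f23_5, x18_2_1, x1_0_1, x3_0_1, x5_0_1]
                · linarith only [C.a4, C.f23_1, C.o2, x9_2_1]
          · rcases d_f13_8 with ⟨x21_0_0, x21_0_1⟩ | ⟨x21_1_0, x21_1_1⟩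
            · linarith only [C.a4, C.f13_7, C.f22_4, C.f22_6, C.f23_5, C.f23_8, C.f33_4, C.f33_6, C.o2, s2, s3, x21_0_1, x5_1_1]
            · rcases d_p13_22B with x22_0_0 | x22_1_0 | x22_2_0 | x22_3_0 | x22_4_0 | x22_5_0
              · linarith only [C.b0, C.o0, x22_0_0]
              · linarith only [C.a4, C.b0, C.o0, C.o2, x22_1_0, x4_0_0]
              · linarith only [e0, x22_2_0]
              · rcases d_f22_2 with ⟨x23_0_0, x23_0_1⟩ | ⟨x23_1_0, x23_1_1⟩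
                · linarith only [C.f23_0, C.f33_0, C.o0, s1, x1_0_1, x22_3_0, x23_0_1]
                · rcases d_p11_23B with x24_0_0 | x24_1_0 | x24_2_0 | x24_3_0 | x24_4_0 | x24_5_0
                  · linarith only [C.o0, e0, x1_0_1, x22_3_0, x23_1_1, x24_0_0]
                  · linarith only [C.b0, C.o0, x24_1_0, x4_0_0]
                  · linarith only [C.a4, C.b0, C.o0, C.o2, x24_2_0, x4_0_0]
                  · rcases d_f23_3 with ⟨x25_0_0, x25_0_1⟩ | ⟨x25_1_0, x25_1_1⟩ | ⟨x25_2_0, x25_2_1⟩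
                    · linarith only [C.f11_0, C.f33_0, C.o0, s1, x1_0_1, x22_3_0, x24_3_0, x25_0_1]
                    · linarith only [C.f11_0, C.o0, x24_3_0, x25_1_1, x4_0_0]
                    · linarith only [C.f11_0, C.f22_1, C.f22_4, C.f23_5, C.f33_1, C.f33_4, C.o0, C.o2, s1, s2, x24_3_0, x25_2_1]
                  · linarith only [C.f11_0, C.f11_1, C.f13_0, C.f13_3, C.f22_4, C.f33_4, C.o1, C.o2, s2, x22_3_0, x23_1_1, x24_4_0, x4_0_0, x5_1_1]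
                  · linarith only [C.f11_0, C.f11_1, C.f11_2, C.f13_3, C.f22_4, C.f22_6, C.f23_5, C.f33_4, C.f33_7, C.o2, s2, s3, x22_3_0, x23_1_1, x24_5_0, x3_0_1, x4_0_0, x5_1_1]
              · linarith only [C.f23_5, C.f33_4, C.o2, s2, x22_4_0, x5_1_1]
              · linarith only [C.f23_9, C.f33_7, s3, x21_1_1, x22_5_0]
        · rcases d_tzmp with x26_0_0 | x26_1_0 | x26_2_0 | x26_3_0
          · linarith only [x26_0_0, x3_0_1]
          · rcases d_p22_23B with x27_0_0 | x27_1_0 | x27_2_0 | x27_3_0 | x27_4_0 | x27_5_0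
            · linarith only [e0, x27_0_0]
            · linarith only [C.b0, C.f22_1, C.f22_4, C.f23_1, C.f23_5, C.f33_1, C.f33_4, C.o0, s1, s2, x26_1_0, x27_1_0]
            · linarith only [C.a2, C.a4, C.b0, C.o0, C.o2, x27_2_0]
            · rcases d_tzpm with x28_0_0 | x28_1_0 | x28_2_0 | x28_3_0 | ⟨x28_4_0, x28_4_1⟩
              · linarith only [C.f33_1, s1, x26_1_0, x27_3_0, x28_0_0]
              · linarith only [C.f22_4, C.f22_6, C.f23_5, C.f23_8, C.f33_4, C.f33_7, C.o2, s2, s3, x26_1_0, x28_1_0]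
              · linarith only [C.f22_3, C.f23_4, C.f33_4, s2, x26_1_0, x27_3_0, x28_2_0]
              · linarith only [C.f22_4, C.f23_5, C.f33_4, C.o2, s2, x28_3_0]
              · rcases d_f22_2 with ⟨x29_0_0, x29_0_1⟩ | ⟨x29_1_0, x29_1_1⟩
                · rcases d_f23_3 with ⟨x30_0_0, x30_0_1⟩ | ⟨x30_1_0, x30_1_1⟩ | ⟨x30_2_0, x30_2_1⟩
                  · linarith only [C.a1, C.o0, x27_3_0, x29_0_1, x30_0_1]
                  · linarith only [C.a1, C.f22_1, C.o0, x27_3_0, x28_4_0, x29_0_1, x30_1_1]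
                  · linarith only [C.a1, C.f33_1, C.o0, C.o2, s1, x27_3_0, x29_0_1, x30_2_1]
                · rcases d_f23_3 with ⟨x31_0_0, x31_0_1⟩ | ⟨x31_1_0, x31_1_1⟩ | ⟨x31_2_0, x31_2_1⟩
                  · linarith only [C.a1, C.o0, x27_3_0, x29_1_1, x31_0_1, x4_1_0]
                  · linarith only [x27_3_0, x28_4_0, x29_1_1, x31_1_1, x4_1_0]
                  · linarith only [C.f33_1, C.o0, C.o2, s1, x27_3_0, x29_1_1, x31_2_1, x4_1_0]
            · linarith only [C.f33_4, s2, x26_1_0, x27_4_0]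
            · linarith only [C.f33_7, s3, x27_5_0]
          · linarith only [x26_2_0, x4_1_0]
          · linarith only [C.f22_4, C.f22_6, C.f23_9, C.f33_7, s3, x26_3_0]
      · rcases d_f13_5 with ⟨x32_0_0, x32_0_1⟩ | ⟨x32_1_0, x32_1_1⟩
        · rcases d_f13_8 with ⟨x33_0_0, x33_0_1⟩ | ⟨x33_1_0, x33_1_1⟩
          · linarith only [C.a3, C.f13_7, C.f22_4, C.f22_6, C.f23_5, C.f23_8, C.f33_7, C.o0, s3, x1_0_1, x32_0_1, x33_0_1, x3_1_1]
          · rcases d_f22_5 with ⟨x34_0_0, x34_0_1⟩ | ⟨x34_1_0, x34_1_1⟩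
            · rcases d_f22_2 with ⟨x35_0_0, x35_0_1⟩ | ⟨x35_1_0, x35_1_1⟩
              · linarith only [C.a1, C.f22_4, C.o0, x34_0_1, x35_0_1, x3_1_1]
              · linarith only [C.b2, C.f22_4, x34_0_1, x35_1_1, x3_1_1]
            · rcases d_p11_23B with x36_0_0 | x36_1_0 | x36_2_0 | x36_3_0 | x36_4_0 | x36_5_0
              · linarith only [x36_0_0, x3_1_0]
              · linarith only [C.a2, C.o0, x36_1_0, x3_1_0]
              · linarith only [C.a4, C.f22_1, C.f23_1, C.f33_1, C.o0, C.o1, C.o2, s1, x36_2_0, x3_1_0]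
              · rcases d_f23_3 with ⟨x37_0_0, x37_0_1⟩ | ⟨x37_1_0, x37_1_1⟩ | ⟨x37_2_0, x37_2_1⟩
                · linarith only [C.f11_0, C.f22_0, C.f33_0, C.o0, s1, x36_3_0, x37_0_1]
                · rcases d_t23 with ⟨x38_0_0, x38_0_1⟩ | ⟨x38_1_0, x38_1_1⟩
                  · linarith only [C.f11_0, C.o0, x36_3_0, x37_1_1, x38_0_0]
                  · rcases d_tzmp with x39_0_0 | x39_1_0 | x39_2_0 | x39_3_0
                    · linarith only [C.f11_0, C.o0, x36_3_0, x37_1_1, x38_1_0, x39_0_0, x3_1_1]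
                    · linarith only [C.f11_0, C.f22_4, C.f23_5, C.f33_4, s2, x36_3_0, x37_1_1, x38_1_0, x39_1_0]
                    · linarith only [x38_1_0, x39_2_0]
                    · linarith only [C.f22_4, C.f22_6, C.f23_9, C.f33_7, s3, x39_3_0]
                · linarith only [C.f11_0, C.f13_4, C.f22_1, C.f22_4, C.f23_4, C.f33_1, C.f33_3, C.o0, C.o1, C.o2, s1, s2, x1_0_1, x32_0_1, x36_3_0, x37_2_1]
              · rcases d_p11_33B with x40_0_0 | x40_1_0 | x40_2_0 | x40_3_0 | x40_4_0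
                · linarith only [x3_1_0, x40_0_0]
                · linarith only [C.a4, C.f22_1, C.f23_1, C.f33_1, C.o0, C.o1, s1, x3_1_0, x40_1_0]
                · linarith only [C.f11_0, C.f11_1, C.f22_4, C.f33_3, C.o1, s2, x36_4_0, x40_2_0]
                · linarith only [C.f11_0, C.f11_1, C.f22_4, C.o1, s2, x36_4_0, x3_1_1, x40_3_0]
                · rcases d_p13_22B with x41_0_0 | x41_1_0 | x41_2_0 | x41_3_0 | x41_4_0 | x41_5_0
                  · linarith only [C.o0, x3_1_0, x41_0_0]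
                  · linarith only [C.a2, C.a4, C.o0, C.o2, x3_1_0, x41_1_0]
                  · linarith only [C.b2, x3_1_0, x41_2_0]
                  · rcases d_f22_2 with ⟨x42_0_0, x42_0_1⟩ | ⟨x42_1_0, x42_1_1⟩
                    · linarith only [C.a1, C.o0, x1_0_1, x41_3_0, x42_0_1]
                    · rcases d_p13_33A with x43_0_0 | x43_1_0 | x43_2_0 | x43_3_0 | x43_4_0 | x43_5_0
                      · linarith only [C.o0, x3_1_0, x43_0_0]
                      · linarith only [C.a2, C.a4, C.o0, C.o2, x3_1_0, x43_1_0]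
                      · linarith only [C.a4, C.f23_1, C.f33_1, C.o0, s1, x1_0_1, x3_1_0, x41_3_0, x43_2_0]
                      · linarith only [C.f11_0, C.f11_1, C.f22_4, C.f23_1, C.f33_3, C.o0, s1, s2, x1_0_1, x36_4_0, x41_3_0, x42_1_1, x43_3_0]
                      · linarith only [C.a3, C.f11_0, C.f11_1, C.f22_4, s2, x1_0_1, x32_0_1, x36_4_0, x3_1_1, x43_4_0]
                      · linarith only [C.f11_0, C.f11_1, C.f11_2, C.f22_4, C.f22_6, C.f23_9, s3, x2_1_1, x33_1_1, x3_1_1, x40_4_0, x43_5_0]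
                  · linarith only [C.o0, x1_0_1, x32_0_1, x34_1_1, x3_1_1, x41_4_0]
                  · linarith only [C.f23_9, C.f33_7, s3, x33_1_1, x41_5_0]
              · linarith only [C.f11_0, C.f11_1, C.f11_2, C.f22_4, C.f22_6, C.f33_7, s3, x36_5_0, x3_1_1]
        · rcases d_f13_8 with ⟨x44_0_0, x44_0_1⟩ | ⟨x44_1_0, x44_1_1⟩
          · linarith only [C.a4, C.f13_7, C.f22_4, C.f22_6, C.f23_5, C.f23_8, C.f33_4, C.f33_6, C.o2, s2, s3, x32_1_1, x44_0_1]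
          · rcases d_p11_13B with x45_0_0 | x45_1_0 | x45_2_0 | x45_3_0 | x45_4_0 | x45_5_0
            · linarith only [x3_1_0, x45_0_0]
            · linarith only [C.o0, x3_1_0, x45_1_0]
            · linarith only [C.a4, C.f22_1, C.f23_1, C.f33_1, C.o0, C.o1, C.o2, s1, x3_1_0, x45_2_0]
            · rcases d_p11_22B with x46_0_0 | x46_1_0 | x46_2_0 | x46_3_0 | x46_4_0
              · linarith only [x3_1_0, x46_0_0]
              · linarith only [C.b2, x3_1_0, x46_1_0]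
              · rcases d_p11_23B with x47_0_0 | x47_1_0 | x47_2_0 | x47_3_0 | x47_4_0 | x47_5_0
                · linarith only [x3_1_0, x47_0_0]
                · linarith only [C.a2, C.o0, x3_1_0, x47_1_0]
                · linarith only [C.a4, C.f22_1, C.f23_1, C.f33_1, C.o0, C.o1, C.o2, s1, x3_1_0, x47_2_0]
                · rcases d_p11_33B with x48_0_0 | x48_1_0 | x48_2_0 | x48_3_0 | x48_4_0
                  · linarith only [x3_1_0, x48_0_0]
                  · linarith only [C.a4, C.f11_0, C.f22_1, C.f33_1, C.o0, C.o1, s1, x3_1_0, x47_3_0, x48_1_0]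
                  · linarith only [C.f11_0, C.o0, s1, x46_2_0, x47_3_0, x48_2_0]
                  · linarith only [C.f11_0, C.f11_1, C.f22_4, C.f23_5, s2, x3_1_1, x48_3_0]
                  · linarith only [C.f11_0, C.f11_1, C.f11_2, C.f13_3, C.f22_4, C.f22_6, C.f23_5, C.f23_9, C.f33_4, s2, s3, x32_1_1, x45_3_0, x48_4_0]
                · linarith only [C.f11_0, C.f11_1, C.f13_3, C.f22_4, C.f33_4, C.o1, C.o2, s2, x32_1_1, x45_3_0, x47_4_0]
                · linarith only [C.f11_0, C.f11_1, C.f11_2, C.f22_4, C.f22_6, C.f33_7, s3, x3_1_1, x47_5_0]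
              · linarith only [C.f11_0, C.f11_1, C.f13_3, C.f23_5, C.f33_4, C.o2, s2, x32_1_1, x45_3_0, x46_3_0]
              · linarith only [C.f11_0, C.f11_1, C.f11_2, C.f22_4, C.f22_6, C.f23_9, C.f33_7, s3, x3_1_1, x46_4_0]
            · linarith only [C.f11_0, C.f11_1, C.f22_4, C.f23_5, C.f33_4, C.o2, s2, x32_1_1, x3_1_1, x45_4_0]
            · linarith only [C.f11_0, C.f11_1, C.f11_2, C.f22_4, C.f22_6, C.f23_9, C.f33_7, s3, x3_1_1, x44_1_1, x45_5_0]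
  · linarith only [C.a2, C.a4, C.f13_0, C.o2, x1_1_1]

theorem c0_22_23_33_k2 {n1 n2 n3 A1 A2 A3 B1 B2 B3 m11_1 m11_2 m11_3 m13_1 m13_2 m13_3 m22_1 m22_2 m22_3 m23_1 m23_2 m23_3 m33_1 m33_2 m33_3 : ℤ}
    (C : Ctx0 n1 n2 n3 A1 A2 A3 B1 B2 B3 m11_1 m11_2 m11_3 m13_1 m13_2 m13_3 m22_1 m22_2 m22_3 m23_1 m23_2 m23_3 m33_1 m33_2 m33_3)
    (e0 : 0 < B2)
    (e1 : 0 < A2)
    (e2 : 0 < B3)
    (e3 : 0 < A3)
    (s1 : 2 * A1 + 1 * B1 ≤ m22_1 + m23_1 + m33_1)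
    (s2 : 2 * A2 + 1 * B2 ≤ m22_2 + m23_2 + m33_2)
    (s3 : 2 * A3 + 1 * B3 ≤ m22_3 + m23_3 + m33_3) : False := by
  have d_t12 : (-A1 + 1 ≤ 0 ∧ -A1 + A2 - n2 + 1 ≤ 0) ∨ (-B1 + 1 ≤ 0 ∧ -B1 + B2 - n2 + 1 ≤ 0) := by
    have h := C.t12
    omega
  have d_t23 : (A1 - A2 + 1 ≤ 0 ∧ -A2 + A3 - n3 + 1 ≤ 0) ∨ (B1 - B2 + 1 ≤ 0 ∧ -B2 + B3 - n3 + 1 ≤ 0) := by
    have h := C.t23
    omega
  have d_f13_2 : (-A1 + m13_1 + 1 ≤ 0 ∧ A1 - m13_1 - 1 ≤ 0) ∨ (-B3 + m13_1 + 1 ≤ 0 ∧ B3 - m13_1 - 1 ≤ 0) := by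
    have h := C.f13_2
    omega
  have d_f13_5 : (-m13_1 + m13_2 - n2 ≤ 0 ∧ m13_1 - m13_2 + n2 ≤ 0) ∨ (-B3 + m13_2 + 1 ≤ 0 ∧ B3 - m13_2 - 1 ≤ 0) := by
    have h := C.f13_5
    omega
  have d_f13_8 : (-m13_2 + m13_3 - n3 ≤ 0 ∧ m13_2 - m13_3 + n3 ≤ 0) ∨ (-B3 + m13_3 + 1 ≤ 0 ∧ B3 - m13_3 - 1 ≤ 0) := by
    have h := C.f13_8
    omega
  have d_f22_2 : (m22_1 - n1 ≤ 0 ∧ -m22_1 + n1 ≤ 0) ∨ (-B2 + m22_1 + 1 ≤ 0 ∧ B2 - m22_1 - 1 ≤ 0) := by
    have h := C.f22_2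
    omega
  have d_f22_5 : (-m22_1 + m22_2 - n2 ≤ 0 ∧ m22_1 - m22_2 + n2 ≤ 0) ∨ (-B2 + m22_2 + 1 ≤ 0 ∧ B2 - m22_2 - 1 ≤ 0) := by
    have h := C.f22_5
    omega
  have d_f23_3 : (m23_1 - n1 ≤ 0 ∧ -m23_1 + n1 ≤ 0) ∨ (-A2 + m23_1 + 1 ≤ 0 ∧ A2 - m23_1 - 1 ≤ 0) ∨ (-B3 + m23_1 + 1 ≤ 0 ∧ B3 - m23_1 - 1 ≤ 0) := by
    have h := C.f23_3
    omega
  have d_f23_7 : (-m23_1 + m23_2 - n2 ≤ 0 ∧ m23_1 - m23_2 + n2 ≤ 0) ∨ (-A2 + m23_2 + 1 ≤ 0 ∧ A2 - m23_2 - 1 ≤ 0) ∨ (-B3 + m23_2 + 1 ≤ 0 ∧ B3 - m23_2 - 1 ≤ 0) := by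
    have h := C.f23_7
    omega
  have d_f23_10 : (-m23_2 + m23_3 - n3 ≤ 0 ∧ m23_2 - m23_3 + n3 ≤ 0) ∨ (-B3 + m23_3 + 1 ≤ 0 ∧ B3 - m23_3 - 1 ≤ 0) := by
    have h := C.f23_10
    omega
  have d_f33_2 : (m33_1 - n1 ≤ 0 ∧ -m33_1 + n1 ≤ 0) ∨ (-A3 + m33_1 + 1 ≤ 0 ∧ A3 - m33_1 - 1 ≤ 0) := by
    have h := C.f33_2
    omega
  have d_f33_8 : (-m33_2 + m33_3 - n3 ≤ 0 ∧ m33_2 - m33_3 + n3 ≤ 0) ∨ (-A3 + m33_3 + 1 ≤ 0 ∧ A3 - m33_3 - 1 ≤ 0) := by
    have h := C.f33_8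
    omega
  have d_p11_23B : B1 ≤ 0 ∨ A2 ≤ 0 ∨ B3 ≤ 0 ∨ (-2) * B1 + m11_1 + m23_1 + 1 ≤ 0 ∨ (-2) * B2 + m11_2 + m23_2 + 1 ≤ 0 ∨ (-2) * B3 + m11_3 + m23_3 + 1 ≤ 0 := by
    have h := C.p11_23B
    omega
  have d_p11_33A : B1 ≤ 0 ∨ A3 ≤ 0 ∨ (-2) * A1 + m11_1 + m33_1 + 1 ≤ 0 ∨ (-2) * A2 + m11_2 + m33_2 + 1 ≤ 0 ∨ (-2) * A3 + m11_3 + m33_3 + 1 ≤ 0 := by
    have h := C.p11_33A
    omega
  have d_p11_33B : B1 ≤ 0 ∨ A3 ≤ 0 ∨ (-2) * B1 + m11_1 + m33_1 + 1 ≤ 0 ∨ (-2) * B2 + m11_2 + m33_2 + 1 ≤ 0 ∨ (-2) * B3 + m11_3 + m33_3 + 1 ≤ 0 := by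
    have h := C.p11_33B
    omega
  have d_p13_22B : A1 ≤ 0 ∨ B3 ≤ 0 ∨ B2 ≤ 0 ∨ (-2) * B1 + m13_1 + m22_1 + 1 ≤ 0 ∨ (-2) * B2 + m13_2 + m22_2 + 1 ≤ 0 ∨ (-2) * B3 + m13_3 + m22_3 + 1 ≤ 0 := by
    have h := C.p13_22B
    omega
  have d_p13_33A : A1 ≤ 0 ∨ B3 ≤ 0 ∨ A3 ≤ 0 ∨ (-2) * A1 + m13_1 + m33_1 + 1 ≤ 0 ∨ (-2) * A2 + m13_2 + m33_2 + 1 ≤ 0 ∨ (-2) * A3 + m13_3 + m33_3 + 1 ≤ 0 := by
    have h := C.p13_33A
    omega
  have d_p22_23B : B2 ≤ 0 ∨ A2 ≤ 0 ∨ B3 ≤ 0 ∨ (-2) * B1 + m22_1 + m23_1 + 1 ≤ 0 ∨ (-2) * B2 + m22_2 + m23_2 + 1 ≤ 0 ∨ (-2) * B3 + m22_3 + m23_3 + 1 ≤ 0 := by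
    have h := C.p22_23B
    omega
  have d_p22_33A : B2 ≤ 0 ∨ A3 ≤ 0 ∨ (-2) * A1 + m22_1 + m33_1 + 1 ≤ 0 ∨ (-2) * A2 + m22_2 + m33_2 + 1 ≤ 0 ∨ (-2) * A3 + m22_3 + m33_3 + 1 ≤ 0 := by
    have h := C.p22_33A
    omega
  have d_p23_33A : A2 ≤ 0 ∨ B3 ≤ 0 ∨ A3 ≤ 0 ∨ (-2) * A1 + m23_1 + m33_1 + 1 ≤ 0 ∨ (-2) * A2 + m23_2 + m33_2 + 1 ≤ 0 ∨ (-2) * A3 + m23_3 + m33_3 + 1 ≤ 0 := by
    have h := C.p23_33A
    omega
  have d_tmzp : -A1 + n1 ≤ 0 ∨ -A1 + A2 ≤ 0 ∨ -A2 + A3 ≤ 0 ∨ B1 ≤ 0 ∨ B1 - B2 + n2 ≤ 0 ∨ B2 - B3 + n3 ≤ 0 := by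
    have h := C.tmzp
    omega
  have d_tzmp : A1 - A2 + n2 ≤ 0 ∨ -A2 + A3 - 1 ≤ 0 ∨ -B1 + B2 ≤ 0 ∨ B2 - B3 + n3 - 1 ≤ 0 := by
    have h := C.tzmp
    omega
  have d_tzpm : -A1 + A2 ≤ 0 ∨ A2 - A3 + n3 - 1 ≤ 0 ∨ B1 - B2 + n2 ≤ 0 ∨ -B2 + B3 - 1 ≤ 0 ∨ (-A2 + B2 + 1 ≤ 0 ∧ -A3 + B3 - 1 ≤ 0) := by
    have h := C.tzpm
    omega
  have d_tpmm : A1 ≤ 0 ∨ A1 - A2 + n2 - 1 ≤ 0 ∨ -B1 + n1 ≤ 0 ∨ -B1 + B2 - 1 ≤ 0 ∨ -A3 + B3 - 1 ≤ 0 := by
    have h := C.tpmm
    omega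
  have d_tpmz : A1 ≤ 0 ∨ A1 - A2 + n2 - 1 ≤ 0 ∨ -A2 + A3 ≤ 0 ∨ -B1 + n1 ≤ 0 ∨ -B1 + B2 - 1 ≤ 0 ∨ B2 - B3 + n3 ≤ 0 := by
    have h := C.tpmz
    omega
  rcases d_f13_2 with ⟨x1_0_0, x1_0_1⟩ | ⟨x1_1_0, x1_1_1⟩
  · rcases d_f33_8 with ⟨x2_0_0, x2_0_1⟩ | ⟨x2_1_0, x2_1_1⟩
    · linarith only [C.f22_4, C.f22_6, C.f23_5, C.f23_8, C.f33_7, C.o1, C.o2, s2, s3, x2_0_1]
    · rcases d_t12 with ⟨x3_0_0, x3_0_1⟩ | ⟨x3_1_0, x3_1_1⟩
      · rcases d_t23 with ⟨x4_0_0, x4_0_1⟩ | ⟨x4_1_0, x4_1_1⟩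
        · rcases d_f13_5 with ⟨x5_0_0, x5_0_1⟩ | ⟨x5_1_0, x5_1_1⟩
          · rcases d_f13_8 with ⟨x6_0_0, x6_0_1⟩ | ⟨x6_1_0, x6_1_1⟩
            · linarith only [C.b3, C.b5, C.f13_7, C.o0, x1_0_1, x5_0_1, x6_0_1]
            · rcases d_f22_5 with ⟨x7_0_0, x7_0_1⟩ | ⟨x7_1_0, x7_1_1⟩
              · rcases d_f22_2 with ⟨x8_0_0, x8_0_1⟩ | ⟨x8_1_0, x8_1_1⟩
                · linarith only [C.f22_4, C.f23_5, C.f33_0, C.f33_3, C.o1, s2, x7_0_1, x8_0_1]
                · linarith only [C.f22_4, x3_0_1, x4_0_0, x7_0_1, x8_1_1]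
              · rcases d_f23_3 with ⟨x9_0_0, x9_0_1⟩ | ⟨x9_1_0, x9_1_1⟩ | ⟨x9_2_0, x9_2_1⟩
                · rcases d_p23_33A with x10_0_0 | x10_1_0 | x10_2_0 | x10_3_0 | x10_4_0 | x10_5_0
                  · linarith only [C.b0, C.o0, x10_0_0, x4_0_0]
                  · linarith only [C.b0, C.f22_4, C.f23_6, C.f33_4, C.o0, C.o2, s2, x10_1_0, x4_0_0]
                  · linarith only [C.b0, C.f22_4, C.f23_5, C.f33_4, C.o0, s2, x10_2_0, x4_0_0]
                  · rcases d_f33_2 with ⟨x11_0_0, x11_0_1⟩ | ⟨x11_1_0, x11_1_1⟩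
                    · linarith only [C.a1, x10_3_0, x11_0_1, x9_0_1]
                    · linarith only [C.f22_4, C.f23_5, C.f33_0, C.f33_4, s2, x10_3_0, x11_1_1, x4_0_0, x9_0_1]
                  · linarith only [C.f22_4, s2, x10_4_0]
                  · rcases d_tzmp with x12_0_0 | x12_1_0 | x12_2_0 | x12_3_0
                    · linarith only [x12_0_0, x3_0_1]
                    · linarith only [C.f22_4, C.f23_5, C.f33_4, s2, x12_1_0]
                    · rcases d_tmzp with x13_0_0 | x13_1_0 | x13_2_0 | x13_3_0 | x13_4_0 | x13_5_0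
                      · linarith only [C.f22_1, C.f23_0, C.f33_0, s1, x12_2_0, x13_0_0]
                      · linarith only [C.f22_1, C.f23_1, C.f33_0, s1, x12_2_0, x13_1_0, x9_0_1]
                      · linarith only [C.f22_4, C.f23_5, C.f33_4, s2, x13_2_0]
                      · linarith only [e0, x12_2_0, x13_3_0]
                      · linarith only [C.f22_4, C.f23_1, C.f23_5, C.f33_0, C.f33_3, s2, x12_2_0, x13_4_0, x9_0_1]
                      · linarith only [C.f22_4, C.f22_6, s3, x10_5_0, x13_5_0]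
                    · linarith only [C.f22_4, C.f22_6, s3, x10_5_0, x12_3_0]
                · rcases d_f22_2 with ⟨x14_0_0, x14_0_1⟩ | ⟨x14_1_0, x14_1_1⟩
                  · rcases d_f33_2 with ⟨x15_0_0, x15_0_1⟩ | ⟨x15_1_0, x15_1_1⟩
                    · rcases d_p22_33A with x16_0_0 | x16_1_0 | x16_2_0 | x16_3_0 | x16_4_0
                      · linarith only [C.b0, C.f22_1, C.f23_0, C.f33_0, C.o0, s1, x14_0_1, x16_0_0]
                      · linarith only [C.a4, C.b0, C.o0, x16_1_0, x4_0_0]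
                      · linarith only [C.f23_0, x14_0_1, x15_0_1, x16_2_0, x4_0_0, x9_1_1]
                      · linarith only [C.f22_1, C.f23_0, C.f23_5, s2, x14_0_1, x16_3_0, x9_1_1]
                      · linarith only [C.f23_9, s3, x16_4_0]
                    · linarith only [C.f22_1, C.f22_4, C.f23_5, C.f33_0, C.f33_4, C.o1, s2, x14_0_1, x15_1_1]
                  · rcases d_p22_23B with x17_0_0 | x17_1_0 | x17_2_0 | x17_3_0 | x17_4_0 | x17_5_0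
                    · linarith only [e0, x17_0_0]
                    · linarith only [C.b0, C.o0, x17_1_0, x4_0_0]
                    · linarith only [C.b0, C.b4, C.f23_2, C.f33_1, C.o0, C.o2, s1, x14_1_0, x17_2_0]
                    · linarith only [C.b2, C.o0, x14_1_1, x17_3_0, x4_0_0, x9_1_1]
                    · rcases d_p23_33A with x18_0_0 | x18_1_0 | x18_2_0 | x18_3_0 | x18_4_0 | x18_5_0
                      · linarith only [C.b0, C.o0, x18_0_0, x4_0_0]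
                      · linarith only [C.b0, C.f13_4, C.f33_1, C.f33_3, C.o0, C.o1, C.o2, s2, x17_4_0, x18_1_0, x1_0_1, x4_0_0, x5_0_1]
                      · linarith only [C.b0, C.f22_4, C.f23_5, C.f33_4, C.o0, s2, x18_2_0, x4_0_0]
                      · rcases d_f33_2 with ⟨x19_0_0, x19_0_1⟩ | ⟨x19_1_0, x19_1_1⟩
                        · linarith only [C.f23_0, x18_3_0, x19_0_1, x4_0_0, x9_1_1]
                        · linarith only [C.f22_4, C.f23_5, C.f33_4, s2, x18_3_0, x19_1_1, x4_0_0, x9_1_1]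
                      · linarith only [C.f22_4, s2, x18_4_0]
                      · rcases d_tzmp with x20_0_0 | x20_1_0 | x20_2_0 | x20_3_0
                        · linarith only [x20_0_0, x3_0_1]
                        · linarith only [C.f22_4, C.f23_5, C.f33_4, s2, x20_1_0]
                        · rcases d_f23_7 with ⟨x21_0_0, x21_0_1⟩ | ⟨x21_1_0, x21_1_1⟩ | ⟨x21_2_0, x21_2_1⟩
                          · linarith only [C.o0, x17_4_0, x20_2_0, x21_0_1, x3_0_1, x4_0_0, x7_1_1, x9_1_1]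
                          · linarith only [C.o0, x17_4_0, x20_2_0, x21_1_1, x4_0_0, x7_1_1]
                          · linarith only [C.f33_4, C.o0, C.o2, s2, x17_4_0, x20_2_0, x21_2_1, x4_0_0, x7_1_1]
                        · linarith only [C.f22_4, C.f22_6, s3, x18_5_0, x20_3_0]
                    · rcases d_p13_33A with x22_0_0 | x22_1_0 | x22_2_0 | x22_3_0 | x22_4_0 | x22_5_0
                      · linarith only [x22_0_0, x3_0_0]
                      · linarith only [C.f33_7, e3, s3, x17_5_0, x22_1_0]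
                      · linarith only [C.b0, C.f22_4, C.f23_5, C.f33_4, C.o0, s2, x22_2_0, x4_0_0]
                      · rcases d_tzpm with x23_0_0 | x23_1_0 | x23_2_0 | x23_3_0 | ⟨x23_4_0, x23_4_1⟩
                        · linarith only [x23_0_0, x4_0_0]
                        · linarith only [C.f22_4, C.f22_6, C.f23_9, C.f33_7, C.o1, s3, x23_1_0]
                        · rcases d_tpmm with x24_0_0 | x24_1_0 | x24_2_0 | x24_3_0 | x24_4_0
                          · linarith only [x24_0_0, x3_0_0]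
                          · linarith only [C.f22_4, C.f23_5, C.f33_3, s2, x1_0_1, x22_3_0, x24_1_0]
                          · linarith only [C.f22_0, C.f23_0, C.f33_0, C.o0, s1, x24_2_0]
                          · linarith only [C.f22_4, C.f23_5, C.f33_3, s2, x1_0_1, x22_3_0, x23_2_0, x24_3_0, x4_0_0]
                          · linarith only [C.f33_7, s3, x17_5_0, x24_4_0]
                        · linarith only [C.f22_4, C.f23_5, C.f33_4, C.f33_7, C.o1, s2, s3, x17_5_0, x23_3_0]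
                        · linarith only [C.f33_7, s3, x17_5_0, x23_4_1]
                      · linarith only [C.f22_4, C.f23_5, s2, x1_0_1, x22_4_0, x3_0_1, x5_0_1]
                      · linarith only [s3, x17_5_0, x22_5_0, x6_1_1]
                · linarith only [C.f22_4, C.f23_1, C.f23_6, C.f33_4, C.o2, s2, x9_2_1]
          · rcases d_f13_8 with ⟨x25_0_0, x25_0_1⟩ | ⟨x25_1_0, x25_1_1⟩
            · linarith only [C.b5, C.f13_7, C.f22_4, C.f22_6, C.f23_6, C.f23_8, C.f33_4, C.f33_6, C.o1, s2, s3, x25_0_1, x5_1_1]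
            · rcases d_f23_10 with ⟨x26_0_0, x26_0_1⟩ | ⟨x26_1_0, x26_1_1⟩
              · rcases d_f23_7 with ⟨x27_0_0, x27_0_1⟩ | ⟨x27_1_0, x27_1_1⟩ | ⟨x27_2_0, x27_2_1⟩
                · rcases d_f23_3 with ⟨x28_0_0, x28_0_1⟩ | ⟨x28_1_0, x28_1_1⟩ | ⟨x28_2_0, x28_2_1⟩
                  · linarith only [C.b3, C.f13_0, C.f13_3, C.f22_0, C.f22_4, C.f22_6, C.f23_5, C.f23_9, C.f33_0, C.f33_4, C.f33_7, C.o2, s1, s2, s3, x26_0_1, x27_0_1, x28_0_1, x5_1_1]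
                  · linarith only [C.f13_0, C.f13_3, C.f22_4, C.f23_5, C.f33_4, C.o2, s2, x27_0_1, x28_1_1, x4_0_0, x5_1_1]
                  · linarith only [C.f13_0, C.f13_3, C.f22_4, C.f23_5, C.f33_4, C.o2, s2, x27_0_1, x28_2_1, x4_0_0, x5_1_1]
                · rcases d_tpmm with x29_0_0 | x29_1_0 | x29_2_0 | x29_3_0 | x29_4_0
                  · linarith only [C.b0, C.o0, x29_0_0]
                  · linarith only [C.f13_0, C.f13_3, C.f22_4, C.f22_6, C.f23_9, C.f33_4, C.f33_7, C.o1, s2, s3, x26_0_1, x29_1_0, x5_1_1]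
                  · linarith only [C.f22_0, C.f23_0, C.f33_0, C.o0, s1, x29_2_0]
                  · linarith only [C.b5, C.f23_9, C.o0, x26_0_1, x27_1_1, x29_3_0, x4_0_0]
                  · linarith only [C.f22_4, C.f22_6, C.f23_9, C.f33_7, C.o1, s3, x26_0_1, x27_1_1, x29_4_0]
                · linarith only [C.b5, C.f22_4, C.f22_6, C.f23_9, C.f33_4, C.f33_7, C.o1, s2, s3, x26_0_1, x27_2_1]
              · rcases d_p13_22B with x30_0_0 | x30_1_0 | x30_2_0 | x30_3_0 | x30_4_0 | x30_5_0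
                · linarith only [C.b0, C.o0, x30_0_0]
                · linarith only [C.b0, C.f22_4, C.f23_6, C.f33_4, C.o0, C.o2, s2, x30_1_0, x4_0_0]
                · linarith only [e0, x30_2_0]
                · rcases d_f22_2 with ⟨x31_0_0, x31_0_1⟩ | ⟨x31_1_0, x31_1_1⟩
                  · linarith only [C.f23_0, C.f33_0, C.o0, s1, x1_0_1, x30_3_0, x31_0_1]
                  · rcases d_p11_33A with x32_0_0 | x32_1_0 | x32_2_0 | x32_3_0 | x32_4_0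
                    · linarith only [e0, x1_0_1, x30_3_0, x31_1_1, x32_0_0, x3_0_0]
                    · linarith only [C.b0, C.f22_4, C.f23_1, C.f23_5, C.f33_1, C.f33_4, C.o0, s1, s2, x1_0_1, x30_3_0, x32_1_0]
                    · rcases d_p11_23B with x33_0_0 | x33_1_0 | x33_2_0 | x33_3_0 | x33_4_0 | x33_5_0
                      · linarith only [e0, x1_0_1, x30_3_0, x31_1_1, x33_0_0, x3_0_0]
                      · linarith only [x33_1_0, x3_0_0, x4_0_0]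
                      · linarith only [C.b0, C.f22_4, C.f23_1, C.f23_6, C.f33_1, C.f33_4, C.o0, C.o2, s1, s2, x1_0_1, x30_3_0, x33_2_0]
                      · linarith only [C.f11_0, C.o0, s1, x1_0_1, x30_3_0, x32_2_0, x33_3_0]
                      · linarith only [C.f11_0, C.f11_1, C.f13_3, C.f22_4, C.f33_4, C.o0, C.o2, s2, x1_0_1, x30_3_0, x31_1_1, x33_4_0, x4_0_0, x5_1_1]
                      · linarith only [C.b5, C.f11_0, C.f11_1, C.f11_2, C.f13_3, C.f22_4, C.f22_6, C.f23_1, C.f23_6, C.f33_1, C.f33_4, C.f33_7, C.o0, s1, s2, s3, x1_0_1, x26_1_1, x30_3_0, x31_1_1, x33_5_0, x5_1_1]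
                    · linarith only [C.b2, C.f11_0, C.f11_1, C.f13_3, C.f22_4, C.f23_5, C.f33_4, C.o2, s2, x30_3_0, x31_1_1, x32_3_0, x5_1_1]
                    · linarith only [C.f11_0, C.f11_1, C.f11_2, C.f13_3, C.f22_4, C.f22_6, C.f23_1, C.f23_6, C.f23_9, C.f33_1, C.f33_3, C.o0, C.o2, s1, s2, s3, x1_0_1, x30_3_0, x31_1_1, x32_4_0, x5_1_1]
                · linarith only [C.f23_5, C.f33_4, C.o1, C.o2, s2, x30_4_0, x5_1_1]
                · rcases d_p23_33A with x34_0_0 | x34_1_0 | x34_2_0 | x34_3_0 | x34_4_0 | x34_5_0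
                  · linarith only [C.b0, C.o0, x34_0_0, x4_0_0]
                  · linarith only [C.b0, C.f22_6, C.f23_6, C.f23_8, C.f33_4, C.f33_6, C.o0, C.o2, e0, s2, s3, x25_1_1, x30_5_0, x34_1_0, x4_0_0]
                  · linarith only [C.b0, C.f22_4, C.f23_5, C.f33_4, C.o0, s2, x34_2_0, x4_0_0]
                  · rcases d_tpmm with x35_0_0 | x35_1_0 | x35_2_0 | x35_3_0 | x35_4_0
                    · linarith only [C.b0, C.o0, x35_0_0]
                    · linarith only [C.f13_0, C.f13_3, C.f22_4, C.f23_5, C.f23_9, C.f33_4, C.f33_7, s2, s3, x25_1_1, x30_5_0, x35_1_0, x5_1_1]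
                    · linarith only [C.f22_0, C.f23_0, C.f33_0, C.o0, s1, x35_2_0]
                    · linarith only [C.f22_1, s1, x34_3_0, x35_3_0]
                    · linarith only [C.f23_9, C.f33_7, s3, x25_1_1, x30_5_0, x35_4_0]
                  · linarith only [C.f22_4, s2, x34_4_0]
                  · linarith only [s3, x25_1_1, x30_5_0, x34_5_0]
        · rcases d_tzmp with x36_0_0 | x36_1_0 | x36_2_0 | x36_3_0
          · linarith only [x36_0_0, x3_0_1]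
          · linarith only [C.f22_4, C.f23_5, C.f33_4, s2, x36_1_0]
          · linarith only [x36_2_0, x4_1_0]
          · rcases d_p23_33A with x37_0_0 | x37_1_0 | x37_2_0 | x37_3_0 | x37_4_0 | x37_5_0
            · linarith only [C.b0, C.o1, x37_0_0, x4_1_0]
            · linarith only [C.b0, C.f22_1, C.f22_4, C.f23_1, C.f23_6, C.f33_1, C.f33_4, C.o0, C.o1, C.o2, s1, s2, x37_1_0]
            · linarith only [C.b0, C.f22_1, C.f22_4, C.f23_1, C.f23_5, C.f33_1, C.f33_4, C.o0, C.o1, s1, s2, x37_2_0]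
            · rcases d_tpmm with x38_0_0 | x38_1_0 | x38_2_0 | x38_3_0 | x38_4_0
              · linarith only [x38_0_0, x3_0_0]
              · rcases d_f23_3 with ⟨x39_0_0, x39_0_1⟩ | ⟨x39_1_0, x39_1_1⟩ | ⟨x39_2_0, x39_2_1⟩
                · linarith only [C.f22_4, C.f23_5, C.f33_0, C.f33_3, s2, x37_3_0, x38_1_0, x39_0_1]
                · linarith only [C.b3, C.f22_1, C.f22_4, C.f23_5, C.f33_3, s1, s2, x37_3_0, x38_1_0, x39_1_1]
                · linarith only [C.f22_4, C.f23_1, C.f23_5, C.f33_4, C.o2, s2, x39_2_1]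
              · linarith only [C.a1, C.o0, x38_2_0]
              · linarith only [C.f22_1, s1, x37_3_0, x38_3_0]
              · linarith only [C.f22_4, C.f22_6, C.f23_9, C.f33_7, s3, x36_3_0, x38_4_0]
            · linarith only [C.f22_4, s2, x37_4_0]
            · linarith only [C.f22_4, C.f22_6, s3, x36_3_0, x37_5_0]
      · rcases d_t23 with ⟨x40_0_0, x40_0_1⟩ | ⟨x40_1_0, x40_1_1⟩
        · rcases d_tzpm with x41_0_0 | x41_1_0 | x41_2_0 | x41_3_0 | ⟨x41_4_0, x41_4_1⟩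
          · linarith only [x40_0_0, x41_0_0]
          · linarith only [C.f22_4, C.f22_6, C.f23_5, C.f23_8, C.f33_7, C.o1, C.o2, s3, x41_1_0]
          · linarith only [x3_1_1, x41_2_0]
          · linarith only [C.f22_4, C.f23_5, C.f33_4, C.o1, C.o2, s2, x41_3_0]
          · rcases d_p11_33B with x42_0_0 | x42_1_0 | x42_2_0 | x42_3_0 | x42_4_0
            · linarith only [x3_1_0, x42_0_0]
            · linarith only [C.f22_1, C.f22_4, C.f23_2, C.f23_6, C.f33_1, C.f33_4, C.o0, s1, s2, x3_1_0, x41_4_0, x41_4_1, x42_1_0]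
            · rcases d_f33_2 with ⟨x43_0_0, x43_0_1⟩ | ⟨x43_1_0, x43_1_1⟩
              · linarith only [C.f11_0, C.f22_0, C.f23_0, C.o0, s1, x42_2_0, x43_0_1]
              · linarith only [C.f11_0, C.f22_1, C.f22_4, C.f23_1, C.f23_5, C.f33_4, C.o0, s1, s2, x41_4_0, x42_2_0, x43_1_1]
            · linarith only [C.f11_0, C.f11_1, C.f22_4, C.f23_5, s2, x3_1_1, x41_4_0, x42_3_0]
            · linarith only [C.f11_0, C.f11_1, C.f11_2, C.f22_4, C.f22_6, C.f23_9, s3, x3_1_1, x41_4_1, x42_4_0]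
        · rcases d_f13_5 with ⟨x44_0_0, x44_0_1⟩ | ⟨x44_1_0, x44_1_1⟩
          · rcases d_f13_8 with ⟨x45_0_0, x45_0_1⟩ | ⟨x45_1_0, x45_1_1⟩
            · linarith only [C.f13_7, C.o0, x1_0_1, x3_1_1, x40_1_1, x44_0_1, x45_0_1]
            · rcases d_f22_2 with ⟨x46_0_0, x46_0_1⟩ | ⟨x46_1_0, x46_1_1⟩
              · rcases d_tmzp with x47_0_0 | x47_1_0 | x47_2_0 | x47_3_0 | x47_4_0 | x47_5_0
                · rcases d_tpmz with x48_0_0 | x48_1_0 | x48_2_0 | x48_3_0 | x48_4_0 | x48_5_0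
                  · linarith only [C.o0, x3_1_0, x48_0_0]
                  · linarith only [C.f22_4, C.f23_5, C.f33_0, C.f33_3, s2, x47_0_0, x48_1_0]
                  · linarith only [C.f22_4, C.f23_5, C.f33_4, s2, x48_2_0]
                  · linarith only [C.f22_0, C.f23_0, C.f33_0, C.o0, s1, x48_3_0]
                  · linarith only [C.f22_1, C.f23_0, C.f33_0, C.o0, s1, x46_0_1, x48_4_0]
                  · linarith only [x40_1_1, x48_5_0]
                · linarith only [C.a1, C.f22_1, C.o1, x46_0_1, x47_1_0]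
                · linarith only [C.f22_4, C.f23_5, C.f33_4, s2, x47_2_0]
                · linarith only [x3_1_0, x47_3_0]
                · linarith only [x3_1_1, x47_4_0]
                · linarith only [x40_1_1, x47_5_0]
              · rcases d_f23_3 with ⟨x49_0_0, x49_0_1⟩ | ⟨x49_1_0, x49_1_1⟩ | ⟨x49_2_0, x49_2_1⟩
                · rcases d_tzpm with x50_0_0 | x50_1_0 | x50_2_0 | x50_3_0 | ⟨x50_4_0, x50_4_1⟩
                  · linarith only [C.a1, C.f23_1, x49_0_1, x50_0_0]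
                  · linarith only [C.f22_4, C.f22_6, C.f23_9, C.f33_7, C.o1, s3, x50_1_0]
                  · linarith only [x3_1_1, x50_2_0]
                  · linarith only [C.f22_4, C.f23_5, C.f33_4, C.o1, C.o2, s2, x50_3_0]
                  · rcases d_p11_23B with x51_0_0 | x51_1_0 | x51_2_0 | x51_3_0 | x51_4_0 | x51_5_0
                    · linarith only [x3_1_0, x51_0_0]
                    · linarith only [C.f22_1, C.f23_1, C.f33_0, C.o0, s1, x3_1_0, x49_0_1, x50_4_0, x51_1_0]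
                    · linarith only [C.f13_4, C.f22_1, C.f22_3, C.f23_1, C.f23_6, C.f33_1, C.f33_3, C.o0, C.o2, s1, s2, x1_0_1, x3_1_0, x44_0_1, x50_4_0, x51_2_0]
                    · linarith only [C.f11_0, C.f22_0, C.f33_0, C.o0, s1, x49_0_1, x51_3_0]
                    · rcases d_f23_7 with ⟨x52_0_0, x52_0_1⟩ | ⟨x52_1_0, x52_1_1⟩ | ⟨x52_2_0, x52_2_1⟩
                      · linarith only [C.f22_4, C.f23_5, C.f33_0, C.f33_3, s2, x49_0_1, x52_0_1]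
                      · linarith only [C.f11_0, C.f11_1, x3_1_1, x50_4_0, x51_4_0, x52_1_1]
                      · linarith only [C.f22_4, C.f23_5, C.f33_4, C.o2, s2, x52_2_1]
                    · linarith only [C.f11_0, C.f11_1, C.f11_2, C.f22_4, C.f22_6, C.f33_7, s3, x3_1_1, x50_4_1, x51_5_0]
                · rcases d_p13_33A with x53_0_0 | x53_1_0 | x53_2_0 | x53_3_0 | x53_4_0 | x53_5_0
                  · linarith only [C.o0, x3_1_0, x53_0_0]
                  · linarith only [C.f22_4, C.f23_1, C.f23_6, C.f33_1, C.f33_4, C.o0, C.o1, C.o2, s1, s2, x3_1_0, x46_1_0, x53_1_0]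
                  · linarith only [C.f22_4, C.f23_1, C.f23_5, C.f33_1, C.f33_4, C.o0, C.o1, s1, s2, x3_1_0, x46_1_0, x53_2_0]
                  · rcases d_p11_23B with x54_0_0 | x54_1_0 | x54_2_0 | x54_3_0 | x54_4_0 | x54_5_0
                    · linarith only [x3_1_0, x54_0_0]
                    · linarith only [C.f22_1, C.f23_1, C.o0, C.o1, s1, x1_0_1, x3_1_0, x53_3_0, x54_1_0]
                    · linarith only [C.f22_4, C.f23_1, C.f23_6, C.f33_1, C.f33_4, C.o0, C.o1, C.o2, s1, s2, x3_1_0, x46_1_0, x54_2_0]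
                    · linarith only [C.f11_0, C.f22_1, C.o0, C.o1, s1, x1_0_1, x49_1_1, x53_3_0, x54_3_0]
                    · rcases d_tpmz with x55_0_0 | x55_1_0 | x55_2_0 | x55_3_0 | x55_4_0 | x55_5_0
                      · linarith only [C.o0, x3_1_0, x55_0_0]
                      · linarith only [C.f11_0, C.f11_1, C.f22_4, C.f33_3, C.o0, s2, x1_0_1, x3_1_1, x53_3_0, x54_4_0, x55_1_0]
                      · linarith only [C.f22_4, C.f23_5, C.f33_4, s2, x55_2_0]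
                      · linarith only [C.f11_0, C.f11_1, C.f22_0, C.f22_4, C.f23_1, C.f33_0, C.f33_3, C.o0, s1, s2, x46_1_1, x54_4_0, x55_3_0]
                      · linarith only [C.f11_0, C.f11_1, C.f22_1, C.f22_4, C.f23_1, C.f33_3, C.o0, s1, s2, x1_0_1, x53_3_0, x54_4_0, x55_4_0]
                      · linarith only [x40_1_1, x55_5_0]
                    · rcases d_f23_10 with ⟨x56_0_0, x56_0_1⟩ | ⟨x56_1_0, x56_1_1⟩
                      · rcases d_f23_7 with ⟨x57_0_0, x57_0_1⟩ | ⟨x57_1_0, x57_1_1⟩ | ⟨x57_2_0, x57_2_1⟩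
                        · linarith only [C.f22_1, C.f22_4, C.f23_9, C.f33_3, C.o1, s1, s2, x1_0_1, x3_1_1, x40_1_1, x49_1_1, x53_3_0, x56_0_1, x57_0_1]
                        · linarith only [C.f11_0, C.f11_1, C.f11_2, C.o1, x3_1_1, x40_1_1, x54_5_0, x56_0_1, x57_1_1]
                        · linarith only [C.f22_4, C.f22_6, C.f23_9, C.f33_4, C.f33_7, C.o1, s2, s3, x40_1_1, x56_0_1, x57_2_1]
                      · linarith only [C.f11_0, C.f11_1, C.f11_2, x3_1_1, x40_1_1, x54_5_0, x56_1_1]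
                  · linarith only [C.a3, C.f22_4, C.f23_5, s2, x1_0_1, x44_0_1, x53_4_0]
                  · rcases d_p11_33B with x58_0_0 | x58_1_0 | x58_2_0 | x58_3_0 | x58_4_0
                    · linarith only [x3_1_0, x58_0_0]
                    · linarith only [C.f22_4, C.f23_1, C.f23_6, C.f33_1, C.f33_4, C.o0, C.o1, s1, s2, x2_1_1, x3_1_0, x45_1_1, x46_1_0, x53_5_0, x58_1_0]
                    · rcases d_f33_2 with ⟨x59_0_0, x59_0_1⟩ | ⟨x59_1_0, x59_1_1⟩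
                      · linarith only [C.f11_0, C.f22_0, C.f23_0, C.o0, s1, x58_2_0, x59_0_1]
                      · linarith only [C.f11_0, C.f22_1, C.f22_4, C.f23_1, C.f23_5, C.f33_4, C.o0, C.o1, s1, s2, x58_2_0, x59_1_1]
                    · linarith only [C.f11_0, C.f11_1, C.f22_4, C.f23_5, C.o1, s2, x3_1_1, x58_3_0]
                    · linarith only [C.f11_0, C.f11_1, C.f11_2, C.f22_4, C.f22_6, C.f23_9, s3, x2_1_1, x3_1_1, x45_1_1, x53_5_0, x58_4_0]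
                · linarith only [C.f22_4, C.f23_1, C.f23_5, C.f33_4, C.o2, s2, x49_2_1]
          · rcases d_tpmz with x60_0_0 | x60_1_0 | x60_2_0 | x60_3_0 | x60_4_0 | x60_5_0
            · linarith only [C.o0, x3_1_0, x60_0_0]
            · linarith only [C.f13_0, C.f13_3, C.f22_4, C.f23_5, C.f33_4, C.o2, s2, x44_1_1, x60_1_0]
            · linarith only [C.f22_4, C.f23_5, C.f33_4, s2, x60_2_0]
            · linarith only [C.f22_0, C.f23_0, C.f33_0, C.o0, s1, x60_3_0]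
            · rcases d_f22_2 with ⟨x61_0_0, x61_0_1⟩ | ⟨x61_1_0, x61_1_1⟩
              · linarith only [C.f22_1, C.f23_0, C.f33_0, C.o0, s1, x60_4_0, x61_0_1]
              · rcases d_p11_33B with x62_0_0 | x62_1_0 | x62_2_0 | x62_3_0 | x62_4_0
                · linarith only [x3_1_0, x62_0_0]
                · linarith only [C.f22_4, C.f23_1, C.f23_5, C.f33_1, C.f33_4, C.o0, C.o1, s1, s2, x3_1_0, x61_1_0, x62_1_0]
                · rcases d_f33_2 with ⟨x63_0_0, x63_0_1⟩ | ⟨x63_1_0, x63_1_1⟩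
                  · linarith only [C.f11_0, C.f22_1, C.f23_0, C.o0, s1, x60_4_0, x62_2_0, x63_0_1]
                  · linarith only [C.f11_0, C.f22_1, C.f22_4, C.f23_1, C.f23_5, C.f33_4, C.o0, C.o1, s1, s2, x62_2_0, x63_1_1]
                · linarith only [C.f11_0, C.f11_1, C.f13_0, C.f13_3, C.f22_1, C.f22_4, C.f23_1, C.f23_5, C.f33_1, C.f33_4, C.o1, C.o2, s1, s2, x44_1_1, x60_4_0, x62_3_0]
                · linarith only [C.f11_0, C.f11_1, C.f11_2, C.f13_0, C.f13_3, C.f22_1, C.f22_4, C.f23_1, C.f23_5, C.f33_1, C.f33_4, s1, s2, x2_1_1, x40_1_1, x44_1_1, x60_4_0, x62_4_0]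
            · linarith only [x40_1_1, x60_5_0]
  · linarith only [C.a2, C.f13_0, C.f22_4, C.f23_5, C.f33_4, C.o2, s2, x1_1_1]

end Pool.Agent.Helper89.TQ
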