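import Pool.Agent.Helper89.TQ.Ctx

set_option autoImplicit false
set_option linter.all false
set_option maxHeartbeats 4000000

namespace Pool.Agent.Helper89.TQ

theorem c0_22_33_33_k0 {n1 n2 n3 A1 A2 A3 B1 B2 B3 m11_1 m11_2 m11_3 m13_1 m13_2 m13_3 m22_1 m22_2 m22_3 m23_1 m23_2 m23_3 m33_1 m33_2 m33_3 : ℤ}
    (C : Ctx0 n1 n2 n3 A1 A2 A3 B1 B2 B3 m11_1 m11_2 m11_3 m13_1 m13_2 m13_3 m22_1 m22_2 m22_3 m23_1 m23_2 m23_3 m33_1 m33_2 m33_3)
    (e0 : 0 < B2)
    (e1 : 0 < A3)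
    (s1 : 0 * A1 + 3 * B1 ≤ m22_1 + m33_1 + m33_1)
    (s2 : 0 * A2 + 3 * B2 ≤ m22_2 + m33_2 + m33_2)
    (s3 : 0 * A3 + 3 * B3 ≤ m22_3 + m33_3 + m33_3) : False := by
  have d_t12 : (-A1 + 1 ≤ 0 ∧ -A1 + A2 - n2 + 1 ≤ 0) ∨ (-B1 + 1 ≤ 0 ∧ -B1 + B2 - n2 + 1 ≤ 0) := by
    have h := C.t12
    omega
  have d_f22_2 : (m22_1 - n1 ≤ 0 ∧ -m22_1 + n1 ≤ 0) ∨ (-B2 + m22_1 + 1 ≤ 0 ∧ B2 - m22_1 - 1 ≤ 0) := by
    have h := C.f22_2
    omega
  have d_f22_5 : (-m22_1 + m22_2 - n2 ≤ 0 ∧ m22_1 - m22_2 + n2 ≤ 0) ∨ (-B2 + m22_2 + 1 ≤ 0 ∧ B2 - m22_2 - 1 ≤ 0) := by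
    have h := C.f22_5
    omega
  have d_f33_2 : (m33_1 - n1 ≤ 0 ∧ -m33_1 + n1 ≤ 0) ∨ (-A3 + m33_1 + 1 ≤ 0 ∧ A3 - m33_1 - 1 ≤ 0) := by
    have h := C.f33_2
    omega
  have d_p11_33B : B1 ≤ 0 ∨ A3 ≤ 0 ∨ (-2) * B1 + m11_1 + m33_1 + 1 ≤ 0 ∨ (-2) * B2 + m11_2 + m33_2 + 1 ≤ 0 ∨ (-2) * B3 + m11_3 + m33_3 + 1 ≤ 0 := by
    have h := C.p11_33B
    omega
  have d_p22_33B : B2 ≤ 0 ∨ A3 ≤ 0 ∨ (-2) * B1 + m22_1 + m33_1 + 1 ≤ 0 ∨ (-2) * B2 + m22_2 + m33_2 + 1 ≤ 0 ∨ (-2) * B3 + m22_3 + m33_3 + 1 ≤ 0 := by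
    have h := C.p22_33B
    omega
  rcases d_t12 with ⟨x1_0_0, x1_0_1⟩ | ⟨x1_1_0, x1_1_1⟩
  · rcases d_f22_2 with ⟨x2_0_0, x2_0_1⟩ | ⟨x2_1_0, x2_1_1⟩
    · rcases d_f22_5 with ⟨x3_0_0, x3_0_1⟩ | ⟨x3_1_0, x3_1_1⟩
      · linarith only [C.a1, C.b3, C.f22_4, C.o0, x2_0_1, x3_0_1]
      · rcases d_p22_33B with x4_0_0 | x4_1_0 | x4_2_0 | x4_3_0 | x4_4_0
        · linarith only [C.a1, C.b0, C.f22_1, C.o0, x2_0_1, x4_0_0]
        · linarith only [C.a1, C.b0, C.f22_1, C.f22_4, C.f33_4, C.o0, s2, x2_0_1, x4_1_0]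
        · linarith only [C.a1, C.o0, s1, x2_0_1, x4_2_0]
        · linarith only [s2, x3_1_1, x4_3_0]
        · linarith only [C.f33_7, C.o2, s3, x4_4_0]
    · rcases d_p22_33B with x5_0_0 | x5_1_0 | x5_2_0 | x5_3_0 | x5_4_0
      · linarith only [e0, x5_0_0]
      · linarith only [C.f22_4, C.f33_4, e0, s2, x5_1_0]
      · linarith only [C.b2, s1, x2_1_1, x5_2_0]
      · rcases d_f22_5 with ⟨x6_0_0, x6_0_1⟩ | ⟨x6_1_0, x6_1_1⟩
        · linarith only [C.a2, C.f22_4, x1_0_1, x2_1_1, x6_0_1]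
        · linarith only [s2, x5_3_0, x6_1_1]
      · linarith only [C.f33_7, C.o2, s3, x5_4_0]
  · rcases d_p11_33B with x7_0_0 | x7_1_0 | x7_2_0 | x7_3_0 | x7_4_0
    · linarith only [x1_1_0, x7_0_0]
    · linarith only [C.a2, C.a4, C.o0, x1_1_0, x7_1_0]
    · rcases d_f33_2 with ⟨x8_0_0, x8_0_1⟩ | ⟨x8_1_0, x8_1_1⟩
      · linarith only [C.a1, C.f11_0, C.o0, x7_2_0, x8_0_1]
      · linarith only [C.f11_0, C.f22_1, C.f22_4, C.f33_4, s1, s2, x7_2_0, x8_1_1]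
    · linarith only [C.f11_0, C.f11_1, C.f22_4, s2, x1_1_1, x7_3_0]
    · linarith only [C.f11_0, C.f11_1, C.f11_2, C.f22_4, C.f22_6, C.f33_7, C.o2, s3, x1_1_1, x7_4_0]

theorem c0_22_33_33_k1 {n1 n2 n3 A1 A2 A3 B1 B2 B3 m11_1 m11_2 m11_3 m13_1 m13_2 m13_3 m22_1 m22_2 m22_3 m23_1 m23_2 m23_3 m33_1 m33_2 m33_3 : ℤ}
    (C : Ctx0 n1 n2 n3 A1 A2 A3 B1 B2 B3 m11_1 m11_2 m11_3 m13_1 m13_2 m13_3 m22_1 m22_2 m22_3 m23_1 m23_2 m23_3 m33_1 m33_2 m33_3)
    (e0 : 0 < B2)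
    (e1 : 0 < A3)
    (s1 : 1 * A1 + 2 * B1 ≤ m22_1 + m33_1 + m33_1)
    (s2 : 1 * A2 + 2 * B2 ≤ m22_2 + m33_2 + m33_2)
    (s3 : 1 * A3 + 2 * B3 ≤ m22_3 + m33_3 + m33_3) : False := by
  have d_t12 : (-A1 + 1 ≤ 0 ∧ -A1 + A2 - n2 + 1 ≤ 0) ∨ (-B1 + 1 ≤ 0 ∧ -B1 + B2 - n2 + 1 ≤ 0) := by
    have h := C.t12
    omega
  have d_f13_2 : (-A1 + m13_1 + 1 ≤ 0 ∧ A1 - m13_1 - 1 ≤ 0) ∨ (-B3 + m13_1 + 1 ≤ 0 ∧ B3 - m13_1 - 1 ≤ 0) := by
    have h := C.f13_2
    omega
  have d_f13_5 : (-m13_1 + m13_2 - n2 ≤ 0 ∧ m13_1 - m13_2 + n2 ≤ 0) ∨ (-B3 + m13_2 + 1 ≤ 0 ∧ B3 - m13_2 - 1 ≤ 0) := by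
    have h := C.f13_5
    omega
  have d_f13_8 : (-m13_2 + m13_3 - n3 ≤ 0 ∧ m13_2 - m13_3 + n3 ≤ 0) ∨ (-B3 + m13_3 + 1 ≤ 0 ∧ B3 - m13_3 - 1 ≤ 0) := by
    have h := C.f13_8
    omega
  have d_f22_2 : (m22_1 - n1 ≤ 0 ∧ -m22_1 + n1 ≤ 0) ∨ (-B2 + m22_1 + 1 ≤ 0 ∧ B2 - m22_1 - 1 ≤ 0) := by
    have h := C.f22_2
    omega
  have d_f22_5 : (-m22_1 + m22_2 - n2 ≤ 0 ∧ m22_1 - m22_2 + n2 ≤ 0) ∨ (-B2 + m22_2 + 1 ≤ 0 ∧ B2 - m22_2 - 1 ≤ 0) := by
    have h := C.f22_5
    omega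
  have d_f23_3 : (m23_1 - n1 ≤ 0 ∧ -m23_1 + n1 ≤ 0) ∨ (-A2 + m23_1 + 1 ≤ 0 ∧ A2 - m23_1 - 1 ≤ 0) ∨ (-B3 + m23_1 + 1 ≤ 0 ∧ B3 - m23_1 - 1 ≤ 0) := by
    have h := C.f23_3
    omega
  have d_f23_7 : (-m23_1 + m23_2 - n2 ≤ 0 ∧ m23_1 - m23_2 + n2 ≤ 0) ∨ (-A2 + m23_2 + 1 ≤ 0 ∧ A2 - m23_2 - 1 ≤ 0) ∨ (-B3 + m23_2 + 1 ≤ 0 ∧ B3 - m23_2 - 1 ≤ 0) := by
    have h := C.f23_7
    omega
  have d_f23_10 : (-m23_2 + m23_3 - n3 ≤ 0 ∧ m23_2 - m23_3 + n3 ≤ 0) ∨ (-B3 + m23_3 + 1 ≤ 0 ∧ B3 - m23_3 - 1 ≤ 0) := by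
    have h := C.f23_10
    omega
  have d_f33_2 : (m33_1 - n1 ≤ 0 ∧ -m33_1 + n1 ≤ 0) ∨ (-A3 + m33_1 + 1 ≤ 0 ∧ A3 - m33_1 - 1 ≤ 0) := by
    have h := C.f33_2
    omega
  have d_p11_33B : B1 ≤ 0 ∨ A3 ≤ 0 ∨ (-2) * B1 + m11_1 + m33_1 + 1 ≤ 0 ∨ (-2) * B2 + m11_2 + m33_2 + 1 ≤ 0 ∨ (-2) * B3 + m11_3 + m33_3 + 1 ≤ 0 := by
    have h := C.p11_33B
    omega
  have d_p13_22B : A1 ≤ 0 ∨ B3 ≤ 0 ∨ B2 ≤ 0 ∨ (-2) * B1 + m13_1 + m22_1 + 1 ≤ 0 ∨ (-2) * B2 + m13_2 + m22_2 + 1 ≤ 0 ∨ (-2) * B3 + m13_3 + m22_3 + 1 ≤ 0 := by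
    have h := C.p13_22B
    omega
  have d_p22_23B : B2 ≤ 0 ∨ A2 ≤ 0 ∨ B3 ≤ 0 ∨ (-2) * B1 + m22_1 + m23_1 + 1 ≤ 0 ∨ (-2) * B2 + m22_2 + m23_2 + 1 ≤ 0 ∨ (-2) * B3 + m22_3 + m23_3 + 1 ≤ 0 := by
    have h := C.p22_23B
    omega
  have d_p22_33A : B2 ≤ 0 ∨ A3 ≤ 0 ∨ (-2) * A1 + m22_1 + m33_1 + 1 ≤ 0 ∨ (-2) * A2 + m22_2 + m33_2 + 1 ≤ 0 ∨ (-2) * A3 + m22_3 + m33_3 + 1 ≤ 0 := by
    have h := C.p22_33A
    omega
  have d_p22_33B : B2 ≤ 0 ∨ A3 ≤ 0 ∨ (-2) * B1 + m22_1 + m33_1 + 1 ≤ 0 ∨ (-2) * B2 + m22_2 + m33_2 + 1 ≤ 0 ∨ (-2) * B3 + m22_3 + m33_3 + 1 ≤ 0 := by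
    have h := C.p22_33B
    omega
  have d_tzmp : A1 - A2 + n2 ≤ 0 ∨ -A2 + A3 - 1 ≤ 0 ∨ -B1 + B2 ≤ 0 ∨ B2 - B3 + n3 - 1 ≤ 0 := by
    have h := C.tzmp
    omega
  rcases d_f13_2 with ⟨x1_0_0, x1_0_1⟩ | ⟨x1_1_0, x1_1_1⟩
  · rcases d_t12 with ⟨x2_0_0, x2_0_1⟩ | ⟨x2_1_0, x2_1_1⟩
    · rcases d_f13_5 with ⟨x3_0_0, x3_0_1⟩ | ⟨x3_1_0, x3_1_1⟩
      · rcases d_f13_8 with ⟨x4_0_0, x4_0_1⟩ | ⟨x4_1_0, x4_1_1⟩
        · linarith only [C.b3, C.f13_7, C.f22_4, C.f22_6, C.f33_7, C.o0, C.o2, s3, x1_0_1, x3_0_1, x4_0_1]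
        · rcases d_f22_2 with ⟨x5_0_0, x5_0_1⟩ | ⟨x5_1_0, x5_1_1⟩
          · rcases d_f33_2 with ⟨x6_0_0, x6_0_1⟩ | ⟨x6_1_0, x6_1_1⟩
            · rcases d_p22_33A with x7_0_0 | x7_1_0 | x7_2_0 | x7_3_0 | x7_4_0
              · linarith only [C.a1, C.b0, C.f22_1, C.o0, x5_0_1, x7_0_0]
              · linarith only [C.a1, C.b0, C.f22_1, C.f22_4, C.f33_4, C.o0, C.o1, s2, x5_0_1, x7_1_0]
              · linarith only [C.a1, x5_0_1, x6_0_1, x7_2_0]
              · rcases d_f22_5 with ⟨x8_0_0, x8_0_1⟩ | ⟨x8_1_0, x8_1_1⟩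
                · linarith only [C.a1, C.b3, C.f22_4, C.o0, x5_0_1, x8_0_1]
                · rcases d_p13_22B with x9_0_0 | x9_1_0 | x9_2_0 | x9_3_0 | x9_4_0 | x9_5_0
                  · linarith only [C.b0, C.o0, x9_0_0]
                  · linarith only [C.a2, C.a4, C.b0, C.o0, C.o2, x9_1_0]
                  · linarith only [C.a1, C.b0, C.f22_1, C.o0, x5_0_1, x9_2_0]
                  · linarith only [C.a1, C.o0, x1_0_1, x5_0_1, x9_3_0]
                  · linarith only [s2, x1_0_1, x2_0_1, x3_0_1, x7_3_0, x8_1_1, x9_4_0]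
                  · linarith only [C.f33_7, C.o2, s3, x4_1_1, x9_5_0]
              · linarith only [C.f33_7, C.o2, s3, x7_4_0]
            · linarith only [C.f22_1, C.f22_4, C.f33_0, C.f33_4, C.o1, s2, x5_0_1, x6_1_1]
          · rcases d_p22_33B with x10_0_0 | x10_1_0 | x10_2_0 | x10_3_0 | x10_4_0
            · linarith only [e0, x10_0_0]
            · linarith only [C.f22_4, C.f33_4, C.o1, e0, s2, x10_1_0]
            · linarith only [C.b2, C.o0, s1, x10_2_0, x5_1_1]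
            · rcases d_f22_5 with ⟨x11_0_0, x11_0_1⟩ | ⟨x11_1_0, x11_1_1⟩
              · linarith only [C.a2, C.f22_4, x11_0_1, x2_0_1, x5_1_1]
              · linarith only [C.o1, s2, x10_3_0, x11_1_1]
            · linarith only [C.f33_7, s3, x10_4_0]
      · rcases d_f13_8 with ⟨x12_0_0, x12_0_1⟩ | ⟨x12_1_0, x12_1_1⟩
        · linarith only [C.a4, C.f13_7, C.f22_4, C.f22_6, C.f33_7, C.o1, C.o2, s3, x12_0_1, x3_1_1]
        · rcases d_f23_3 with ⟨x13_0_0, x13_0_1⟩ | ⟨x13_1_0, x13_1_1⟩ | ⟨x13_2_0, x13_2_1⟩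
          · rcases d_f23_7 with ⟨x14_0_0, x14_0_1⟩ | ⟨x14_1_0, x14_1_1⟩ | ⟨x14_2_0, x14_2_1⟩
            · linarith only [C.a1, C.a4, C.f13_0, C.f13_3, C.f23_5, C.o2, x13_0_1, x14_0_1, x3_1_1]
            · rcases d_f23_10 with ⟨x15_0_0, x15_0_1⟩ | ⟨x15_1_0, x15_1_1⟩
              · linarith only [C.f22_4, C.f22_6, C.f23_9, C.f33_7, C.o1, C.o2, s3, x14_1_1, x15_0_1]
              · rcases d_f33_2 with ⟨x16_0_0, x16_0_1⟩ | ⟨x16_1_0, x16_1_1⟩
                · rcases d_p11_33B with x17_0_0 | x17_1_0 | x17_2_0 | x17_3_0 | x17_4_0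
                  · rcases d_f22_2 with ⟨x18_0_0, x18_0_1⟩ | ⟨x18_1_0, x18_1_1⟩
                    · rcases d_p13_22B with x19_0_0 | x19_1_0 | x19_2_0 | x19_3_0 | x19_4_0 | x19_5_0
                      · linarith only [C.b0, C.o0, x19_0_0]
                      · linarith only [C.a2, C.a4, C.b0, C.o0, C.o2, x19_1_0]
                      · linarith only [C.a1, C.b0, C.f22_1, C.o0, x18_0_1, x19_2_0]
                      · linarith only [C.a1, C.o0, x18_0_1, x19_3_0, x1_0_1]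
                      · rcases d_f22_5 with ⟨x20_0_0, x20_0_1⟩ | ⟨x20_1_0, x20_1_1⟩
                        · linarith only [C.a1, C.b3, C.f22_4, C.o0, x18_0_1, x20_0_1]
                        · linarith only [C.f33_4, C.o1, C.o2, s2, x19_4_0, x20_1_1, x3_1_1]
                      · linarith only [C.f33_7, C.o2, s3, x12_1_1, x19_5_0]
                    · rcases d_p13_22B with x21_0_0 | x21_1_0 | x21_2_0 | x21_3_0 | x21_4_0 | x21_5_0
                      · linarith only [C.b0, C.o0, x21_0_0]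
                      · linarith only [C.a2, C.a4, C.b0, C.o0, C.o2, x21_1_0]
                      · linarith only [e0, x21_2_0]
                      · linarith only [e0, x17_0_0, x18_1_1, x1_0_1, x21_3_0, x2_0_0]
                      · rcases d_f22_5 with ⟨x22_0_0, x22_0_1⟩ | ⟨x22_1_0, x22_1_1⟩
                        · linarith only [C.a1, C.f13_0, C.f13_3, C.f22_4, C.f23_1, C.f33_4, C.o2, s2, x13_0_1, x18_1_1, x21_4_0, x22_0_1, x3_1_1]
                        · linarith only [C.f33_4, C.o1, C.o2, s2, x21_4_0, x22_1_1, x3_1_1]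
                      · linarith only [C.f33_7, C.o2, s3, x12_1_1, x21_5_0]
                  · linarith only [C.f22_4, C.f33_4, C.o1, e0, s2, x17_1_0]
                  · linarith only [C.a1, C.f11_0, C.o0, x16_0_1, x17_2_0]
                  · linarith only [C.b3, C.f11_0, C.f11_1, C.f22_4, C.o1, s2, x17_3_0]
                  · linarith only [C.b3, C.f11_0, C.f11_1, C.f11_2, C.f22_4, C.f22_6, C.f33_7, s3, x17_4_0]
                · rcases d_f22_2 with ⟨x23_0_0, x23_0_1⟩ | ⟨x23_1_0, x23_1_1⟩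
                  · linarith only [C.f22_1, C.f22_4, C.f33_0, C.f33_4, C.o1, s2, x16_1_1, x23_0_1]
                  · rcases d_p22_23B with x24_0_0 | x24_1_0 | x24_2_0 | x24_3_0 | x24_4_0 | x24_5_0
                    · linarith only [e0, x24_0_0]
                    · linarith only [C.o1, e0, x24_1_0]
                    · linarith only [C.a2, C.a4, C.b0, C.o0, C.o2, x24_2_0]
                    · linarith only [C.a1, C.b2, C.o0, x13_0_1, x23_1_1, x24_3_0]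
                    · linarith only [C.f23_1, C.f33_0, C.f33_4, s2, x13_0_1, x14_1_1, x16_1_1, x24_4_0]
                    · linarith only [C.f33_7, C.o2, s3, x15_1_1, x24_5_0]
            · linarith only [C.a4, C.f23_5, C.o2, x14_2_1]
          · rcases d_f33_2 with ⟨x25_0_0, x25_0_1⟩ | ⟨x25_1_0, x25_1_1⟩
            · rcases d_p11_33B with x26_0_0 | x26_1_0 | x26_2_0 | x26_3_0 | x26_4_0
              · rcases d_f22_2 with ⟨x27_0_0, x27_0_1⟩ | ⟨x27_1_0, x27_1_1⟩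
                · rcases d_tzmp with x28_0_0 | x28_1_0 | x28_2_0 | x28_3_0
                  · linarith only [C.a4, C.f13_0, C.f13_3, C.o2, x28_0_0, x3_1_1]
                  · linarith only [C.f22_1, C.f22_4, C.f23_0, C.f33_4, s2, x13_1_1, x27_0_1, x28_1_0]
                  · linarith only [C.a1, C.f22_1, C.o0, x27_0_1, x28_2_0]
                  · linarith only [C.f22_4, C.f22_6, C.f33_7, C.o2, s3, x28_3_0]
                · rcases d_p13_22B with x29_0_0 | x29_1_0 | x29_2_0 | x29_3_0 | x29_4_0 | x29_5_0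
                  · linarith only [C.b0, C.o0, x29_0_0]
                  · linarith only [C.a2, C.a4, C.b0, C.o0, C.o2, x29_1_0]
                  · linarith only [e0, x29_2_0]
                  · linarith only [e0, x1_0_1, x26_0_0, x27_1_1, x29_3_0, x2_0_0]
                  · rcases d_f22_5 with ⟨x30_0_0, x30_0_1⟩ | ⟨x30_1_0, x30_1_1⟩
                    · linarith only [C.a2, C.f13_0, C.f13_3, C.f22_4, C.f33_4, C.o2, s2, x27_1_1, x29_4_0, x30_0_1, x3_1_1]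
                    · linarith only [C.f33_4, C.o1, C.o2, s2, x29_4_0, x30_1_1, x3_1_1]
                  · linarith only [C.f33_7, C.o2, s3, x12_1_1, x29_5_0]
              · linarith only [C.f22_4, C.f33_4, C.o1, e0, s2, x26_1_0]
              · linarith only [C.f11_0, C.f22_1, C.f23_0, C.o0, C.o1, s1, x13_1_1, x25_0_1, x26_2_0]
              · linarith only [C.b3, C.f11_0, C.f11_1, C.f22_4, C.o1, s2, x26_3_0]
              · linarith only [C.b3, C.f11_0, C.f11_1, C.f11_2, C.f22_4, C.f22_6, C.f33_7, s3, x26_4_0]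
            · rcases d_p11_33B with x31_0_0 | x31_1_0 | x31_2_0 | x31_3_0 | x31_4_0
              · rcases d_f22_2 with ⟨x32_0_0, x32_0_1⟩ | ⟨x32_1_0, x32_1_1⟩
                · linarith only [C.f22_1, C.f22_4, C.f33_0, C.f33_4, C.o1, s2, x25_1_1, x32_0_1]
                · rcases d_p13_22B with x33_0_0 | x33_1_0 | x33_2_0 | x33_3_0 | x33_4_0 | x33_5_0
                  · linarith only [C.b0, C.o0, x33_0_0]
                  · linarith only [C.a2, C.a4, C.b0, C.o0, C.o2, x33_1_0]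
                  · linarith only [e0, x33_2_0]
                  · linarith only [e0, x1_0_1, x2_0_0, x31_0_0, x32_1_1, x33_3_0]
                  · rcases d_f22_5 with ⟨x34_0_0, x34_0_1⟩ | ⟨x34_1_0, x34_1_1⟩
                    · linarith only [C.a2, C.f13_0, C.f13_3, C.f22_4, C.f33_4, C.o2, s2, x32_1_1, x33_4_0, x34_0_1, x3_1_1]
                    · linarith only [C.f33_4, C.o1, C.o2, s2, x33_4_0, x34_1_1, x3_1_1]
                  · linarith only [C.f33_7, C.o2, s3, x12_1_1, x33_5_0]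
              · linarith only [C.f22_4, C.f33_4, C.o1, e0, s2, x31_1_0]
              · linarith only [C.f11_0, C.f22_1, C.f22_4, C.f33_4, C.o0, C.o1, s1, s2, x25_1_1, x31_2_0]
              · linarith only [C.b3, C.f11_0, C.f11_1, C.f22_4, C.o1, s2, x31_3_0]
              · linarith only [C.b3, C.f11_0, C.f11_1, C.f11_2, C.f22_4, C.f22_6, C.f33_7, s3, x31_4_0]
          · linarith only [C.a4, C.f23_1, C.o2, x13_2_1]
    · rcases d_p11_33B with x35_0_0 | x35_1_0 | x35_2_0 | x35_3_0 | x35_4_0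
      · linarith only [x2_1_0, x35_0_0]
      · linarith only [C.a2, C.a4, C.o0, x2_1_0, x35_1_0]
      · rcases d_f33_2 with ⟨x36_0_0, x36_0_1⟩ | ⟨x36_1_0, x36_1_1⟩
        · linarith only [C.a1, C.f11_0, C.o0, x35_2_0, x36_0_1]
        · linarith only [C.f11_0, C.f22_1, C.f22_4, C.f33_4, C.o0, C.o1, s1, s2, x35_2_0, x36_1_1]
      · linarith only [C.f11_0, C.f11_1, C.f22_4, C.o1, s2, x2_1_1, x35_3_0]
      · linarith only [C.f11_0, C.f11_1, C.f11_2, C.f22_4, C.f22_6, C.f33_7, s3, x2_1_1, x35_4_0]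
  · linarith only [C.a2, C.a4, C.f13_0, C.o2, x1_1_1]

theorem c0_22_33_33_k2 {n1 n2 n3 A1 A2 A3 B1 B2 B3 m11_1 m11_2 m11_3 m13_1 m13_2 m13_3 m22_1 m22_2 m22_3 m23_1 m23_2 m23_3 m33_1 m33_2 m33_3 : ℤ}
    (C : Ctx0 n1 n2 n3 A1 A2 A3 B1 B2 B3 m11_1 m11_2 m11_3 m13_1 m13_2 m13_3 m22_1 m22_2 m22_3 m23_1 m23_2 m23_3 m33_1 m33_2 m33_3)
    (e0 : 0 < B2)
    (e1 : 0 < A3)
    (s1 : 2 * A1 + 1 * B1 ≤ m22_1 + m33_1 + m33_1)
    (s2 : 2 * A2 + 1 * B2 ≤ m22_2 + m33_2 + m33_2)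
    (s3 : 2 * A3 + 1 * B3 ≤ m22_3 + m33_3 + m33_3) : False := by
  have d_t12 : (-A1 + 1 ≤ 0 ∧ -A1 + A2 - n2 + 1 ≤ 0) ∨ (-B1 + 1 ≤ 0 ∧ -B1 + B2 - n2 + 1 ≤ 0) := by
    have h := C.t12
    omega
  have d_t23 : (A1 - A2 + 1 ≤ 0 ∧ -A2 + A3 - n3 + 1 ≤ 0) ∨ (B1 - B2 + 1 ≤ 0 ∧ -B2 + B3 - n3 + 1 ≤ 0) := by
    have h := C.t23
    omega
  have d_f23_3 : (m23_1 - n1 ≤ 0 ∧ -m23_1 + n1 ≤ 0) ∨ (-A2 + m23_1 + 1 ≤ 0 ∧ A2 - m23_1 - 1 ≤ 0) ∨ (-B3 + m23_1 + 1 ≤ 0 ∧ B3 - m23_1 - 1 ≤ 0) := by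
    have h := C.f23_3
    omega
  have d_f23_7 : (-m23_1 + m23_2 - n2 ≤ 0 ∧ m23_1 - m23_2 + n2 ≤ 0) ∨ (-A2 + m23_2 + 1 ≤ 0 ∧ A2 - m23_2 - 1 ≤ 0) ∨ (-B3 + m23_2 + 1 ≤ 0 ∧ B3 - m23_2 - 1 ≤ 0) := by
    have h := C.f23_7
    omega
  have d_f23_10 : (-m23_2 + m23_3 - n3 ≤ 0 ∧ m23_2 - m23_3 + n3 ≤ 0) ∨ (-B3 + m23_3 + 1 ≤ 0 ∧ B3 - m23_3 - 1 ≤ 0) := by
    have h := C.f23_10
    omega
  have d_p11_23B : B1 ≤ 0 ∨ A2 ≤ 0 ∨ B3 ≤ 0 ∨ (-2) * B1 + m11_1 + m23_1 + 1 ≤ 0 ∨ (-2) * B2 + m11_2 + m23_2 + 1 ≤ 0 ∨ (-2) * B3 + m11_3 + m23_3 + 1 ≤ 0 := by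
    have h := C.p11_23B
    omega
  have d_tmzp : -A1 + n1 ≤ 0 ∨ -A1 + A2 ≤ 0 ∨ -A2 + A3 ≤ 0 ∨ B1 ≤ 0 ∨ B1 - B2 + n2 ≤ 0 ∨ B2 - B3 + n3 ≤ 0 := by
    have h := C.tmzp
    omega
  have d_tzmp : A1 - A2 + n2 ≤ 0 ∨ -A2 + A3 - 1 ≤ 0 ∨ -B1 + B2 ≤ 0 ∨ B2 - B3 + n3 - 1 ≤ 0 := by
    have h := C.tzmp
    omega
  rcases d_t12 with ⟨x1_0_0, x1_0_1⟩ | ⟨x1_1_0, x1_1_1⟩
  · rcases d_t23 with ⟨x2_0_0, x2_0_1⟩ | ⟨x2_1_0, x2_1_1⟩
    · rcases d_tzmp with x3_0_0 | x3_1_0 | x3_2_0 | x3_3_0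
      · linarith only [x1_0_1, x3_0_0]
      · linarith only [C.f22_4, C.f33_4, s2, x3_1_0]
      · rcases d_tmzp with x4_0_0 | x4_1_0 | x4_2_0 | x4_3_0 | x4_4_0 | x4_5_0
        · linarith only [C.f22_1, C.f33_0, s1, x3_2_0, x4_0_0]
        · linarith only [x2_0_0, x4_1_0]
        · linarith only [C.f22_4, C.f33_4, s2, x4_2_0]
        · linarith only [e0, x3_2_0, x4_3_0]
        · linarith only [x1_0_1, x2_0_0, x3_2_0, x4_4_0]
        · linarith only [C.f22_4, C.f22_6, C.f33_7, s3, x4_5_0]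
      · linarith only [C.f22_4, C.f22_6, C.f33_7, s3, x3_3_0]
    · rcases d_tzmp with x5_0_0 | x5_1_0 | x5_2_0 | x5_3_0
      · linarith only [x1_0_1, x5_0_0]
      · linarith only [C.f22_4, C.f33_4, s2, x5_1_0]
      · linarith only [x2_1_0, x5_2_0]
      · linarith only [C.f22_4, C.f22_6, C.f33_7, s3, x5_3_0]
  · rcases d_f23_3 with ⟨x6_0_0, x6_0_1⟩ | ⟨x6_1_0, x6_1_1⟩ | ⟨x6_2_0, x6_2_1⟩
    · rcases d_f23_7 with ⟨x7_0_0, x7_0_1⟩ | ⟨x7_1_0, x7_1_1⟩ | ⟨x7_2_0, x7_2_1⟩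
      · linarith only [C.f22_4, C.f23_5, C.f33_0, C.f33_3, s2, x6_0_1, x7_0_1]
      · rcases d_f23_10 with ⟨x8_0_0, x8_0_1⟩ | ⟨x8_1_0, x8_1_1⟩
        · linarith only [C.f22_4, C.f22_6, C.f23_9, C.f33_7, C.o1, s3, x7_1_1, x8_0_1]
        · rcases d_p11_23B with x9_0_0 | x9_1_0 | x9_2_0 | x9_3_0 | x9_4_0 | x9_5_0
          · linarith only [x1_1_0, x9_0_0]
          · linarith only [C.f22_1, C.f23_1, C.f33_0, C.o0, C.o1, s1, x1_1_0, x6_0_1, x9_1_0]
          · linarith only [C.f22_1, C.f22_4, C.f33_1, C.f33_4, C.o0, C.o1, C.o2, s1, s2, x1_1_0, x9_2_0]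
          · linarith only [C.f11_0, C.f22_0, C.f33_0, C.o0, s1, x6_0_1, x9_3_0]
          · rcases d_tzmp with x10_0_0 | x10_1_0 | x10_2_0 | x10_3_0
            · linarith only [C.f11_0, C.f11_1, C.o0, x10_0_0, x1_1_1, x7_1_1, x9_4_0]
            · linarith only [C.f22_4, C.f33_4, s2, x10_1_0]
            · linarith only [C.f11_0, C.f11_1, C.f22_1, C.f23_1, C.f33_0, C.o0, s1, x10_2_0, x1_1_1, x6_0_1, x7_1_1, x9_4_0]
            · linarith only [C.f22_4, C.f22_6, C.f33_7, s3, x10_3_0]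
          · linarith only [C.f11_0, C.f11_1, C.f11_2, C.f22_4, C.f22_6, C.f33_7, s3, x1_1_1, x8_1_1, x9_5_0]
      · linarith only [C.f22_4, C.f23_5, C.f33_4, C.o2, s2, x7_2_1]
    · rcases d_f23_7 with ⟨x11_0_0, x11_0_1⟩ | ⟨x11_1_0, x11_1_1⟩ | ⟨x11_2_0, x11_2_1⟩
      · linarith only [C.b2, C.f23_5, x11_0_1, x1_1_1, x6_1_1]
      · rcases d_f23_10 with ⟨x12_0_0, x12_0_1⟩ | ⟨x12_1_0, x12_1_1⟩
        · linarith only [C.f22_4, C.f22_6, C.f23_9, C.f33_7, C.o1, s3, x11_1_1, x12_0_1]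
        · rcases d_p11_23B with x13_0_0 | x13_1_0 | x13_2_0 | x13_3_0 | x13_4_0 | x13_5_0
          · linarith only [x13_0_0, x1_1_0]
          · linarith only [C.a2, C.o0, x13_1_0, x1_1_0]
          · linarith only [C.f22_1, C.f22_4, C.f33_1, C.f33_4, C.o0, C.o1, C.o2, s1, s2, x13_2_0, x1_1_0]
          · rcases d_t23 with ⟨x14_0_0, x14_0_1⟩ | ⟨x14_1_0, x14_1_1⟩
            · linarith only [C.f11_0, C.o0, x13_3_0, x14_0_0, x6_1_1]
            · rcases d_tzmp with x15_0_0 | x15_1_0 | x15_2_0 | x15_3_0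
              · linarith only [C.f11_0, C.o0, x13_3_0, x14_1_0, x15_0_0, x1_1_1, x6_1_1]
              · linarith only [C.f22_4, C.f33_4, s2, x15_1_0]
              · linarith only [x14_1_0, x15_2_0]
              · linarith only [C.f22_4, C.f22_6, C.f33_7, s3, x15_3_0]
          · rcases d_tzmp with x16_0_0 | x16_1_0 | x16_2_0 | x16_3_0
            · linarith only [C.f11_0, C.f11_1, C.o0, x11_1_1, x13_4_0, x16_0_0, x1_1_1]
            · linarith only [C.f22_4, C.f33_4, s2, x16_1_0]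
            · linarith only [C.a2, C.f11_0, C.f11_1, C.o0, x11_1_1, x13_4_0, x16_2_0, x1_1_1]
            · linarith only [C.f22_4, C.f22_6, C.f33_7, s3, x16_3_0]
          · linarith only [C.f11_0, C.f11_1, C.f11_2, C.f22_4, C.f22_6, C.f33_7, s3, x12_1_1, x13_5_0, x1_1_1]
      · linarith only [C.f22_4, C.f23_5, C.f33_4, C.o2, s2, x11_2_1]
    · linarith only [C.f22_4, C.f23_1, C.f33_4, C.o2, s2, x6_2_1]

theorem c0_22_33_33_k3 {n1 n2 n3 A1 A2 A3 B1 B2 B3 m11_1 m11_2 m11_3 m13_1 m13_2 m13_3 m22_1 m22_2 m22_3 m23_1 m23_2 m23_3 m33_1 m33_2 m33_3 : ℤ}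
    (C : Ctx0 n1 n2 n3 A1 A2 A3 B1 B2 B3 m11_1 m11_2 m11_3 m13_1 m13_2 m13_3 m22_1 m22_2 m22_3 m23_1 m23_2 m23_3 m33_1 m33_2 m33_3)
    (e0 : 0 < B2)
    (e1 : 0 < A3)
    (s1 : 3 * A1 + 0 * B1 ≤ m22_1 + m33_1 + m33_1)
    (s2 : 3 * A2 + 0 * B2 ≤ m22_2 + m33_2 + m33_2)
    (s3 : 3 * A3 + 0 * B3 ≤ m22_3 + m33_3 + m33_3) : False := by
  have d_t12 : (-A1 + 1 ≤ 0 ∧ -A1 + A2 - n2 + 1 ≤ 0) ∨ (-B1 + 1 ≤ 0 ∧ -B1 + B2 - n2 + 1 ≤ 0) := by
    have h := C.t12
    omega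
  have d_t23 : (A1 - A2 + 1 ≤ 0 ∧ -A2 + A3 - n3 + 1 ≤ 0) ∨ (B1 - B2 + 1 ≤ 0 ∧ -B2 + B3 - n3 + 1 ≤ 0) := by
    have h := C.t23
    omega
  have d_f13_2 : (-A1 + m13_1 + 1 ≤ 0 ∧ A1 - m13_1 - 1 ≤ 0) ∨ (-B3 + m13_1 + 1 ≤ 0 ∧ B3 - m13_1 - 1 ≤ 0) := by
    have h := C.f13_2
    omega
  have d_f13_5 : (-m13_1 + m13_2 - n2 ≤ 0 ∧ m13_1 - m13_2 + n2 ≤ 0) ∨ (-B3 + m13_2 + 1 ≤ 0 ∧ B3 - m13_2 - 1 ≤ 0) := by
    have h := C.f13_5
    omega
  have d_f13_8 : (-m13_2 + m13_3 - n3 ≤ 0 ∧ m13_2 - m13_3 + n3 ≤ 0) ∨ (-B3 + m13_3 + 1 ≤ 0 ∧ B3 - m13_3 - 1 ≤ 0) := by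
    have h := C.f13_8
    omega
  have d_f22_2 : (m22_1 - n1 ≤ 0 ∧ -m22_1 + n1 ≤ 0) ∨ (-B2 + m22_1 + 1 ≤ 0 ∧ B2 - m22_1 - 1 ≤ 0) := by
    have h := C.f22_2
    omega
  have d_f22_5 : (-m22_1 + m22_2 - n2 ≤ 0 ∧ m22_1 - m22_2 + n2 ≤ 0) ∨ (-B2 + m22_2 + 1 ≤ 0 ∧ B2 - m22_2 - 1 ≤ 0) := by
    have h := C.f22_5
    omega
  have d_f23_3 : (m23_1 - n1 ≤ 0 ∧ -m23_1 + n1 ≤ 0) ∨ (-A2 + m23_1 + 1 ≤ 0 ∧ A2 - m23_1 - 1 ≤ 0) ∨ (-B3 + m23_1 + 1 ≤ 0 ∧ B3 - m23_1 - 1 ≤ 0) := by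
    have h := C.f23_3
    omega
  have d_f23_7 : (-m23_1 + m23_2 - n2 ≤ 0 ∧ m23_1 - m23_2 + n2 ≤ 0) ∨ (-A2 + m23_2 + 1 ≤ 0 ∧ A2 - m23_2 - 1 ≤ 0) ∨ (-B3 + m23_2 + 1 ≤ 0 ∧ B3 - m23_2 - 1 ≤ 0) := by
    have h := C.f23_7
    omega
  have d_f23_10 : (-m23_2 + m23_3 - n3 ≤ 0 ∧ m23_2 - m23_3 + n3 ≤ 0) ∨ (-B3 + m23_3 + 1 ≤ 0 ∧ B3 - m23_3 - 1 ≤ 0) := by
    have h := C.f23_10
    omega
  have d_f33_2 : (m33_1 - n1 ≤ 0 ∧ -m33_1 + n1 ≤ 0) ∨ (-A3 + m33_1 + 1 ≤ 0 ∧ A3 - m33_1 - 1 ≤ 0) := by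
    have h := C.f33_2
    omega
  have d_f33_8 : (-m33_2 + m33_3 - n3 ≤ 0 ∧ m33_2 - m33_3 + n3 ≤ 0) ∨ (-A3 + m33_3 + 1 ≤ 0 ∧ A3 - m33_3 - 1 ≤ 0) := by
    have h := C.f33_8
    omega
  have d_p11_13B : B1 ≤ 0 ∨ A1 ≤ 0 ∨ B3 ≤ 0 ∨ (-2) * B1 + m11_1 + m13_1 + 1 ≤ 0 ∨ (-2) * B2 + m11_2 + m13_2 + 1 ≤ 0 ∨ (-2) * B3 + m11_3 + m13_3 + 1 ≤ 0 := by
    have h := C.p11_13B
    omega
  have d_p11_23B : B1 ≤ 0 ∨ A2 ≤ 0 ∨ B3 ≤ 0 ∨ (-2) * B1 + m11_1 + m23_1 + 1 ≤ 0 ∨ (-2) * B2 + m11_2 + m23_2 + 1 ≤ 0 ∨ (-2) * B3 + m11_3 + m23_3 + 1 ≤ 0 := by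
    have h := C.p11_23B
    omega
  have d_p11_33A : B1 ≤ 0 ∨ A3 ≤ 0 ∨ (-2) * A1 + m11_1 + m33_1 + 1 ≤ 0 ∨ (-2) * A2 + m11_2 + m33_2 + 1 ≤ 0 ∨ (-2) * A3 + m11_3 + m33_3 + 1 ≤ 0 := by
    have h := C.p11_33A
    omega
  have d_p11_33B : B1 ≤ 0 ∨ A3 ≤ 0 ∨ (-2) * B1 + m11_1 + m33_1 + 1 ≤ 0 ∨ (-2) * B2 + m11_2 + m33_2 + 1 ≤ 0 ∨ (-2) * B3 + m11_3 + m33_3 + 1 ≤ 0 := by
    have h := C.p11_33B
    omega
  have d_p13_22B : A1 ≤ 0 ∨ B3 ≤ 0 ∨ B2 ≤ 0 ∨ (-2) * B1 + m13_1 + m22_1 + 1 ≤ 0 ∨ (-2) * B2 + m13_2 + m22_2 + 1 ≤ 0 ∨ (-2) * B3 + m13_3 + m22_3 + 1 ≤ 0 := by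
    have h := C.p13_22B
    omega
  have d_p13_23A : A1 ≤ 0 ∨ B3 ≤ 0 ∨ A2 ≤ 0 ∨ (-2) * A1 + m13_1 + m23_1 + 1 ≤ 0 ∨ (-2) * A2 + m13_2 + m23_2 + 1 ≤ 0 ∨ (-2) * A3 + m13_3 + m23_3 + 1 ≤ 0 := by
    have h := C.p13_23A
    omega
  have d_p13_33A : A1 ≤ 0 ∨ B3 ≤ 0 ∨ A3 ≤ 0 ∨ (-2) * A1 + m13_1 + m33_1 + 1 ≤ 0 ∨ (-2) * A2 + m13_2 + m33_2 + 1 ≤ 0 ∨ (-2) * A3 + m13_3 + m33_3 + 1 ≤ 0 := by
    have h := C.p13_33A
    omega
  have d_p22_33A : B2 ≤ 0 ∨ A3 ≤ 0 ∨ (-2) * A1 + m22_1 + m33_1 + 1 ≤ 0 ∨ (-2) * A2 + m22_2 + m33_2 + 1 ≤ 0 ∨ (-2) * A3 + m22_3 + m33_3 + 1 ≤ 0 := by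
    have h := C.p22_33A
    omega
  have d_p23_33A : A2 ≤ 0 ∨ B3 ≤ 0 ∨ A3 ≤ 0 ∨ (-2) * A1 + m23_1 + m33_1 + 1 ≤ 0 ∨ (-2) * A2 + m23_2 + m33_2 + 1 ≤ 0 ∨ (-2) * A3 + m23_3 + m33_3 + 1 ≤ 0 := by
    have h := C.p23_33A
    omega
  have d_tmzp : -A1 + n1 ≤ 0 ∨ -A1 + A2 ≤ 0 ∨ -A2 + A3 ≤ 0 ∨ B1 ≤ 0 ∨ B1 - B2 + n2 ≤ 0 ∨ B2 - B3 + n3 ≤ 0 := by
    have h := C.tmzp
    omega
  have d_tzmp : A1 - A2 + n2 ≤ 0 ∨ -A2 + A3 - 1 ≤ 0 ∨ -B1 + B2 ≤ 0 ∨ B2 - B3 + n3 - 1 ≤ 0 := by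
    have h := C.tzmp
    omega
  have d_tzpm : -A1 + A2 ≤ 0 ∨ A2 - A3 + n3 - 1 ≤ 0 ∨ B1 - B2 + n2 ≤ 0 ∨ -B2 + B3 - 1 ≤ 0 ∨ (-A2 + B2 + 1 ≤ 0 ∧ -A3 + B3 - 1 ≤ 0) := by
    have h := C.tzpm
    omega
  have d_tpmm : A1 ≤ 0 ∨ A1 - A2 + n2 - 1 ≤ 0 ∨ -B1 + n1 ≤ 0 ∨ -B1 + B2 - 1 ≤ 0 ∨ -A3 + B3 - 1 ≤ 0 := by
    have h := C.tpmm
    omega
  have d_tpmz : A1 ≤ 0 ∨ A1 - A2 + n2 - 1 ≤ 0 ∨ -A2 + A3 ≤ 0 ∨ -B1 + n1 ≤ 0 ∨ -B1 + B2 - 1 ≤ 0 ∨ B2 - B3 + n3 ≤ 0 := by
    have h := C.tpmz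
    omega
  have d_tpzm : A1 ≤ 0 ∨ A1 - A2 + n2 ≤ 0 ∨ A2 - A3 + n3 ≤ 0 ∨ -B1 + n1 ≤ 0 ∨ -B1 + B2 ≤ 0 ∨ -B2 + B3 ≤ 0 ∨ -A3 + B3 - 1 ≤ 0 ∨ (A1 - B1 - 1 ≤ 0 ∧ A2 - B2 ≤ 0) := by
    have h := C.tpzm
    omega
  rcases d_f13_5 with ⟨x1_0_0, x1_0_1⟩ | ⟨x1_1_0, x1_1_1⟩
  · rcases d_f13_2 with ⟨x2_0_0, x2_0_1⟩ | ⟨x2_1_0, x2_1_1⟩
    · rcases d_f13_8 with ⟨x3_0_0, x3_0_1⟩ | ⟨x3_1_0, x3_1_1⟩
      · linarith only [C.b3, C.b5, C.f13_7, C.o0, x1_0_1, x2_0_1, x3_0_1]
      · rcases d_f23_10 with ⟨x4_0_0, x4_0_1⟩ | ⟨x4_1_0, x4_1_1⟩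
        · rcases d_f23_7 with ⟨x5_0_0, x5_0_1⟩ | ⟨x5_1_0, x5_1_1⟩ | ⟨x5_2_0, x5_2_1⟩
          · rcases d_f23_3 with ⟨x6_0_0, x6_0_1⟩ | ⟨x6_1_0, x6_1_1⟩ | ⟨x6_2_0, x6_2_1⟩
            · linarith only [C.b3, C.b5, C.f22_0, C.f23_9, C.f33_0, C.o0, s1, x4_0_1, x5_0_1, x6_0_1]
            · linarith only [C.a2, C.b3, C.b5, C.f23_9, C.o0, x4_0_1, x5_0_1, x6_1_1]
            · linarith only [C.b3, C.b5, C.f22_1, C.f22_4, C.f23_5, C.f23_9, C.f33_1, C.f33_4, C.o0, C.o2, s1, s2, x4_0_1, x5_0_1, x6_2_1]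
          · rcases d_p13_33A with x7_0_0 | x7_1_0 | x7_2_0 | x7_3_0 | x7_4_0 | x7_5_0
            · linarith only [C.b0, C.o0, x7_0_0]
            · linarith only [C.b0, C.f22_1, C.f22_4, C.f33_1, C.f33_4, C.o0, C.o1, C.o2, s1, s2, x7_1_0]
            · linarith only [C.b0, C.f22_1, C.f22_4, C.f33_1, C.f33_4, C.o0, C.o1, s1, s2, x7_2_0]
            · rcases d_p22_33A with x8_0_0 | x8_1_0 | x8_2_0 | x8_3_0 | x8_4_0
              · linarith only [C.b0, C.f22_1, C.o0, s1, x2_0_1, x7_3_0, x8_0_0]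
              · linarith only [C.b0, C.f22_1, C.f22_4, C.f33_1, C.f33_4, C.o0, C.o1, s1, s2, x8_1_0]
              · linarith only [s1, x2_0_1, x7_3_0, x8_2_0]
              · rcases d_f22_5 with ⟨x9_0_0, x9_0_1⟩ | ⟨x9_1_0, x9_1_1⟩
                · linarith only [C.b3, C.f22_4, C.o0, s1, x2_0_1, x7_3_0, x9_0_1]
                · linarith only [C.b5, C.f23_9, s2, x4_0_1, x5_1_1, x8_3_0, x9_1_1]
              · linarith only [C.f33_7, s3, x8_4_0]
            · linarith only [C.b3, C.b5, C.f22_4, C.f23_9, C.o0, s2, x1_0_1, x2_0_1, x4_0_1, x5_1_1, x7_4_0]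
            · linarith only [C.f22_4, C.f22_6, C.f23_9, C.o1, C.o2, s3, x3_1_1, x4_0_1, x5_1_1, x7_5_0]
          · linarith only [C.f22_4, C.f23_5, C.f33_4, C.o1, C.o2, s2, x5_2_1]
        · rcases d_p22_33A with x10_0_0 | x10_1_0 | x10_2_0 | x10_3_0 | x10_4_0
          · linarith only [e0, x10_0_0]
          · linarith only [C.b0, C.f22_1, C.f22_4, C.f33_1, C.f33_4, C.o0, C.o1, s1, s2, x10_1_0]
          · rcases d_t12 with ⟨x11_0_0, x11_0_1⟩ | ⟨x11_1_0, x11_1_1⟩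
            · rcases d_t23 with ⟨x12_0_0, x12_0_1⟩ | ⟨x12_1_0, x12_1_1⟩
              · rcases d_f22_2 with ⟨x13_0_0, x13_0_1⟩ | ⟨x13_1_0, x13_1_1⟩
                · linarith only [C.f33_0, s1, x10_2_0, x13_0_1]
                · rcases d_f23_3 with ⟨x14_0_0, x14_0_1⟩ | ⟨x14_1_0, x14_1_1⟩ | ⟨x14_2_0, x14_2_1⟩
                  · rcases d_f23_7 with ⟨x15_0_0, x15_0_1⟩ | ⟨x15_1_0, x15_1_1⟩ | ⟨x15_2_0, x15_2_1⟩
                    · linarith only [C.f22_0, C.f23_5, C.f33_0, s1, x11_0_1, x14_0_1, x15_0_1]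
                    · rcases d_p11_23B with x16_0_0 | x16_1_0 | x16_2_0 | x16_3_0 | x16_4_0 | x16_5_0
                      · rcases d_tzmp with x17_0_0 | x17_1_0 | x17_2_0 | x17_3_0
                        · linarith only [x11_0_1, x17_0_0]
                        · linarith only [C.f22_4, C.f23_1, C.f33_0, C.f33_4, s1, s2, x10_2_0, x13_1_1, x14_0_1, x17_1_0]
                        · linarith only [e0, x16_0_0, x17_2_0]
                        · rcases d_p13_33A with x18_0_0 | x18_1_0 | x18_2_0 | x18_3_0 | x18_4_0 | x18_5_0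
                          · linarith only [e0, s1, x10_2_0, x13_1_1, x18_0_0]
                          · linarith only [C.b0, C.f22_1, C.f22_4, C.f33_1, C.f33_4, C.o0, C.o1, C.o2, s1, s2, x18_1_0]
                          · linarith only [C.b0, C.f22_1, C.f22_4, C.f33_1, C.f33_4, C.o0, C.o1, s1, s2, x18_2_0]
                          · linarith only [s1, x10_2_0, x18_3_0, x2_0_1]
                          · linarith only [C.b3, C.f22_4, C.f23_1, C.f33_0, C.f33_3, C.o0, s2, x10_2_0, x13_1_1, x14_0_1, x18_4_0, x1_0_1, x2_0_1]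
                          · linarith only [C.f22_4, C.f22_6, C.o2, s3, x17_3_0, x18_5_0, x3_1_1]
                      · linarith only [C.b0, C.f22_1, C.f23_1, C.f33_0, C.o0, C.o1, s1, x14_0_1, x16_1_0]
                      · linarith only [C.b0, C.f22_1, C.f22_4, C.f33_1, C.f33_4, C.o0, C.o1, C.o2, s1, s2, x16_2_0]
                      · linarith only [C.f11_0, C.f22_0, C.f33_0, C.o0, s1, x14_0_1, x16_3_0]
                      · linarith only [C.b3, C.f11_0, C.f11_1, C.f23_1, C.f33_0, s1, x10_2_0, x13_1_1, x14_0_1, x15_1_1, x16_4_0]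
                      · rcases d_p13_33A with x19_0_0 | x19_1_0 | x19_2_0 | x19_3_0 | x19_4_0 | x19_5_0
                        · linarith only [C.b0, C.b5, C.f11_0, C.f11_1, C.f11_2, C.f22_4, C.f23_1, C.f33_0, C.f33_3, s1, s2, x10_2_0, x13_1_1, x14_0_1, x16_5_0, x19_0_0, x4_1_1]
                        · linarith only [C.b0, C.f22_1, C.f22_4, C.f33_1, C.f33_4, C.o0, C.o1, C.o2, s1, s2, x19_1_0]
                        · linarith only [C.b0, C.f22_1, C.f22_4, C.f33_1, C.f33_4, C.o0, C.o1, s1, s2, x19_2_0]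
                        · linarith only [s1, x10_2_0, x19_3_0, x2_0_1]
                        · linarith only [C.b3, C.f22_4, C.f23_1, C.f33_0, C.f33_3, C.o0, s2, x10_2_0, x13_1_1, x14_0_1, x19_4_0, x1_0_1, x2_0_1]
                        · linarith only [C.b3, C.f11_0, C.f11_1, C.f11_2, C.f22_4, C.f22_6, C.o2, s3, x16_5_0, x19_5_0, x3_1_1, x4_1_1]
                    · linarith only [C.f22_4, C.f23_5, C.f33_4, C.o1, C.o2, s2, x15_2_1]
                  · rcases d_f23_7 with ⟨x20_0_0, x20_0_1⟩ | ⟨x20_1_0, x20_1_1⟩ | ⟨x20_2_0, x20_2_1⟩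
                    · linarith only [C.f23_5, x11_0_1, x12_0_0, x14_1_1, x20_0_1]
                    · rcases d_p11_23B with x21_0_0 | x21_1_0 | x21_2_0 | x21_3_0 | x21_4_0 | x21_5_0
                      · rcases d_tzmp with x22_0_0 | x22_1_0 | x22_2_0 | x22_3_0
                        · linarith only [x11_0_1, x22_0_0]
                        · linarith only [C.f22_4, C.f33_4, s1, s2, x10_2_0, x12_0_0, x13_1_1, x22_1_0]
                        · linarith only [e0, x21_0_0, x22_2_0]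
                        · rcases d_p13_33A with x23_0_0 | x23_1_0 | x23_2_0 | x23_3_0 | x23_4_0 | x23_5_0
                          · linarith only [e0, s1, x10_2_0, x13_1_1, x23_0_0]
                          · linarith only [C.b0, C.f22_1, C.f22_4, C.f33_1, C.f33_4, C.o0, C.o1, C.o2, s1, s2, x23_1_0]
                          · linarith only [C.b0, C.f22_1, C.f22_4, C.f33_1, C.f33_4, C.o0, C.o1, s1, s2, x23_2_0]
                          · linarith only [s1, x10_2_0, x23_3_0, x2_0_1]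
                          · linarith only [C.b3, C.f22_4, C.o0, s2, x11_0_1, x1_0_1, x23_4_0, x2_0_1]
                          · linarith only [C.f22_4, C.f22_6, C.o2, s3, x22_3_0, x23_5_0, x3_1_1]
                      · linarith only [C.b0, C.o0, x12_0_0, x21_1_0]
                      · linarith only [C.b0, C.f22_1, C.f22_4, C.f33_1, C.f33_4, C.o0, C.o1, C.o2, s1, s2, x21_2_0]
                      · linarith only [C.f11_0, C.o0, x12_0_0, x14_1_1, x21_3_0]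
                      · linarith only [C.b3, C.f11_0, C.f11_1, s1, x10_2_0, x12_0_0, x13_1_1, x20_1_1, x21_4_0]
                      · rcases d_p13_33A with x24_0_0 | x24_1_0 | x24_2_0 | x24_3_0 | x24_4_0 | x24_5_0
                        · linarith only [C.b0, C.b5, C.f11_0, C.f11_1, C.f11_2, s1, x10_2_0, x11_0_1, x12_0_0, x13_1_1, x21_5_0, x24_0_0, x4_1_1]
                        · linarith only [C.b0, C.f22_1, C.f22_4, C.f33_1, C.f33_4, C.o0, C.o1, C.o2, s1, s2, x24_1_0]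
                        · linarith only [C.b0, C.f22_1, C.f22_4, C.f33_1, C.f33_4, C.o0, C.o1, s1, s2, x24_2_0]
                        · linarith only [s1, x10_2_0, x24_3_0, x2_0_1]
                        · linarith only [C.b3, C.f22_4, C.o0, s2, x11_0_1, x1_0_1, x24_4_0, x2_0_1]
                        · linarith only [C.b3, C.f11_0, C.f11_1, C.f11_2, C.f22_4, C.f22_6, C.o2, s3, x21_5_0, x24_5_0, x3_1_1, x4_1_1]
                    · linarith only [C.f22_4, C.f23_5, C.f33_4, C.o1, C.o2, s2, x20_2_1]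
                  · linarith only [C.f22_4, C.f23_1, C.f33_4, C.o1, C.o2, s2, x14_2_1]
              · rcases d_p13_33A with x25_0_0 | x25_1_0 | x25_2_0 | x25_3_0 | x25_4_0 | x25_5_0
                · linarith only [C.b0, C.o0, x25_0_0]
                · linarith only [C.b0, C.f22_1, C.f22_4, C.f33_1, C.f33_4, C.o0, C.o1, C.o2, s1, s2, x25_1_0]
                · linarith only [C.b0, C.f22_1, C.f22_4, C.f33_1, C.f33_4, C.o0, C.o1, s1, s2, x25_2_0]
                · linarith only [s1, x10_2_0, x25_3_0, x2_0_1]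
                · linarith only [C.b3, C.f22_4, C.o0, s2, x11_0_1, x1_0_1, x25_4_0, x2_0_1]
                · rcases d_tzmp with x26_0_0 | x26_1_0 | x26_2_0 | x26_3_0
                  · linarith only [x11_0_1, x26_0_0]
                  · linarith only [C.f22_4, C.f33_4, C.o1, s2, x26_1_0]
                  · linarith only [x12_1_0, x26_2_0]
                  · linarith only [C.f22_4, C.f22_6, C.f33_7, s3, x25_5_0, x26_3_0, x3_1_1]
            · rcases d_p11_33B with x27_0_0 | x27_1_0 | x27_2_0 | x27_3_0 | x27_4_0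
              · linarith only [x11_1_0, x27_0_0]
              · linarith only [C.f22_1, C.f22_4, C.f33_1, C.f33_4, C.o0, C.o1, s1, s2, x11_1_0, x27_1_0]
              · linarith only [C.f11_0, C.o0, s1, x10_2_0, x27_2_0]
              · linarith only [C.f11_0, C.f11_1, C.f22_4, C.o1, s2, x11_1_1, x27_3_0]
              · rcases d_p13_33A with x28_0_0 | x28_1_0 | x28_2_0 | x28_3_0 | x28_4_0 | x28_5_0
                · linarith only [C.o0, x11_1_0, x28_0_0]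
                · linarith only [C.b5, C.f11_0, C.f11_1, C.f11_2, C.f22_1, C.f22_4, C.f22_6, C.f33_1, C.f33_4, C.o0, C.o1, s1, s2, s3, x11_1_0, x11_1_1, x27_4_0, x28_1_0]
                · linarith only [C.f22_1, C.f22_4, C.f33_1, C.f33_4, C.o0, C.o1, s1, s2, x11_1_0, x28_2_0]
                · linarith only [s1, x10_2_0, x28_3_0, x2_0_1]
                · linarith only [C.f22_3, C.f22_4, C.f33_3, C.o0, s2, x10_2_0, x11_1_1, x1_0_1, x28_4_0, x2_0_1]
                · rcases d_f33_8 with ⟨x29_0_0, x29_0_1⟩ | ⟨x29_1_0, x29_1_1⟩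
                  · linarith only [C.f22_4, C.f22_6, C.f33_7, C.o1, s2, s3, x29_0_1]
                  · linarith only [C.f11_0, C.f11_1, C.f11_2, C.f22_4, C.f22_6, s3, x11_1_1, x27_4_0, x28_5_0, x29_1_1, x3_1_1]
          · rcases d_t12 with ⟨x30_0_0, x30_0_1⟩ | ⟨x30_1_0, x30_1_1⟩
            · rcases d_t23 with ⟨x31_0_0, x31_0_1⟩ | ⟨x31_1_0, x31_1_1⟩
              · rcases d_f22_2 with ⟨x32_0_0, x32_0_1⟩ | ⟨x32_1_0, x32_1_1⟩
                · rcases d_tzmp with x33_0_0 | x33_1_0 | x33_2_0 | x33_3_0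
                  · linarith only [x30_0_1, x33_0_0]
                  · linarith only [C.f33_4, s2, x10_3_0, x33_1_0]
                  · linarith only [C.f22_1, C.f33_0, C.o0, s1, x32_0_1, x33_2_0]
                  · rcases d_tzpm with x34_0_0 | x34_1_0 | x34_2_0 | x34_3_0 | ⟨x34_4_0, x34_4_1⟩
                    · linarith only [C.f22_1, C.f33_0, C.o1, s1, x32_0_1, x34_0_0]
                    · linarith only [C.f22_4, C.f22_6, C.f33_7, C.o1, s3, x34_1_0]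
                    · rcases d_tpzm with x35_0_0 | x35_1_0 | x35_2_0 | x35_3_0 | x35_4_0 | x35_5_0 | x35_6_0 | ⟨x35_7_0, x35_7_1⟩
                      · linarith only [C.b0, C.o0, x35_0_0]
                      · linarith only [x30_0_1, x35_1_0]
                      · linarith only [C.b5, C.o1, C.o2, x35_2_0]
                      · linarith only [C.f22_0, C.f33_0, C.o0, s1, x35_3_0]
                      · linarith only [C.f22_1, C.f33_0, C.o0, s1, x32_0_1, x35_4_0]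
                      · linarith only [C.f22_4, C.f33_4, C.o1, C.o2, s2, x35_5_0]
                      · linarith only [C.f22_4, C.f22_6, C.f33_7, s3, x33_3_0, x35_6_0]
                      · rcases d_f22_5 with ⟨x36_0_0, x36_0_1⟩ | ⟨x36_1_0, x36_1_1⟩
                        · linarith only [C.b3, C.f33_0, C.o0, s1, s2, x10_3_0, x32_0_1, x35_7_1, x36_0_1]
                        · linarith only [s2, x10_3_0, x30_0_1, x34_2_0, x35_7_0, x36_1_1]
                    · linarith only [C.f22_4, C.f33_4, C.o1, C.o2, s2, x34_3_0]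
                    · linarith only [C.f22_4, C.f22_6, C.f33_7, s3, x33_3_0, x34_4_1]
                · rcases d_f23_3 with ⟨x37_0_0, x37_0_1⟩ | ⟨x37_1_0, x37_1_1⟩ | ⟨x37_2_0, x37_2_1⟩
                  · rcases d_f23_7 with ⟨x38_0_0, x38_0_1⟩ | ⟨x38_1_0, x38_1_1⟩ | ⟨x38_2_0, x38_2_1⟩
                    · linarith only [C.f22_0, C.f23_5, C.f33_0, s1, x30_0_1, x37_0_1, x38_0_1]
                    · rcases d_f22_5 with ⟨x39_0_0, x39_0_1⟩ | ⟨x39_1_0, x39_1_1⟩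
                      · linarith only [C.f22_4, C.f23_1, C.f33_0, s1, s2, x10_3_0, x30_0_1, x32_1_1, x37_0_1, x39_0_1]
                      · rcases d_p23_33A with x40_0_0 | x40_1_0 | x40_2_0 | x40_3_0 | x40_4_0 | x40_5_0
                        · linarith only [C.b0, C.f22_1, C.f23_1, C.f33_0, C.o0, C.o1, s1, x37_0_1, x40_0_0]
                        · linarith only [C.b0, C.f22_1, C.f22_4, C.f33_1, C.f33_4, C.o0, C.o1, C.o2, s1, s2, x40_1_0]
                        · linarith only [C.b0, C.f22_1, C.f22_4, C.f33_1, C.f33_4, C.o0, C.o1, s1, s2, x40_2_0]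
                        · linarith only [C.f22_0, C.f33_0, s1, x37_0_1, x40_3_0]
                        · linarith only [s2, x10_3_0, x38_1_1, x40_4_0]
                        · rcases d_p13_22B with x41_0_0 | x41_1_0 | x41_2_0 | x41_3_0 | x41_4_0 | x41_5_0
                          · linarith only [C.b0, C.o0, x41_0_0]
                          · linarith only [C.b0, C.f22_1, C.f22_4, C.f33_1, C.f33_4, C.o0, C.o1, C.o2, s1, s2, x41_1_0]
                          · linarith only [e0, x41_2_0]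
                          · rcases d_p11_23B with x42_0_0 | x42_1_0 | x42_2_0 | x42_3_0 | x42_4_0 | x42_5_0
                            · linarith only [C.o0, e0, x2_0_1, x32_1_1, x41_3_0, x42_0_0]
                            · linarith only [C.b0, C.o0, x31_0_0, x42_1_0]
                            · linarith only [C.b0, C.f33_1, C.o0, C.o2, s1, x2_0_1, x41_3_0, x42_2_0]
                            · linarith only [C.f11_0, C.f33_0, C.o0, s1, x2_0_1, x37_0_1, x41_3_0, x42_3_0]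
                            · linarith only [C.f11_0, C.f11_1, C.o0, x2_0_1, x30_0_1, x31_0_0, x32_1_1, x38_1_1, x41_3_0, x42_4_0]
                            · linarith only [C.f11_0, C.f11_1, C.f11_2, C.f22_4, C.f22_6, C.o0, C.o2, s3, x2_0_1, x30_0_1, x31_0_0, x32_1_1, x40_5_0, x41_3_0, x42_5_0, x4_1_1]
                          · linarith only [s2, x10_3_0, x1_0_1, x2_0_1, x30_0_1, x39_1_1, x41_4_0]
                          · linarith only [C.o2, s3, x3_1_1, x40_5_0, x41_5_0, x4_1_1]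
                    · linarith only [C.f22_4, C.f23_5, C.f33_4, C.o1, C.o2, s2, x38_2_1]
                  · rcases d_f23_7 with ⟨x43_0_0, x43_0_1⟩ | ⟨x43_1_0, x43_1_1⟩ | ⟨x43_2_0, x43_2_1⟩
                    · linarith only [C.f23_5, x30_0_1, x31_0_0, x37_1_1, x43_0_1]
                    · rcases d_f22_5 with ⟨x44_0_0, x44_0_1⟩ | ⟨x44_1_0, x44_1_1⟩
                      · linarith only [C.f22_4, x30_0_1, x31_0_0, x32_1_1, x44_0_1]
                      · rcases d_p23_33A with x45_0_0 | x45_1_0 | x45_2_0 | x45_3_0 | x45_4_0 | x45_5_0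
                        · linarith only [C.b0, C.o0, x31_0_0, x45_0_0]
                        · linarith only [C.b0, C.f22_1, C.f22_4, C.f33_1, C.f33_4, C.o0, C.o1, C.o2, s1, s2, x45_1_0]
                        · linarith only [C.b0, C.f22_1, C.f22_4, C.f33_1, C.f33_4, C.o0, C.o1, s1, s2, x45_2_0]
                        · linarith only [C.f22_1, C.o1, s1, x31_0_0, x37_1_1, x45_3_0]
                        · linarith only [s2, x10_3_0, x43_1_1, x45_4_0]
                        · rcases d_p13_22B with x46_0_0 | x46_1_0 | x46_2_0 | x46_3_0 | x46_4_0 | x46_5_0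
                          · linarith only [C.b0, C.o0, x46_0_0]
                          · linarith only [C.b0, C.f22_1, C.f22_4, C.f33_1, C.f33_4, C.o0, C.o1, C.o2, s1, s2, x46_1_0]
                          · linarith only [e0, x46_2_0]
                          · rcases d_p11_23B with x47_0_0 | x47_1_0 | x47_2_0 | x47_3_0 | x47_4_0 | x47_5_0
                            · linarith only [C.o0, e0, x2_0_1, x32_1_1, x46_3_0, x47_0_0]
                            · linarith only [C.b0, C.o0, x31_0_0, x47_1_0]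
                            · linarith only [C.b0, C.f33_1, C.o0, C.o2, s1, x2_0_1, x46_3_0, x47_2_0]
                            · linarith only [C.f11_0, C.o0, x31_0_0, x37_1_1, x47_3_0]
                            · linarith only [C.f11_0, C.f11_1, C.o0, x2_0_1, x30_0_1, x31_0_0, x32_1_1, x43_1_1, x46_3_0, x47_4_0]
                            · linarith only [C.f11_0, C.f11_1, C.f11_2, C.f22_4, C.f22_6, C.o0, C.o2, s3, x2_0_1, x30_0_1, x31_0_0, x32_1_1, x45_5_0, x46_3_0, x47_5_0, x4_1_1]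
                          · linarith only [s2, x10_3_0, x1_0_1, x2_0_1, x30_0_1, x44_1_1, x46_4_0]
                          · linarith only [C.o2, s3, x3_1_1, x45_5_0, x46_5_0, x4_1_1]
                    · linarith only [C.f22_4, C.f23_5, C.f33_4, C.o1, C.o2, s2, x43_2_1]
                  · linarith only [C.f22_4, C.f23_1, C.f33_4, C.o1, C.o2, s2, x37_2_1]
              · rcases d_f23_3 with ⟨x48_0_0, x48_0_1⟩ | ⟨x48_1_0, x48_1_1⟩ | ⟨x48_2_0, x48_2_1⟩
                · rcases d_f23_7 with ⟨x49_0_0, x49_0_1⟩ | ⟨x49_1_0, x49_1_1⟩ | ⟨x49_2_0, x49_2_1⟩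
                  · linarith only [C.f22_0, C.f23_5, C.f33_0, s1, x30_0_1, x48_0_1, x49_0_1]
                  · rcases d_p23_33A with x50_0_0 | x50_1_0 | x50_2_0 | x50_3_0 | x50_4_0 | x50_5_0
                    · linarith only [C.b0, C.f22_1, C.f23_1, C.f33_0, C.o0, C.o1, s1, x48_0_1, x50_0_0]
                    · linarith only [C.b0, C.f22_1, C.f22_4, C.f33_1, C.f33_4, C.o0, C.o1, C.o2, s1, s2, x50_1_0]
                    · linarith only [C.b0, C.f22_1, C.f22_4, C.f33_1, C.f33_4, C.o0, C.o1, s1, s2, x50_2_0]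
                    · linarith only [C.f22_0, C.f33_0, s1, x48_0_1, x50_3_0]
                    · linarith only [s2, x10_3_0, x49_1_1, x50_4_0]
                    · rcases d_tzmp with x51_0_0 | x51_1_0 | x51_2_0 | x51_3_0
                      · linarith only [x30_0_1, x51_0_0]
                      · linarith only [C.f33_4, s2, x10_3_0, x51_1_0]
                      · linarith only [x31_1_0, x51_2_0]
                      · linarith only [C.f22_4, C.f22_6, C.f33_7, s3, x4_1_1, x50_5_0, x51_3_0]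
                  · linarith only [C.f22_4, C.f23_5, C.f33_4, C.o1, C.o2, s2, x49_2_1]
                · rcases d_f23_7 with ⟨x52_0_0, x52_0_1⟩ | ⟨x52_1_0, x52_1_1⟩ | ⟨x52_2_0, x52_2_1⟩
                  · linarith only [C.a2, C.f23_5, x30_0_1, x48_1_1, x52_0_1]
                  · rcases d_p23_33A with x53_0_0 | x53_1_0 | x53_2_0 | x53_3_0 | x53_4_0 | x53_5_0
                    · linarith only [C.a2, C.b0, C.o0, x53_0_0]
                    · linarith only [C.b0, C.f22_1, C.f22_4, C.f33_1, C.f33_4, C.o0, C.o1, C.o2, s1, s2, x53_1_0]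
                    · linarith only [C.b0, C.f22_1, C.f22_4, C.f33_1, C.f33_4, C.o0, C.o1, s1, s2, x53_2_0]
                    · linarith only [C.a2, C.f22_1, C.o1, s1, x48_1_1, x53_3_0]
                    · linarith only [s2, x10_3_0, x52_1_1, x53_4_0]
                    · rcases d_tzmp with x54_0_0 | x54_1_0 | x54_2_0 | x54_3_0
                      · linarith only [x30_0_1, x54_0_0]
                      · linarith only [C.f33_4, s2, x10_3_0, x54_1_0]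
                      · linarith only [x31_1_0, x54_2_0]
                      · linarith only [C.f22_4, C.f22_6, C.f33_7, s3, x4_1_1, x53_5_0, x54_3_0]
                  · linarith only [C.f22_4, C.f23_5, C.f33_4, C.o1, C.o2, s2, x52_2_1]
                · linarith only [C.f22_4, C.f23_1, C.f33_4, C.o1, C.o2, s2, x48_2_1]
            · rcases d_t23 with ⟨x55_0_0, x55_0_1⟩ | ⟨x55_1_0, x55_1_1⟩
              · rcases d_tzpm with x56_0_0 | x56_1_0 | x56_2_0 | x56_3_0 | ⟨x56_4_0, x56_4_1⟩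
                · linarith only [x55_0_0, x56_0_0]
                · linarith only [C.f22_4, C.f22_6, C.f33_7, C.o1, s3, x56_1_0]
                · linarith only [x30_1_1, x56_2_0]
                · linarith only [C.f22_4, C.f33_4, C.o1, C.o2, s2, x56_3_0]
                · rcases d_p11_33B with x57_0_0 | x57_1_0 | x57_2_0 | x57_3_0 | x57_4_0
                  · linarith only [x30_1_0, x57_0_0]
                  · linarith only [C.f13_4, C.f22_1, C.f22_3, C.f33_1, C.f33_3, C.o0, s1, s2, x1_0_1, x2_0_1, x30_1_0, x56_4_0, x56_4_1, x57_1_0]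
                  · rcases d_f33_2 with ⟨x58_0_0, x58_0_1⟩ | ⟨x58_1_0, x58_1_1⟩
                    · linarith only [C.f11_0, C.f22_0, C.o0, s1, x57_2_0, x58_0_1]
                    · linarith only [C.f11_0, C.f22_1, C.f22_4, C.f33_4, C.o0, s1, s2, x56_4_0, x57_2_0, x58_1_1]
                  · linarith only [C.f11_0, C.f11_1, C.f22_4, s2, x30_1_1, x56_4_0, x57_3_0]
                  · linarith only [C.f11_0, C.f11_1, C.f11_2, C.f22_4, C.f22_6, C.f33_7, s3, x30_1_1, x56_4_1, x57_4_0]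
              · rcases d_p11_13B with x59_0_0 | x59_1_0 | x59_2_0 | x59_3_0 | x59_4_0 | x59_5_0
                · linarith only [x30_1_0, x59_0_0]
                · linarith only [C.o0, x30_1_0, x59_1_0]
                · linarith only [C.f22_1, C.f22_4, C.f33_1, C.f33_4, C.o0, C.o1, C.o2, s1, s2, x30_1_0, x59_2_0]
                · rcases d_p11_33A with x60_0_0 | x60_1_0 | x60_2_0 | x60_3_0 | x60_4_0
                  · linarith only [x30_1_0, x60_0_0]
                  · linarith only [C.f22_1, C.f22_4, C.f33_1, C.f33_4, C.o0, C.o1, s1, s2, x30_1_0, x60_1_0]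
                  · rcases d_f22_5 with ⟨x61_0_0, x61_0_1⟩ | ⟨x61_1_0, x61_1_1⟩
                    · linarith only [C.f11_0, C.f22_4, s1, x2_0_1, x30_1_1, x59_3_0, x60_2_0, x61_0_1]
                    · rcases d_tmzp with x62_0_0 | x62_1_0 | x62_2_0 | x62_3_0 | x62_4_0 | x62_5_0
                      · rcases d_f23_3 with ⟨x63_0_0, x63_0_1⟩ | ⟨x63_1_0, x63_1_1⟩ | ⟨x63_2_0, x63_2_1⟩
                        · rcases d_f23_7 with ⟨x64_0_0, x64_0_1⟩ | ⟨x64_1_0, x64_1_1⟩ | ⟨x64_2_0, x64_2_1⟩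
                          · linarith only [C.f22_0, C.f22_4, C.f23_5, C.f33_0, C.f33_3, C.o0, s1, s2, x30_1_1, x63_0_1, x64_0_1]
                          · rcases d_p11_23B with x65_0_0 | x65_1_0 | x65_2_0 | x65_3_0 | x65_4_0 | x65_5_0
                            · linarith only [x30_1_0, x65_0_0]
                            · linarith only [C.f22_0, C.f23_1, C.f33_0, C.o0, s1, x30_1_0, x63_0_1, x65_1_0]
                            · linarith only [C.f22_1, C.f22_4, C.f33_1, C.f33_4, C.o0, C.o1, C.o2, s1, s2, x30_1_0, x65_2_0]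
                            · linarith only [C.f11_0, C.f22_0, C.f33_0, C.o0, s1, x63_0_1, x65_3_0]
                            · linarith only [C.f11_0, C.f11_1, s2, x10_3_0, x30_1_1, x61_1_1, x64_1_1, x65_4_0]
                            · linarith only [C.f11_0, C.f11_1, C.f11_2, x30_1_1, x4_1_1, x55_1_1, x65_5_0]
                          · linarith only [C.f13_4, C.f22_4, C.f23_5, C.f33_4, C.o0, C.o2, s2, x1_0_1, x2_0_1, x30_1_1, x64_2_1]
                        · linarith only [C.f22_1, C.f23_0, C.f33_0, s1, s2, x10_3_0, x61_1_1, x62_0_0, x63_1_1]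
                        · linarith only [C.f13_4, C.f22_4, C.f23_1, C.f33_4, C.o0, C.o2, s2, x1_0_1, x2_0_1, x30_1_1, x63_2_1]
                      · linarith only [C.f11_0, s2, x10_3_0, x2_0_1, x55_1_0, x59_3_0, x61_1_1, x62_1_0]
                      · linarith only [C.f22_4, C.f33_4, C.o1, s2, x62_2_0]
                      · linarith only [x30_1_0, x62_3_0]
                      · linarith only [x30_1_1, x62_4_0]
                      · linarith only [x55_1_1, x62_5_0]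
                  · linarith only [C.a3, C.f11_0, C.f11_1, C.f22_4, s2, x2_0_1, x30_1_1, x59_3_0, x60_3_0]
                  · linarith only [C.f11_0, C.f11_1, C.f11_2, C.f22_4, C.f22_6, C.o2, s3, x30_1_1, x55_1_1, x60_4_0]
                · linarith only [C.f11_0, C.f11_1, C.o0, x1_0_1, x2_0_1, x30_1_1, x59_4_0]
                · linarith only [C.f11_0, C.f11_1, C.f11_2, x30_1_1, x3_1_1, x55_1_1, x59_5_0]
          · linarith only [C.f33_7, s3, x10_4_0]
    · linarith only [C.f13_0, C.f22_1, C.f22_4, C.f33_1, C.f33_4, C.o1, C.o2, s1, s2, x2_1_1]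
  · rcases d_f13_8 with ⟨x66_0_0, x66_0_1⟩ | ⟨x66_1_0, x66_1_1⟩
    · linarith only [C.b5, C.f13_7, C.f22_4, C.f33_4, C.o1, C.o2, s2, x1_1_1, x66_0_1]
    · rcases d_f23_10 with ⟨x67_0_0, x67_0_1⟩ | ⟨x67_1_0, x67_1_1⟩
      · rcases d_f23_7 with ⟨x68_0_0, x68_0_1⟩ | ⟨x68_1_0, x68_1_1⟩ | ⟨x68_2_0, x68_2_1⟩
        · rcases d_f23_3 with ⟨x69_0_0, x69_0_1⟩ | ⟨x69_1_0, x69_1_1⟩ | ⟨x69_2_0, x69_2_1⟩
          · linarith only [C.b3, C.f13_0, C.f13_3, C.f22_0, C.f22_4, C.f23_5, C.f33_0, C.f33_4, C.o0, C.o2, s1, s2, x1_1_1, x68_0_1, x69_0_1]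
          · linarith only [C.f13_0, C.f13_3, C.f22_1, C.f22_4, C.f23_5, C.f33_1, C.f33_4, C.o1, C.o2, s1, s2, x1_1_1, x68_0_1, x69_1_1]
          · linarith only [C.b3, C.f13_0, C.f13_3, C.f22_1, C.f22_4, C.f23_5, C.f33_1, C.f33_4, C.o0, C.o2, s1, s2, x1_1_1, x68_0_1, x69_2_1]
        · rcases d_t23 with ⟨x70_0_0, x70_0_1⟩ | ⟨x70_1_0, x70_1_1⟩
          · rcases d_tpmm with x71_0_0 | x71_1_0 | x71_2_0 | x71_3_0 | x71_4_0
            · linarith only [C.b0, C.o0, x71_0_0]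
            · linarith only [C.f13_0, C.f13_3, C.f22_4, C.f33_4, C.o1, C.o2, s2, x1_1_1, x71_1_0]
            · linarith only [C.f22_0, C.f33_0, C.o0, s1, x71_2_0]
            · linarith only [C.b5, C.f23_9, C.o0, x67_0_1, x68_1_1, x70_0_0, x71_3_0]
            · linarith only [C.f22_4, C.f22_6, C.f23_9, C.f33_7, C.o1, s3, x67_0_1, x68_1_1, x71_4_0]
          · linarith only [C.f23_9, C.o1, x67_0_1, x68_1_1, x70_1_1]
        · linarith only [C.f22_4, C.f23_5, C.f33_4, C.o1, C.o2, s2, x68_2_1]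
      · rcases d_p22_33A with x72_0_0 | x72_1_0 | x72_2_0 | x72_3_0 | x72_4_0
        · linarith only [e0, x72_0_0]
        · linarith only [C.b0, C.f22_1, C.f22_4, C.f33_1, C.f33_4, C.o0, C.o1, s1, s2, x72_1_0]
        · rcases d_t23 with ⟨x73_0_0, x73_0_1⟩ | ⟨x73_1_0, x73_1_1⟩
          · rcases d_f22_2 with ⟨x74_0_0, x74_0_1⟩ | ⟨x74_1_0, x74_1_1⟩
            · linarith only [C.f33_0, s1, x72_2_0, x74_0_1]
            · rcases d_f23_3 with ⟨x75_0_0, x75_0_1⟩ | ⟨x75_1_0, x75_1_1⟩ | ⟨x75_2_0, x75_2_1⟩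
              · rcases d_f23_7 with ⟨x76_0_0, x76_0_1⟩ | ⟨x76_1_0, x76_1_1⟩ | ⟨x76_2_0, x76_2_1⟩
                · linarith only [C.f13_0, C.f13_3, C.f22_0, C.f22_4, C.f23_5, C.f33_0, C.f33_4, C.o1, C.o2, s1, s2, x1_1_1, x75_0_1, x76_0_1]
                · rcases d_p13_23A with x77_0_0 | x77_1_0 | x77_2_0 | x77_3_0 | x77_4_0 | x77_5_0
                  · linarith only [e0, s1, x72_2_0, x74_1_1, x77_0_0]
                  · linarith only [C.b0, C.f22_1, C.f22_4, C.f33_1, C.f33_4, C.o0, C.o1, C.o2, s1, s2, x77_1_0]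
                  · linarith only [C.b0, C.f22_1, C.f23_1, C.f33_0, C.o0, C.o1, s1, x75_0_1, x77_2_0]
                  · rcases d_f13_2 with ⟨x78_0_0, x78_0_1⟩ | ⟨x78_1_0, x78_1_1⟩
                    · linarith only [C.f33_0, s1, x72_2_0, x75_0_1, x77_3_0, x78_0_1]
                    · linarith only [C.f13_0, C.f22_1, C.f22_4, C.f33_1, C.f33_4, C.o1, C.o2, s1, s2, x78_1_1]
                  · linarith only [C.f22_4, C.f33_4, C.o1, C.o2, s2, x1_1_1, x76_1_1, x77_4_0]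
                  · linarith only [C.o2, x66_1_1, x67_1_1, x77_5_0]
                · linarith only [C.f22_4, C.f23_5, C.f33_4, C.o1, C.o2, s2, x76_2_1]
              · rcases d_f23_7 with ⟨x79_0_0, x79_0_1⟩ | ⟨x79_1_0, x79_1_1⟩ | ⟨x79_2_0, x79_2_1⟩
                · linarith only [C.f13_0, C.f13_3, C.f22_1, C.f22_4, C.f23_5, C.f33_1, C.f33_4, C.o1, C.o2, s1, s2, x1_1_1, x75_1_1, x79_0_1]
                · rcases d_p11_23B with x80_0_0 | x80_1_0 | x80_2_0 | x80_3_0 | x80_4_0 | x80_5_0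
                  · rcases d_tzmp with x81_0_0 | x81_1_0 | x81_2_0 | x81_3_0
                    · linarith only [C.b3, C.f13_0, C.f13_3, C.f22_4, C.f33_4, C.o0, C.o2, s2, x1_1_1, x81_0_0]
                    · linarith only [C.f22_4, C.f33_4, s1, s2, x72_2_0, x73_0_0, x74_1_1, x81_1_0]
                    · linarith only [e0, x80_0_0, x81_2_0]
                    · rcases d_p23_33A with x82_0_0 | x82_1_0 | x82_2_0 | x82_3_0 | x82_4_0 | x82_5_0
                      · linarith only [C.b0, C.o0, x73_0_0, x82_0_0]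
                      · linarith only [C.b0, C.f22_1, C.f22_4, C.f33_1, C.f33_4, C.o0, C.o1, C.o2, s1, s2, x82_1_0]
                      · linarith only [C.b0, C.f22_1, C.f22_4, C.f33_1, C.f33_4, C.o0, C.o1, s1, s2, x82_2_0]
                      · linarith only [s1, x72_2_0, x73_0_0, x75_1_1, x82_3_0]
                      · linarith only [C.f22_4, s1, s2, x72_2_0, x73_0_0, x74_1_1, x79_1_1, x82_4_0]
                      · linarith only [C.f22_4, C.f22_6, C.o2, s3, x67_1_1, x81_3_0, x82_5_0]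
                  · linarith only [C.b0, C.o0, x73_0_0, x80_1_0]
                  · linarith only [C.b0, C.f22_1, C.f22_4, C.f33_1, C.f33_4, C.o0, C.o1, C.o2, s1, s2, x80_2_0]
                  · linarith only [C.f11_0, C.o0, x73_0_0, x75_1_1, x80_3_0]
                  · linarith only [C.b3, C.f11_0, C.f11_1, s1, x72_2_0, x73_0_0, x74_1_1, x79_1_1, x80_4_0]
                  · rcases d_p23_33A with x83_0_0 | x83_1_0 | x83_2_0 | x83_3_0 | x83_4_0 | x83_5_0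
                    · linarith only [C.b0, C.o0, x73_0_0, x83_0_0]
                    · linarith only [C.b0, C.f22_1, C.f22_4, C.f33_1, C.f33_4, C.o0, C.o1, C.o2, s1, s2, x83_1_0]
                    · linarith only [C.b0, C.f22_1, C.f22_4, C.f33_1, C.f33_4, C.o0, C.o1, s1, s2, x83_2_0]
                    · linarith only [s1, x72_2_0, x73_0_0, x75_1_1, x83_3_0]
                    · linarith only [C.f22_4, s1, s2, x72_2_0, x73_0_0, x74_1_1, x79_1_1, x83_4_0]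
                    · linarith only [C.b3, C.f11_0, C.f11_1, C.f11_2, C.f22_4, C.f22_6, C.o2, s3, x67_1_1, x80_5_0, x83_5_0]
                · linarith only [C.f22_4, C.f23_5, C.f33_4, C.o1, C.o2, s2, x79_2_1]
              · linarith only [C.f22_4, C.f23_1, C.f33_4, C.o1, C.o2, s2, x75_2_1]
          · rcases d_f23_3 with ⟨x84_0_0, x84_0_1⟩ | ⟨x84_1_0, x84_1_1⟩ | ⟨x84_2_0, x84_2_1⟩
            · rcases d_f23_7 with ⟨x85_0_0, x85_0_1⟩ | ⟨x85_1_0, x85_1_1⟩ | ⟨x85_2_0, x85_2_1⟩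
              · linarith only [C.f13_0, C.f13_3, C.f22_0, C.f22_4, C.f23_5, C.f33_0, C.f33_4, C.o1, C.o2, s1, s2, x1_1_1, x84_0_1, x85_0_1]
              · rcases d_p13_23A with x86_0_0 | x86_1_0 | x86_2_0 | x86_3_0 | x86_4_0 | x86_5_0
                · linarith only [C.b0, C.o0, x86_0_0]
                · linarith only [C.b0, C.f22_1, C.f22_4, C.f33_1, C.f33_4, C.o0, C.o1, C.o2, s1, s2, x86_1_0]
                · linarith only [C.b0, C.f22_1, C.f23_1, C.f33_0, C.o0, C.o1, s1, x84_0_1, x86_2_0]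
                · rcases d_f13_2 with ⟨x87_0_0, x87_0_1⟩ | ⟨x87_1_0, x87_1_1⟩
                  · linarith only [C.f33_0, s1, x72_2_0, x84_0_1, x86_3_0, x87_0_1]
                  · linarith only [C.f13_0, C.f22_1, C.f22_4, C.f33_1, C.f33_4, C.o1, C.o2, s1, s2, x87_1_1]
                · linarith only [C.f22_4, C.f33_4, C.o1, C.o2, s2, x1_1_1, x85_1_1, x86_4_0]
                · linarith only [C.o2, x66_1_1, x67_1_1, x86_5_0]
              · linarith only [C.f22_4, C.f23_5, C.f33_4, C.o1, C.o2, s2, x85_2_1]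
            · rcases d_f23_7 with ⟨x88_0_0, x88_0_1⟩ | ⟨x88_1_0, x88_1_1⟩ | ⟨x88_2_0, x88_2_1⟩
              · linarith only [C.f13_0, C.f13_3, C.f22_1, C.f22_4, C.f23_5, C.f33_1, C.f33_4, C.o1, C.o2, s1, s2, x1_1_1, x84_1_1, x88_0_1]
              · rcases d_p23_33A with x89_0_0 | x89_1_0 | x89_2_0 | x89_3_0 | x89_4_0 | x89_5_0
                · linarith only [C.a2, C.b0, C.o0, x89_0_0]
                · linarith only [C.b0, C.f22_1, C.f22_4, C.f33_1, C.f33_4, C.o0, C.o1, C.o2, s1, s2, x89_1_0]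
                · linarith only [C.b0, C.f22_1, C.f22_4, C.f33_1, C.f33_4, C.o0, C.o1, s1, s2, x89_2_0]
                · linarith only [C.a2, s1, x72_2_0, x84_1_1, x89_3_0]
                · linarith only [C.f22_4, C.o1, s2, x88_1_1, x89_4_0]
                · rcases d_tzmp with x90_0_0 | x90_1_0 | x90_2_0 | x90_3_0
                  · linarith only [C.b3, C.f13_0, C.f13_3, C.f22_4, C.f33_4, C.o0, C.o2, s2, x1_1_1, x90_0_0]
                  · linarith only [C.f22_4, C.f33_4, C.o1, s2, x90_1_0]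
                  · linarith only [x73_1_0, x90_2_0]
                  · linarith only [C.f22_4, C.f22_6, C.f33_7, s3, x67_1_1, x89_5_0, x90_3_0]
              · linarith only [C.f22_4, C.f23_5, C.f33_4, C.o1, C.o2, s2, x88_2_1]
            · linarith only [C.f22_4, C.f23_1, C.f33_4, C.o1, C.o2, s2, x84_2_1]
        · rcases d_t23 with ⟨x91_0_0, x91_0_1⟩ | ⟨x91_1_0, x91_1_1⟩
          · rcases d_f22_2 with ⟨x92_0_0, x92_0_1⟩ | ⟨x92_1_0, x92_1_1⟩
            · rcases d_tzmp with x93_0_0 | x93_1_0 | x93_2_0 | x93_3_0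
              · linarith only [C.b3, C.f13_0, C.f13_3, C.f22_4, C.f33_4, C.o0, C.o2, s2, x1_1_1, x93_0_0]
              · linarith only [C.f33_4, s2, x72_3_0, x93_1_0]
              · linarith only [C.f22_1, C.f33_0, C.o0, s1, x92_0_1, x93_2_0]
              · rcases d_tpmm with x94_0_0 | x94_1_0 | x94_2_0 | x94_3_0 | x94_4_0
                · linarith only [C.b0, C.o0, x94_0_0]
                · linarith only [C.f13_0, C.f13_3, C.f22_4, C.f33_4, C.o1, C.o2, s2, x1_1_1, x94_1_0]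
                · linarith only [C.f22_0, C.f33_0, C.o0, s1, x94_2_0]
                · linarith only [C.f22_1, C.f33_0, C.o0, s1, x92_0_1, x94_3_0]
                · linarith only [C.f22_4, C.f22_6, C.f33_7, s3, x93_3_0, x94_4_0]
            · rcases d_f23_3 with ⟨x95_0_0, x95_0_1⟩ | ⟨x95_1_0, x95_1_1⟩ | ⟨x95_2_0, x95_2_1⟩
              · rcases d_f23_7 with ⟨x96_0_0, x96_0_1⟩ | ⟨x96_1_0, x96_1_1⟩ | ⟨x96_2_0, x96_2_1⟩
                · linarith only [C.f13_0, C.f13_3, C.f22_0, C.f22_4, C.f23_5, C.f33_0, C.f33_4, C.o1, C.o2, s1, s2, x1_1_1, x95_0_1, x96_0_1]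
                · rcases d_f22_5 with ⟨x97_0_0, x97_0_1⟩ | ⟨x97_1_0, x97_1_1⟩
                  · linarith only [C.f13_0, C.f13_3, C.f22_4, C.f33_1, C.f33_4, C.o2, s1, s2, x1_1_1, x72_3_0, x92_1_1, x97_0_1]
                  · rcases d_p13_23A with x98_0_0 | x98_1_0 | x98_2_0 | x98_3_0 | x98_4_0 | x98_5_0
                    · linarith only [C.b0, C.o0, x98_0_0]
                    · linarith only [C.b0, C.f22_1, C.f22_4, C.f33_1, C.f33_4, C.o0, C.o1, C.o2, s1, s2, x98_1_0]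
                    · linarith only [C.b0, C.f22_1, C.f23_1, C.f33_0, C.o0, C.o1, s1, x95_0_1, x98_2_0]
                    · rcases d_f13_2 with ⟨x99_0_0, x99_0_1⟩ | ⟨x99_1_0, x99_1_1⟩
                      · rcases d_p23_33A with x100_0_0 | x100_1_0 | x100_2_0 | x100_3_0 | x100_4_0 | x100_5_0
                        · linarith only [C.b0, C.f22_1, C.f23_1, C.f33_0, C.o0, C.o1, s1, x100_0_0, x95_0_1]
                        · linarith only [C.b0, C.f22_1, C.f22_4, C.f33_1, C.f33_4, C.o0, C.o1, C.o2, s1, s2, x100_1_0]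
                        · linarith only [C.b0, C.f22_1, C.f22_4, C.f33_1, C.f33_4, C.o0, C.o1, s1, s2, x100_2_0]
                        · linarith only [C.f22_0, C.f33_0, s1, x100_3_0, x95_0_1]
                        · linarith only [s2, x100_4_0, x72_3_0, x96_1_1]
                        · rcases d_p13_22B with x101_0_0 | x101_1_0 | x101_2_0 | x101_3_0 | x101_4_0 | x101_5_0
                          · linarith only [C.b0, C.o0, x101_0_0]
                          · linarith only [C.b0, C.f22_1, C.f22_4, C.f33_1, C.f33_4, C.o0, C.o1, C.o2, s1, s2, x101_1_0]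
                          · linarith only [e0, x101_2_0]
                          · linarith only [C.f33_0, C.o0, s1, x101_3_0, x95_0_1, x98_3_0, x99_0_1]
                          · linarith only [C.f33_4, C.o1, C.o2, s2, x101_4_0, x1_1_1, x97_1_1]
                          · linarith only [C.o2, s3, x100_5_0, x101_5_0, x66_1_1, x67_1_1]
                      · linarith only [C.f13_0, C.f22_1, C.f22_4, C.f33_1, C.f33_4, C.o1, C.o2, s1, s2, x99_1_1]
                    · linarith only [C.f22_4, C.f33_4, C.o1, C.o2, s2, x1_1_1, x96_1_1, x98_4_0]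
                    · linarith only [C.o2, x66_1_1, x67_1_1, x98_5_0]
                · linarith only [C.f22_4, C.f23_5, C.f33_4, C.o1, C.o2, s2, x96_2_1]
              · rcases d_f23_7 with ⟨x102_0_0, x102_0_1⟩ | ⟨x102_1_0, x102_1_1⟩ | ⟨x102_2_0, x102_2_1⟩
                · linarith only [C.f13_0, C.f13_3, C.f22_1, C.f22_4, C.f23_5, C.f33_1, C.f33_4, C.o1, C.o2, s1, s2, x102_0_1, x1_1_1, x95_1_1]
                · rcases d_f22_5 with ⟨x103_0_0, x103_0_1⟩ | ⟨x103_1_0, x103_1_1⟩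
                  · linarith only [C.f13_0, C.f13_3, C.f22_4, C.f33_1, C.f33_4, C.o2, s1, s2, x103_0_1, x1_1_1, x72_3_0, x92_1_1]
                  · rcases d_p23_33A with x104_0_0 | x104_1_0 | x104_2_0 | x104_3_0 | x104_4_0 | x104_5_0
                    · linarith only [C.b0, C.o0, x104_0_0, x91_0_0]
                    · linarith only [C.b0, C.f22_1, C.f22_4, C.f33_1, C.f33_4, C.o0, C.o1, C.o2, s1, s2, x104_1_0]
                    · linarith only [C.b0, C.f22_1, C.f22_4, C.f33_1, C.f33_4, C.o0, C.o1, s1, s2, x104_2_0]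
                    · linarith only [C.f22_1, C.o1, s1, x104_3_0, x91_0_0, x95_1_1]
                    · linarith only [s2, x102_1_1, x104_4_0, x72_3_0]
                    · rcases d_p13_22B with x105_0_0 | x105_1_0 | x105_2_0 | x105_3_0 | x105_4_0 | x105_5_0
                      · linarith only [C.b0, C.o0, x105_0_0]
                      · linarith only [C.b0, C.f22_1, C.f22_4, C.f33_1, C.f33_4, C.o0, C.o1, C.o2, s1, s2, x105_1_0]
                      · linarith only [e0, x105_2_0]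
                      · rcases d_f13_2 with ⟨x106_0_0, x106_0_1⟩ | ⟨x106_1_0, x106_1_1⟩
                        · rcases d_p11_23B with x107_0_0 | x107_1_0 | x107_2_0 | x107_3_0 | x107_4_0 | x107_5_0
                          · linarith only [C.o0, e0, x105_3_0, x106_0_1, x107_0_0, x92_1_1]
                          · linarith only [C.b0, C.o0, x107_1_0, x91_0_0]
                          · linarith only [C.b0, C.f33_1, C.o0, C.o2, s1, x105_3_0, x106_0_1, x107_2_0]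
                          · linarith only [C.f11_0, C.o0, x107_3_0, x91_0_0, x95_1_1]
                          · linarith only [C.f11_0, C.f11_1, C.f13_3, C.f33_1, C.o0, C.o2, s1, x102_1_1, x105_3_0, x106_0_1, x107_4_0, x1_1_1, x91_0_0, x92_1_1]
                          · linarith only [C.b5, C.f11_0, C.f11_1, C.f11_2, C.f13_3, C.f33_1, C.o0, C.o2, s1, x105_3_0, x106_0_1, x107_5_0, x1_1_1, x67_1_1, x92_1_1]
                        · linarith only [C.f13_0, C.f33_1, C.o0, C.o2, s1, x105_3_0, x106_1_1]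
                      · linarith only [C.f33_4, C.o1, C.o2, s2, x103_1_1, x105_4_0, x1_1_1]
                      · linarith only [C.o2, s3, x104_5_0, x105_5_0, x66_1_1, x67_1_1]
                · linarith only [C.f22_4, C.f23_5, C.f33_4, C.o1, C.o2, s2, x102_2_1]
              · linarith only [C.f22_4, C.f23_1, C.f33_4, C.o1, C.o2, s2, x95_2_1]
          · rcases d_f23_3 with ⟨x108_0_0, x108_0_1⟩ | ⟨x108_1_0, x108_1_1⟩ | ⟨x108_2_0, x108_2_1⟩
            · rcases d_f23_7 with ⟨x109_0_0, x109_0_1⟩ | ⟨x109_1_0, x109_1_1⟩ | ⟨x109_2_0, x109_2_1⟩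
              · linarith only [C.f13_0, C.f13_3, C.f22_0, C.f22_4, C.f23_5, C.f33_0, C.f33_4, C.o1, C.o2, s1, s2, x108_0_1, x109_0_1, x1_1_1]
              · rcases d_p13_23A with x110_0_0 | x110_1_0 | x110_2_0 | x110_3_0 | x110_4_0 | x110_5_0
                · linarith only [C.b0, C.o0, x110_0_0]
                · linarith only [C.b0, C.f22_1, C.f22_4, C.f33_1, C.f33_4, C.o0, C.o1, C.o2, s1, s2, x110_1_0]
                · linarith only [C.b0, C.f22_1, C.f23_1, C.f33_0, C.o0, C.o1, s1, x108_0_1, x110_2_0]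
                · rcases d_f13_2 with ⟨x111_0_0, x111_0_1⟩ | ⟨x111_1_0, x111_1_1⟩
                  · rcases d_tpmz with x112_0_0 | x112_1_0 | x112_2_0 | x112_3_0 | x112_4_0 | x112_5_0
                    · linarith only [C.b0, C.o0, x112_0_0]
                    · linarith only [C.f13_0, C.f13_3, C.f22_4, C.f33_4, C.o1, C.o2, s2, x112_1_0, x1_1_1]
                    · linarith only [C.f22_4, C.f33_4, C.o1, s2, x112_2_0]
                    · linarith only [C.f22_0, C.f33_0, C.o0, s1, x112_3_0]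
                    · linarith only [C.f22_1, C.f33_0, C.o0, s1, x108_0_1, x110_3_0, x111_0_1, x112_4_0]
                    · linarith only [x112_5_0, x91_1_1]
                  · linarith only [C.f13_0, C.f22_1, C.f22_4, C.f33_1, C.f33_4, C.o1, C.o2, s1, s2, x111_1_1]
                · linarith only [C.f22_4, C.f33_4, C.o1, C.o2, s2, x109_1_1, x110_4_0, x1_1_1]
                · linarith only [C.o2, x110_5_0, x66_1_1, x67_1_1]
              · linarith only [C.f22_4, C.f23_5, C.f33_4, C.o1, C.o2, s2, x109_2_1]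
            · rcases d_f23_7 with ⟨x113_0_0, x113_0_1⟩ | ⟨x113_1_0, x113_1_1⟩ | ⟨x113_2_0, x113_2_1⟩
              · linarith only [C.f13_0, C.f13_3, C.f22_1, C.f22_4, C.f23_5, C.f33_1, C.f33_4, C.o1, C.o2, s1, s2, x108_1_1, x113_0_1, x1_1_1]
              · rcases d_p23_33A with x114_0_0 | x114_1_0 | x114_2_0 | x114_3_0 | x114_4_0 | x114_5_0
                · linarith only [C.a2, C.b0, C.o0, x114_0_0]
                · linarith only [C.b0, C.f22_1, C.f22_4, C.f33_1, C.f33_4, C.o0, C.o1, C.o2, s1, s2, x114_1_0]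
                · linarith only [C.b0, C.f22_1, C.f22_4, C.f33_1, C.f33_4, C.o0, C.o1, s1, s2, x114_2_0]
                · linarith only [C.a2, C.f22_1, C.o1, s1, x108_1_1, x114_3_0]
                · linarith only [s2, x113_1_1, x114_4_0, x72_3_0]
                · rcases d_tzmp with x115_0_0 | x115_1_0 | x115_2_0 | x115_3_0
                  · linarith only [C.b3, C.f13_0, C.f13_3, C.f22_4, C.f33_4, C.o0, C.o2, s2, x115_0_0, x1_1_1]
                  · linarith only [C.f33_4, s2, x115_1_0, x72_3_0]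
                  · linarith only [x115_2_0, x91_1_0]
                  · linarith only [C.f22_4, C.f22_6, C.f33_7, s3, x114_5_0, x115_3_0, x67_1_1]
              · linarith only [C.f22_4, C.f23_5, C.f33_4, C.o1, C.o2, s2, x113_2_1]
            · linarith only [C.f22_4, C.f23_1, C.f33_4, C.o1, C.o2, s2, x108_2_1]
        · linarith only [C.f33_7, s3, x72_4_0]

end Pool.Agent.Helper89.TQ
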