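import Pool.Agent.Helper89.TQ.Ctx

set_option autoImplicit false
set_option linter.all false
set_option maxHeartbeats 4000000

namespace Pool.Agent.Helper89.TQ

theorem c3_22_23_23_k0 {n1 n2 n3 A1 A2 A3 B1 B2 B3 m11_1 m11_2 m11_3 m22_1 m22_2 m22_3 m23_1 m23_2 m23_3 m33_1 m33_2 m33_3 : ℤ}
    (C : Ctx3 n1 n2 n3 A1 A2 A3 B1 B2 B3 m11_1 m11_2 m11_3 m22_1 m22_2 m22_3 m23_1 m23_2 m23_3 m33_1 m33_2 m33_3)
    (e0 : 0 < B2)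
    (e1 : 0 < A2)
    (e2 : 0 < B3)
    (s1 : 0 * A1 + 3 * B1 ≤ m22_1 + m23_1 + m23_1)
    (s2 : 0 * A2 + 3 * B2 ≤ m22_2 + m23_2 + m23_2)
    (s3 : 0 * A3 + 3 * B3 ≤ m22_3 + m23_3 + m23_3) : False := by
  have d_t12 : (-A1 + 1 ≤ 0 ∧ -A1 + A2 - n2 + 1 ≤ 0) ∨ (-B1 + 1 ≤ 0 ∧ -B1 + B2 - n2 + 1 ≤ 0) := by
    have h := C.t12
    omega
  have d_f22_5 : (-m22_1 + m22_2 - n2 ≤ 0 ∧ m22_1 - m22_2 + n2 ≤ 0) ∨ (-B2 + m22_2 + 1 ≤ 0 ∧ B2 - m22_2 - 1 ≤ 0) := by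
    have h := C.f22_5
    omega
  have d_p11_23B : B1 ≤ 0 ∨ A2 ≤ 0 ∨ B3 ≤ 0 ∨ (-2) * B1 + m11_1 + m23_1 + 1 ≤ 0 ∨ (-2) * B2 + m11_2 + m23_2 + 1 ≤ 0 ∨ (-2) * B3 + m11_3 + m23_3 + 1 ≤ 0 := by
    have h := C.p11_23B
    omega
  have d_p22_23B : B2 ≤ 0 ∨ A2 ≤ 0 ∨ B3 ≤ 0 ∨ (-2) * B1 + m22_1 + m23_1 + 1 ≤ 0 ∨ (-2) * B2 + m22_2 + m23_2 + 1 ≤ 0 ∨ (-2) * B3 + m22_3 + m23_3 + 1 ≤ 0 := by
    have h := C.p22_23B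
    omega
  rcases d_t12 with ⟨x1_0_0, x1_0_1⟩ | ⟨x1_1_0, x1_1_1⟩
  · rcases d_p11_23B with x2_0_0 | x2_1_0 | x2_2_0 | x2_3_0 | x2_4_0 | x2_5_0
    · linarith only [C.o0, x1_0_0, x2_0_0]
    · linarith only [C.f22_1, C.f23_1, C.o0, C.o1, s1, x1_0_0, x2_1_0]
    · linarith only [C.f22_1, C.f22_4, C.f23_2, C.f23_6, C.o0, s1, s2, x1_0_0, x2_2_0]
    · rcases d_p22_23B with x3_0_0 | x3_1_0 | x3_2_0 | x3_3_0 | x3_4_0 | x3_5_0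
      · linarith only [C.b2, C.o0, x1_0_0, x3_0_0]
      · linarith only [C.f22_1, C.f23_1, C.o0, C.o1, s1, x1_0_0, x3_1_0]
      · linarith only [C.f22_1, C.f22_4, C.f23_2, C.f23_6, C.o0, s1, s2, x1_0_0, x3_2_0]
      · linarith only [C.f11_0, s1, x2_3_0, x3_3_0]
      · rcases d_f22_5 with ⟨x4_0_0, x4_0_1⟩ | ⟨x4_1_0, x4_1_1⟩
        · linarith only [C.f11_0, C.o0, C.o1, s1, s2, x1_0_1, x2_3_0, x3_4_0, x4_0_1]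
        · linarith only [s2, x3_4_0, x4_1_1]
      · linarith only [C.f23_9, s3, x3_5_0]
    · linarith only [C.f11_0, C.f11_1, C.f22_4, C.o0, C.o1, s2, x1_0_1, x2_4_0]
    · linarith only [C.f11_0, C.f11_1, C.f11_2, C.f22_4, C.f22_6, C.f23_5, C.f23_8, C.o0, C.o1, s3, x1_0_1, x2_5_0]
  · rcases d_p11_23B with x5_0_0 | x5_1_0 | x5_2_0 | x5_3_0 | x5_4_0 | x5_5_0
    · linarith only [x1_1_0, x5_0_0]
    · linarith only [C.o1, e0, x5_1_0]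
    · linarith only [C.a4, C.o1, C.o2, e0, x5_2_0]
    · rcases d_p22_23B with x6_0_0 | x6_1_0 | x6_2_0 | x6_3_0 | x6_4_0 | x6_5_0
      · linarith only [C.f11_0, C.f22_1, s1, x1_1_0, x5_3_0, x6_0_0]
      · linarith only [C.o1, e0, x6_1_0]
      · linarith only [C.a4, C.o1, C.o2, e0, x6_2_0]
      · linarith only [C.f11_0, s1, x5_3_0, x6_3_0]
      · rcases d_f22_5 with ⟨x7_0_0, x7_0_1⟩ | ⟨x7_1_0, x7_1_1⟩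
        · linarith only [C.a3, C.f11_0, C.f23_5, C.o0, s1, s2, x5_3_0, x6_4_0, x7_0_1]
        · linarith only [s2, x6_4_0, x7_1_1]
      · linarith only [C.f23_9, s3, x6_5_0]
    · linarith only [C.a3, C.f11_0, C.f11_1, C.f22_4, C.o0, C.o1, s2, x5_4_0]
    · linarith only [C.a3, C.f11_0, C.f11_1, C.f11_2, C.f22_4, C.f22_6, C.f23_5, C.f23_8, C.o0, C.o1, s3, x5_5_0]

theorem c3_22_23_23_k1 {n1 n2 n3 A1 A2 A3 B1 B2 B3 m11_1 m11_2 m11_3 m22_1 m22_2 m22_3 m23_1 m23_2 m23_3 m33_1 m33_2 m33_3 : ℤ}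
    (C : Ctx3 n1 n2 n3 A1 A2 A3 B1 B2 B3 m11_1 m11_2 m11_3 m22_1 m22_2 m22_3 m23_1 m23_2 m23_3 m33_1 m33_2 m33_3)
    (e0 : 0 < B2)
    (e1 : 0 < A2)
    (e2 : 0 < B3)
    (s1 : 1 * A1 + 2 * B1 ≤ m22_1 + m23_1 + m23_1)
    (s2 : 1 * A2 + 2 * B2 ≤ m22_2 + m23_2 + m23_2)
    (s3 : 1 * A3 + 2 * B3 ≤ m22_3 + m23_3 + m23_3) : False := by
  have d_f22_2 : (m22_1 - n1 ≤ 0 ∧ -m22_1 + n1 ≤ 0) ∨ (-B2 + m22_1 + 1 ≤ 0 ∧ B2 - m22_1 - 1 ≤ 0) := by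
    have h := C.f22_2
    omega
  have d_p22_23B : B2 ≤ 0 ∨ A2 ≤ 0 ∨ B3 ≤ 0 ∨ (-2) * B1 + m22_1 + m23_1 + 1 ≤ 0 ∨ (-2) * B2 + m22_2 + m23_2 + 1 ≤ 0 ∨ (-2) * B3 + m22_3 + m23_3 + 1 ≤ 0 := by
    have h := C.p22_23B
    omega
  have d_tzpm : -A1 + A2 ≤ 0 ∨ A2 - A3 + n3 - 1 ≤ 0 ∨ B1 - B2 + n2 ≤ 0 ∨ -B2 + B3 - 1 ≤ 0 ∨ -A3 + B3 - 1 ≤ 0 ∨ A2 - B2 - 1 ≤ 0 := by
    have h := C.tzpm
    omega
  rcases d_f22_2 with ⟨x1_0_0, x1_0_1⟩ | ⟨x1_1_0, x1_1_1⟩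
  · rcases d_p22_23B with x2_0_0 | x2_1_0 | x2_2_0 | x2_3_0 | x2_4_0 | x2_5_0
    · linarith only [e0, x2_0_0]
    · linarith only [C.o1, e0, x2_1_0]
    · linarith only [C.a4, C.o1, C.o2, e0, x2_2_0]
    · linarith only [C.f23_0, C.o0, s1, x1_0_1, x2_3_0]
    · linarith only [C.f23_5, s2, x2_4_0]
    · rcases d_tzpm with x3_0_0 | x3_1_0 | x3_2_0 | x3_3_0 | x3_4_0 | x3_5_0
      · linarith only [C.a1, C.f22_1, C.f22_4, C.f23_5, s2, x1_0_1, x3_0_0]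
      · linarith only [C.f22_4, C.f22_6, C.f23_9, C.o1, s3, x3_1_0]
      · linarith only [C.a3, C.o0, C.o1, x3_2_0]
      · linarith only [C.a4, C.f22_4, C.f23_5, C.f23_9, s2, s3, x2_5_0, x3_3_0]
      · linarith only [C.f23_9, s3, x2_5_0, x3_4_0]
      · linarith only [C.f22_4, C.f23_5, s2, x3_5_0]
  · rcases d_p22_23B with x4_0_0 | x4_1_0 | x4_2_0 | x4_3_0 | x4_4_0 | x4_5_0
    · linarith only [e0, x4_0_0]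
    · linarith only [C.o1, e0, x4_1_0]
    · linarith only [C.a4, C.o1, C.o2, e0, x4_2_0]
    · linarith only [C.b2, C.o0, s1, x1_1_1, x4_3_0]
    · linarith only [C.f23_5, s2, x4_4_0]
    · rcases d_tzpm with x5_0_0 | x5_1_0 | x5_2_0 | x5_3_0 | x5_4_0 | x5_5_0
      · linarith only [C.f22_1, C.f23_1, C.o0, C.o1, s1, x5_0_0]
      · linarith only [C.f22_4, C.f22_6, C.f23_9, C.o1, s3, x5_1_0]
      · linarith only [C.a3, C.o0, C.o1, x5_2_0]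
      · linarith only [C.a4, C.f22_4, C.f23_5, C.f23_9, s2, s3, x4_5_0, x5_3_0]
      · linarith only [C.f23_9, s3, x4_5_0, x5_4_0]
      · linarith only [C.f22_4, C.f23_5, s2, x5_5_0]

theorem c3_22_23_23_k2 {n1 n2 n3 A1 A2 A3 B1 B2 B3 m11_1 m11_2 m11_3 m22_1 m22_2 m22_3 m23_1 m23_2 m23_3 m33_1 m33_2 m33_3 : ℤ}
    (C : Ctx3 n1 n2 n3 A1 A2 A3 B1 B2 B3 m11_1 m11_2 m11_3 m22_1 m22_2 m22_3 m23_1 m23_2 m23_3 m33_1 m33_2 m33_3)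
    (e0 : 0 < B2)
    (e1 : 0 < A2)
    (e2 : 0 < B3)
    (s1 : 2 * A1 + 1 * B1 ≤ m22_1 + m23_1 + m23_1)
    (s2 : 2 * A2 + 1 * B2 ≤ m22_2 + m23_2 + m23_2)
    (s3 : 2 * A3 + 1 * B3 ≤ m22_3 + m23_3 + m23_3) : False := by

  linarith only [C.f22_4, C.f23_5, s2]

theorem c3_22_23_23_k3 {n1 n2 n3 A1 A2 A3 B1 B2 B3 m11_1 m11_2 m11_3 m22_1 m22_2 m22_3 m23_1 m23_2 m23_3 m33_1 m33_2 m33_3 : ℤ}
    (C : Ctx3 n1 n2 n3 A1 A2 A3 B1 B2 B3 m11_1 m11_2 m11_3 m22_1 m22_2 m22_3 m23_1 m23_2 m23_3 m33_1 m33_2 m33_3)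
    (e0 : 0 < B2)
    (e1 : 0 < A2)
    (e2 : 0 < B3)
    (s1 : 3 * A1 + 0 * B1 ≤ m22_1 + m23_1 + m23_1)
    (s2 : 3 * A2 + 0 * B2 ≤ m22_2 + m23_2 + m23_2)
    (s3 : 3 * A3 + 0 * B3 ≤ m22_3 + m23_3 + m23_3) : False := by

  linarith only [C.f22_4, C.f23_5, C.o1, s2]

theorem c3_22_23_33_k0 {n1 n2 n3 A1 A2 A3 B1 B2 B3 m11_1 m11_2 m11_3 m22_1 m22_2 m22_3 m23_1 m23_2 m23_3 m33_1 m33_2 m33_3 : ℤ}
    (C : Ctx3 n1 n2 n3 A1 A2 A3 B1 B2 B3 m11_1 m11_2 m11_3 m22_1 m22_2 m22_3 m23_1 m23_2 m23_3 m33_1 m33_2 m33_3)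
    (e0 : 0 < B2)
    (e1 : 0 < A2)
    (e2 : 0 < B3)
    (e3 : 0 < A3)
    (s1 : 0 * A1 + 3 * B1 ≤ m22_1 + m23_1 + m33_1)
    (s2 : 0 * A2 + 3 * B2 ≤ m22_2 + m23_2 + m33_2)
    (s3 : 0 * A3 + 3 * B3 ≤ m22_3 + m23_3 + m33_3) : False := by
  have d_t12 : (-A1 + 1 ≤ 0 ∧ -A1 + A2 - n2 + 1 ≤ 0) ∨ (-B1 + 1 ≤ 0 ∧ -B1 + B2 - n2 + 1 ≤ 0) := by
    have h := C.t12
    omega
  have d_f22_2 : (m22_1 - n1 ≤ 0 ∧ -m22_1 + n1 ≤ 0) ∨ (-B2 + m22_1 + 1 ≤ 0 ∧ B2 - m22_1 - 1 ≤ 0) := by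
    have h := C.f22_2
    omega
  have d_f22_5 : (-m22_1 + m22_2 - n2 ≤ 0 ∧ m22_1 - m22_2 + n2 ≤ 0) ∨ (-B2 + m22_2 + 1 ≤ 0 ∧ B2 - m22_2 - 1 ≤ 0) := by
    have h := C.f22_5
    omega
  have d_f23_3 : (m23_1 - n1 ≤ 0 ∧ -m23_1 + n1 ≤ 0) ∨ (-A2 + m23_1 + 1 ≤ 0 ∧ A2 - m23_1 - 1 ≤ 0) ∨ (-B3 + m23_1 + 1 ≤ 0 ∧ B3 - m23_1 - 1 ≤ 0) := by
    have h := C.f23_3
    omega
  have d_f23_7 : (-m23_1 + m23_2 - n2 ≤ 0 ∧ m23_1 - m23_2 + n2 ≤ 0) ∨ (-A2 + m23_2 + 1 ≤ 0 ∧ A2 - m23_2 - 1 ≤ 0) ∨ (-B3 + m23_2 + 1 ≤ 0 ∧ B3 - m23_2 - 1 ≤ 0) := by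
    have h := C.f23_7
    omega
  have d_f33_2 : (m33_1 - n1 ≤ 0 ∧ -m33_1 + n1 ≤ 0) ∨ (-A3 + m33_1 + 1 ≤ 0 ∧ A3 - m33_1 - 1 ≤ 0) := by
    have h := C.f33_2
    omega
  have d_p11_23B : B1 ≤ 0 ∨ A2 ≤ 0 ∨ B3 ≤ 0 ∨ (-2) * B1 + m11_1 + m23_1 + 1 ≤ 0 ∨ (-2) * B2 + m11_2 + m23_2 + 1 ≤ 0 ∨ (-2) * B3 + m11_3 + m23_3 + 1 ≤ 0 := by
    have h := C.p11_23B
    omega
  have d_p11_33B : B1 ≤ 0 ∨ A3 ≤ 0 ∨ (-2) * B1 + m11_1 + m33_1 + 1 ≤ 0 ∨ (-2) * B2 + m11_2 + m33_2 + 1 ≤ 0 ∨ (-2) * B3 + m11_3 + m33_3 + 1 ≤ 0 := by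
    have h := C.p11_33B
    omega
  have d_p22_23B : B2 ≤ 0 ∨ A2 ≤ 0 ∨ B3 ≤ 0 ∨ (-2) * B1 + m22_1 + m23_1 + 1 ≤ 0 ∨ (-2) * B2 + m22_2 + m23_2 + 1 ≤ 0 ∨ (-2) * B3 + m22_3 + m23_3 + 1 ≤ 0 := by
    have h := C.p22_23B
    omega
  have d_p22_33B : B2 ≤ 0 ∨ A3 ≤ 0 ∨ (-2) * B1 + m22_1 + m33_1 + 1 ≤ 0 ∨ (-2) * B2 + m22_2 + m33_2 + 1 ≤ 0 ∨ (-2) * B3 + m22_3 + m33_3 + 1 ≤ 0 := by
    have h := C.p22_33B
    omega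
  rcases d_f22_5 with ⟨x1_0_0, x1_0_1⟩ | ⟨x1_1_0, x1_1_1⟩
  · rcases d_f22_2 with ⟨x2_0_0, x2_0_1⟩ | ⟨x2_1_0, x2_1_1⟩
    · linarith only [C.f22_4, C.f23_0, C.f23_4, C.f33_0, C.f33_3, s2, x1_0_1, x2_0_1]
    · linarith only [C.a3, C.b2, C.f22_4, C.o0, C.o1, x1_0_1, x2_1_1]
  · rcases d_f23_7 with ⟨x3_0_0, x3_0_1⟩ | ⟨x3_1_0, x3_1_1⟩ | ⟨x3_2_0, x3_2_1⟩
    · rcases d_f23_3 with ⟨x4_0_0, x4_0_1⟩ | ⟨x4_1_0, x4_1_1⟩ | ⟨x4_2_0, x4_2_1⟩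
      · linarith only [C.a3, C.f22_0, C.f23_5, C.f33_0, C.o0, s1, x3_0_1, x4_0_1]
      · linarith only [C.a3, C.b2, C.f23_5, C.o0, C.o1, x3_0_1, x4_1_1]
      · linarith only [C.a3, C.a4, C.f22_1, C.f23_5, C.f33_1, C.o0, C.o1, C.o2, s1, x3_0_1, x4_2_1]
    · rcases d_t12 with ⟨x5_0_0, x5_0_1⟩ | ⟨x5_1_0, x5_1_1⟩
      · rcases d_p11_23B with x6_0_0 | x6_1_0 | x6_2_0 | x6_3_0 | x6_4_0 | x6_5_0
        · linarith only [C.o0, x5_0_0, x6_0_0]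
        · linarith only [C.b2, C.o0, C.o1, x5_0_0, x6_1_0]
        · linarith only [C.f22_1, C.f22_4, C.f23_2, C.f23_6, C.f33_1, C.f33_4, C.o0, C.o2, s1, s2, x5_0_0, x6_2_0]
        · rcases d_p11_33B with x7_0_0 | x7_1_0 | x7_2_0 | x7_3_0 | x7_4_0
          · linarith only [C.o0, x5_0_0, x7_0_0]
          · linarith only [C.a4, C.f22_1, C.f22_4, C.f23_1, C.f23_5, C.f33_1, C.f33_4, C.o0, s1, s2, x5_0_0, x7_1_0]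
          · rcases d_p22_23B with x8_0_0 | x8_1_0 | x8_2_0 | x8_3_0 | x8_4_0 | x8_5_0
            · linarith only [C.f11_0, C.f22_1, C.o0, s1, x5_0_0, x6_3_0, x7_2_0, x8_0_0]
            · linarith only [C.f11_0, C.f22_1, C.f23_1, C.o0, C.o1, s1, x5_0_0, x7_2_0, x8_1_0]
            · linarith only [C.f22_1, C.f22_4, C.f23_2, C.f23_6, C.f33_1, C.f33_4, C.o0, C.o2, s1, s2, x5_0_0, x8_2_0]
            · linarith only [C.f11_0, s1, x7_2_0, x8_3_0]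
            · rcases d_p22_33B with x9_0_0 | x9_1_0 | x9_2_0 | x9_3_0 | x9_4_0
              · linarith only [e0, x9_0_0]
              · linarith only [C.a4, C.o1, e0, x9_1_0]
              · linarith only [C.f11_0, s1, x6_3_0, x9_2_0]
              · linarith only [s2, x1_1_1, x8_4_0, x9_3_0]
              · linarith only [C.f23_9, s3, x9_4_0]
            · linarith only [C.f33_7, C.o2, s3, x8_5_0]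
          · linarith only [C.f11_0, C.f11_1, C.f22_4, C.f23_5, C.o0, s2, x5_0_1, x7_3_0]
          · linarith only [C.f11_0, C.f11_1, C.f11_2, C.f22_4, C.f22_6, C.f23_9, C.o0, C.o1, s3, x5_0_1, x7_4_0]
        · linarith only [C.f11_0, C.f11_1, C.o0, C.o1, x3_1_1, x5_0_1, x6_4_0]
        · linarith only [C.f11_0, C.f11_1, C.f11_2, C.f22_4, C.f22_6, C.f33_7, C.o0, C.o1, C.o2, s3, x5_0_1, x6_5_0]
      · rcases d_p11_33B with x10_0_0 | x10_1_0 | x10_2_0 | x10_3_0 | x10_4_0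
        · linarith only [x10_0_0, x5_1_0]
        · linarith only [C.a4, C.o1, e0, x10_1_0]
        · rcases d_f33_2 with ⟨x11_0_0, x11_0_1⟩ | ⟨x11_1_0, x11_1_1⟩
          · rcases d_p22_23B with x12_0_0 | x12_1_0 | x12_2_0 | x12_3_0 | x12_4_0 | x12_5_0
            · linarith only [e0, x12_0_0]
            · linarith only [C.o1, e0, x12_1_0]
            · linarith only [C.a4, C.o1, C.o2, e0, x12_2_0]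
            · linarith only [C.f11_0, s1, x10_2_0, x12_3_0]
            · rcases d_p22_33B with x13_0_0 | x13_1_0 | x13_2_0 | x13_3_0 | x13_4_0
              · linarith only [C.f11_0, C.f22_1, C.f23_1, s1, x10_2_0, x12_4_0, x13_0_0, x1_1_1, x3_1_1, x5_1_0]
              · linarith only [C.a4, C.f22_1, C.f23_1, C.f33_1, C.o1, s1, x13_1_0, x5_1_0]
              · linarith only [C.f11_0, C.f23_0, s1, x10_2_0, x11_0_1, x13_2_0]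
              · linarith only [s2, x12_4_0, x13_3_0, x1_1_1]
              · linarith only [C.f23_9, s3, x13_4_0]
            · linarith only [C.f33_7, C.o2, s3, x12_5_0]
          · linarith only [C.a4, C.f11_0, C.f22_1, C.f22_4, C.f23_1, C.f33_4, s1, s2, x10_2_0, x11_1_1, x3_1_0]
        · linarith only [C.a3, C.f11_0, C.f11_1, C.f22_4, C.f23_5, C.o0, s2, x10_3_0]
        · linarith only [C.a3, C.f11_0, C.f11_1, C.f11_2, C.f22_4, C.f22_6, C.f23_9, C.o0, C.o1, s3, x10_4_0]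
    · linarith only [C.a4, C.f23_5, C.o2, x3_2_1]

theorem c3_22_23_33_k1 {n1 n2 n3 A1 A2 A3 B1 B2 B3 m11_1 m11_2 m11_3 m22_1 m22_2 m22_3 m23_1 m23_2 m23_3 m33_1 m33_2 m33_3 : ℤ}
    (C : Ctx3 n1 n2 n3 A1 A2 A3 B1 B2 B3 m11_1 m11_2 m11_3 m22_1 m22_2 m22_3 m23_1 m23_2 m23_3 m33_1 m33_2 m33_3)
    (e0 : 0 < B2)
    (e1 : 0 < A2)
    (e2 : 0 < B3)
    (e3 : 0 < A3)
    (s1 : 1 * A1 + 2 * B1 ≤ m22_1 + m23_1 + m33_1)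
    (s2 : 1 * A2 + 2 * B2 ≤ m22_2 + m23_2 + m33_2)
    (s3 : 1 * A3 + 2 * B3 ≤ m22_3 + m23_3 + m33_3) : False := by
  have d_t12 : (-A1 + 1 ≤ 0 ∧ -A1 + A2 - n2 + 1 ≤ 0) ∨ (-B1 + 1 ≤ 0 ∧ -B1 + B2 - n2 + 1 ≤ 0) := by
    have h := C.t12
    omega
  have d_f22_2 : (m22_1 - n1 ≤ 0 ∧ -m22_1 + n1 ≤ 0) ∨ (-B2 + m22_1 + 1 ≤ 0 ∧ B2 - m22_1 - 1 ≤ 0) := by
    have h := C.f22_2
    omega
  have d_f22_5 : (-m22_1 + m22_2 - n2 ≤ 0 ∧ m22_1 - m22_2 + n2 ≤ 0) ∨ (-B2 + m22_2 + 1 ≤ 0 ∧ B2 - m22_2 - 1 ≤ 0) := by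
    have h := C.f22_5
    omega
  have d_f23_7 : (-m23_1 + m23_2 - n2 ≤ 0 ∧ m23_1 - m23_2 + n2 ≤ 0) ∨ (-A2 + m23_2 + 1 ≤ 0 ∧ A2 - m23_2 - 1 ≤ 0) ∨ (-B3 + m23_2 + 1 ≤ 0 ∧ B3 - m23_2 - 1 ≤ 0) := by
    have h := C.f23_7
    omega
  have d_f33_8 : (-m33_2 + m33_3 - n3 ≤ 0 ∧ m33_2 - m33_3 + n3 ≤ 0) ∨ (-A3 + m33_3 + 1 ≤ 0 ∧ A3 - m33_3 - 1 ≤ 0) := by
    have h := C.f33_8
    omega
  have d_p11_22B : B1 ≤ 0 ∨ B2 ≤ 0 ∨ (-2) * B1 + m11_1 + m22_1 + 1 ≤ 0 ∨ (-2) * B2 + m11_2 + m22_2 + 1 ≤ 0 ∨ (-2) * B3 + m11_3 + m22_3 + 1 ≤ 0 := by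
    have h := C.p11_22B
    omega
  have d_p11_23B : B1 ≤ 0 ∨ A2 ≤ 0 ∨ B3 ≤ 0 ∨ (-2) * B1 + m11_1 + m23_1 + 1 ≤ 0 ∨ (-2) * B2 + m11_2 + m23_2 + 1 ≤ 0 ∨ (-2) * B3 + m11_3 + m23_3 + 1 ≤ 0 := by
    have h := C.p11_23B
    omega
  have d_p22_33B : B2 ≤ 0 ∨ A3 ≤ 0 ∨ (-2) * B1 + m22_1 + m33_1 + 1 ≤ 0 ∨ (-2) * B2 + m22_2 + m33_2 + 1 ≤ 0 ∨ (-2) * B3 + m22_3 + m33_3 + 1 ≤ 0 := by
    have h := C.p22_33B
    omega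
  have d_p23_33A : A2 ≤ 0 ∨ B3 ≤ 0 ∨ A3 ≤ 0 ∨ (-2) * A1 + m23_1 + m33_1 + 1 ≤ 0 ∨ (-2) * A2 + m23_2 + m33_2 + 1 ≤ 0 ∨ (-2) * A3 + m23_3 + m33_3 + 1 ≤ 0 := by
    have h := C.p23_33A
    omega
  have d_tmpp : -A1 + n1 ≤ 0 ∨ -A1 + A2 - 1 ≤ 0 ∨ B1 ≤ 0 ∨ B1 - B2 + n2 - 1 ≤ 0 := by
    have h := C.tmpp
    omega
  have d_tzpm : -A1 + A2 ≤ 0 ∨ A2 - A3 + n3 - 1 ≤ 0 ∨ B1 - B2 + n2 ≤ 0 ∨ -B2 + B3 - 1 ≤ 0 ∨ -A3 + B3 - 1 ≤ 0 ∨ A2 - B2 - 1 ≤ 0 := by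
    have h := C.tzpm
    omega
  rcases d_f33_8 with ⟨x1_0_0, x1_0_1⟩ | ⟨x1_1_0, x1_1_1⟩
  · linarith only [C.f22_4, C.f22_6, C.f23_5, C.f23_9, C.f33_7, C.o2, s2, s3, x1_0_1]
  · rcases d_f22_5 with ⟨x2_0_0, x2_0_1⟩ | ⟨x2_1_0, x2_1_1⟩
    · rcases d_f22_2 with ⟨x3_0_0, x3_0_1⟩ | ⟨x3_1_0, x3_1_1⟩
      · linarith only [C.f22_4, C.f23_0, C.f23_4, C.f33_0, C.f33_3, C.o1, s2, x2_0_1, x3_0_1]
      · linarith only [C.a3, C.b2, C.f22_4, C.o0, C.o1, x2_0_1, x3_1_1]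
    · rcases d_p22_33B with x4_0_0 | x4_1_0 | x4_2_0 | x4_3_0 | x4_4_0
      · linarith only [e0, x4_0_0]
      · linarith only [C.f22_4, C.f23_5, C.f33_4, e0, s2, x4_1_0]
      · rcases d_t12 with ⟨x5_0_0, x5_0_1⟩ | ⟨x5_1_0, x5_1_1⟩
        · rcases d_tmpp with x6_0_0 | x6_1_0 | x6_2_0 | x6_3_0
          · linarith only [C.f23_0, s1, x4_2_0, x6_0_0]
          · linarith only [C.f23_1, s1, x4_2_0, x6_1_0]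
          · linarith only [C.o0, x5_0_0, x6_2_0]
          · linarith only [C.o0, C.o1, x5_0_1, x6_3_0]
        · rcases d_f23_7 with ⟨x7_0_0, x7_0_1⟩ | ⟨x7_1_0, x7_1_1⟩ | ⟨x7_2_0, x7_2_1⟩
          · linarith only [C.a3, C.f23_5, s1, x4_2_0, x7_0_1]
          · rcases d_p11_23B with x8_0_0 | x8_1_0 | x8_2_0 | x8_3_0 | x8_4_0 | x8_5_0
            · linarith only [x5_1_0, x8_0_0]
            · linarith only [C.f23_1, C.o0, s1, x4_2_0, x5_1_0, x8_1_0]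
            · linarith only [C.a4, C.o1, C.o2, e0, x8_2_0]
            · linarith only [C.f11_0, C.o0, s1, x4_2_0, x8_3_0]
            · linarith only [C.f11_0, C.f11_1, C.f22_3, C.f33_3, C.o1, s2, x4_2_0, x7_1_1, x8_4_0]
            · linarith only [C.f11_0, C.f11_1, C.f11_2, C.f22_3, C.f22_4, C.f22_6, C.f23_5, C.f33_3, C.f33_7, s2, s3, x4_2_0, x8_5_0]
          · linarith only [C.a4, C.f23_5, C.o2, x7_2_1]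
      · linarith only [C.f23_5, s2, x4_3_0]
      · rcases d_p23_33A with x9_0_0 | x9_1_0 | x9_2_0 | x9_3_0 | x9_4_0 | x9_5_0
        · linarith only [C.o1, e0, x9_0_0]
        · linarith only [C.a4, C.o1, C.o2, e0, x9_1_0]
        · linarith only [C.f22_4, C.f23_5, C.f33_4, e0, s2, x9_2_0]
        · rcases d_t12 with ⟨x10_0_0, x10_0_1⟩ | ⟨x10_1_0, x10_1_1⟩
          · rcases d_p11_22B with x11_0_0 | x11_1_0 | x11_2_0 | x11_3_0 | x11_4_0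
            · linarith only [C.o0, x10_0_0, x11_0_0]
            · linarith only [C.f22_1, C.o0, s1, x10_0_0, x11_1_0, x9_3_0]
            · linarith only [C.f11_0, C.o0, s1, x11_2_0, x9_3_0]
            · linarith only [C.f11_0, C.f11_1, C.o0, C.o1, x10_0_1, x11_3_0, x2_1_1]
            · linarith only [C.f11_0, C.f11_1, C.f11_2, C.f22_4, C.f22_6, C.f23_9, C.f33_7, C.o0, C.o1, s3, x10_0_1, x11_4_0]
          · rcases d_p11_22B with x12_0_0 | x12_1_0 | x12_2_0 | x12_3_0 | x12_4_0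
            · linarith only [x10_1_0, x12_0_0]
            · linarith only [C.f22_1, C.o0, s1, x10_1_0, x12_1_0, x9_3_0]
            · linarith only [C.f11_0, C.o0, s1, x12_2_0, x9_3_0]
            · linarith only [C.f11_0, C.f11_1, C.f23_4, C.f33_3, C.o0, C.o1, s2, x12_3_0, x2_1_1, x9_3_0]
            · linarith only [C.f11_0, C.f11_1, C.f11_2, C.f22_4, C.f22_6, C.f23_4, C.f23_9, C.f33_3, C.f33_7, C.o0, C.o1, s2, s3, x12_4_0, x9_3_0]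
        · rcases d_tzpm with x13_0_0 | x13_1_0 | x13_2_0 | x13_3_0 | x13_4_0 | x13_5_0
          · linarith only [C.b2, C.f22_4, C.o0, s2, x13_0_0, x9_4_0]
          · linarith only [C.f22_4, C.f22_6, C.f23_5, C.f23_8, C.f33_7, C.o1, C.o2, s3, x13_1_0]
          · linarith only [C.a3, C.o0, C.o1, x13_2_0]
          · linarith only [C.a4, C.f22_4, C.o2, s2, x13_3_0, x9_4_0]
          · linarith only [C.f23_9, s3, x13_4_0, x4_4_0]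
          · linarith only [C.f22_4, s2, x13_5_0, x9_4_0]
        · linarith only [s3, x1_1_1, x4_4_0, x9_5_0]

theorem c3_22_23_33_k2 {n1 n2 n3 A1 A2 A3 B1 B2 B3 m11_1 m11_2 m11_3 m22_1 m22_2 m22_3 m23_1 m23_2 m23_3 m33_1 m33_2 m33_3 : ℤ}
    (C : Ctx3 n1 n2 n3 A1 A2 A3 B1 B2 B3 m11_1 m11_2 m11_3 m22_1 m22_2 m22_3 m23_1 m23_2 m23_3 m33_1 m33_2 m33_3)
    (e0 : 0 < B2)
    (e1 : 0 < A2)
    (e2 : 0 < B3)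
    (e3 : 0 < A3)
    (s1 : 2 * A1 + 1 * B1 ≤ m22_1 + m23_1 + m33_1)
    (s2 : 2 * A2 + 1 * B2 ≤ m22_2 + m23_2 + m33_2)
    (s3 : 2 * A3 + 1 * B3 ≤ m22_3 + m23_3 + m33_3) : False := by
  have d_t12 : (-A1 + 1 ≤ 0 ∧ -A1 + A2 - n2 + 1 ≤ 0) ∨ (-B1 + 1 ≤ 0 ∧ -B1 + B2 - n2 + 1 ≤ 0) := by
    have h := C.t12
    omega
  have d_f22_2 : (m22_1 - n1 ≤ 0 ∧ -m22_1 + n1 ≤ 0) ∨ (-B2 + m22_1 + 1 ≤ 0 ∧ B2 - m22_1 - 1 ≤ 0) := by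
    have h := C.f22_2
    omega
  have d_f22_5 : (-m22_1 + m22_2 - n2 ≤ 0 ∧ m22_1 - m22_2 + n2 ≤ 0) ∨ (-B2 + m22_2 + 1 ≤ 0 ∧ B2 - m22_2 - 1 ≤ 0) := by
    have h := C.f22_5
    omega
  have d_f23_3 : (m23_1 - n1 ≤ 0 ∧ -m23_1 + n1 ≤ 0) ∨ (-A2 + m23_1 + 1 ≤ 0 ∧ A2 - m23_1 - 1 ≤ 0) ∨ (-B3 + m23_1 + 1 ≤ 0 ∧ B3 - m23_1 - 1 ≤ 0) := by
    have h := C.f23_3
    omega
  have d_f33_2 : (m33_1 - n1 ≤ 0 ∧ -m33_1 + n1 ≤ 0) ∨ (-A3 + m33_1 + 1 ≤ 0 ∧ A3 - m33_1 - 1 ≤ 0) := by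
    have h := C.f33_2
    omega
  have d_p11_33A : B1 ≤ 0 ∨ A3 ≤ 0 ∨ (-2) * A1 + m11_1 + m33_1 + 1 ≤ 0 ∨ (-2) * A2 + m11_2 + m33_2 + 1 ≤ 0 ∨ (-2) * A3 + m11_3 + m33_3 + 1 ≤ 0 := by
    have h := C.p11_33A
    omega
  have d_p22_23B : B2 ≤ 0 ∨ A2 ≤ 0 ∨ B3 ≤ 0 ∨ (-2) * B1 + m22_1 + m23_1 + 1 ≤ 0 ∨ (-2) * B2 + m22_2 + m23_2 + 1 ≤ 0 ∨ (-2) * B3 + m22_3 + m23_3 + 1 ≤ 0 := by
    have h := C.p22_23B
    omega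
  have d_p22_33A : B2 ≤ 0 ∨ A3 ≤ 0 ∨ (-2) * A1 + m22_1 + m33_1 + 1 ≤ 0 ∨ (-2) * A2 + m22_2 + m33_2 + 1 ≤ 0 ∨ (-2) * A3 + m22_3 + m33_3 + 1 ≤ 0 := by
    have h := C.p22_33A
    omega
  have d_p23_33A : A2 ≤ 0 ∨ B3 ≤ 0 ∨ A3 ≤ 0 ∨ (-2) * A1 + m23_1 + m33_1 + 1 ≤ 0 ∨ (-2) * A2 + m23_2 + m33_2 + 1 ≤ 0 ∨ (-2) * A3 + m23_3 + m33_3 + 1 ≤ 0 := by
    have h := C.p23_33A
    omega
  have d_tzmp : A1 - A2 + n2 ≤ 0 ∨ -A2 + A3 - 1 ≤ 0 ∨ -B1 + B2 ≤ 0 ∨ B2 - B3 + n3 - 1 ≤ 0 := by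
    have h := C.tzmp
    omega
  have d_tzpm : -A1 + A2 ≤ 0 ∨ A2 - A3 + n3 - 1 ≤ 0 ∨ B1 - B2 + n2 ≤ 0 ∨ -B2 + B3 - 1 ≤ 0 ∨ -A3 + B3 - 1 ≤ 0 ∨ A2 - B2 - 1 ≤ 0 := by
    have h := C.tzpm
    omega
  rcases d_f23_3 with ⟨x1_0_0, x1_0_1⟩ | ⟨x1_1_0, x1_1_1⟩ | ⟨x1_2_0, x1_2_1⟩
  · rcases d_t12 with ⟨x2_0_0, x2_0_1⟩ | ⟨x2_1_0, x2_1_1⟩
    · rcases d_p11_33A with x3_0_0 | x3_1_0 | x3_2_0 | x3_3_0 | x3_4_0
      · linarith only [C.o0, x2_0_0, x3_0_0]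
      · linarith only [C.f22_4, C.f23_5, C.f33_4, C.o1, e0, s2, x3_1_0]
      · rcases d_f33_2 with ⟨x4_0_0, x4_0_1⟩ | ⟨x4_1_0, x4_1_1⟩
        · rcases d_tzmp with x5_0_0 | x5_1_0 | x5_2_0 | x5_3_0
          · linarith only [x2_0_1, x5_0_0]
          · linarith only [C.f22_4, C.f23_5, C.f33_4, s2, x5_1_0]
          · linarith only [C.f11_0, C.f22_1, C.f23_0, C.o0, s1, x3_2_0, x4_0_1, x5_2_0]
          · rcases d_p23_33A with x6_0_0 | x6_1_0 | x6_2_0 | x6_3_0 | x6_4_0 | x6_5_0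
            · linarith only [C.o1, e0, x6_0_0]
            · linarith only [C.f22_4, C.f22_6, C.f23_6, C.f23_8, C.f33_4, C.f33_6, C.o1, e0, s2, s3, x5_3_0, x6_1_0]
            · linarith only [C.f22_4, C.f23_5, C.f33_4, C.o1, e0, s2, x6_2_0]
            · linarith only [C.f22_0, C.o0, s1, x1_0_1, x4_0_1, x6_3_0]
            · linarith only [C.f22_4, s2, x6_4_0]
            · linarith only [C.f22_4, C.f22_6, s3, x5_3_0, x6_5_0]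
        · linarith only [C.f22_4, C.f23_1, C.f23_5, C.f33_0, C.f33_4, s2, x1_0_1, x4_1_1]
      · linarith only [C.f11_0, C.f11_1, C.f22_4, C.f23_5, C.o0, s2, x2_0_1, x3_3_0]
      · linarith only [C.f11_0, C.f11_1, C.f11_2, C.f22_4, C.f22_6, C.f23_9, C.o0, C.o1, s3, x2_0_1, x3_4_0]
    · rcases d_p11_33A with x7_0_0 | x7_1_0 | x7_2_0 | x7_3_0 | x7_4_0
      · linarith only [x2_1_0, x7_0_0]
      · linarith only [C.f22_4, C.f23_5, C.f33_4, C.o1, e0, s2, x7_1_0]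
      · rcases d_p22_33A with x8_0_0 | x8_1_0 | x8_2_0 | x8_3_0 | x8_4_0
        · linarith only [C.b2, x2_1_0, x8_0_0]
        · linarith only [C.f22_4, C.f23_5, C.f33_4, C.o1, e0, s2, x8_1_0]
        · rcases d_f33_2 with ⟨x9_0_0, x9_0_1⟩ | ⟨x9_1_0, x9_1_1⟩
          · linarith only [C.f11_0, C.f23_0, C.o0, s1, x7_2_0, x8_2_0, x9_0_1]
          · linarith only [C.f22_4, C.f23_1, C.f23_5, C.f33_0, C.f33_4, s2, x1_0_1, x9_1_1]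
        · rcases d_p22_23B with x10_0_0 | x10_1_0 | x10_2_0 | x10_3_0 | x10_4_0 | x10_5_0
          · linarith only [C.b2, x10_0_0, x2_1_0]
          · linarith only [C.f11_0, C.f22_1, C.f23_1, C.o1, s1, x10_1_0, x2_1_0, x7_2_0]
          · linarith only [C.f22_4, C.f23_6, C.f33_4, C.o1, C.o2, e0, s2, x10_2_0]
          · linarith only [C.f11_0, s1, x10_3_0, x7_2_0]
          · rcases d_f22_5 with ⟨x11_0_0, x11_0_1⟩ | ⟨x11_1_0, x11_1_1⟩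
            · rcases d_f22_2 with ⟨x12_0_0, x12_0_1⟩ | ⟨x12_1_0, x12_1_1⟩
              · linarith only [C.f33_0, C.f33_3, C.o1, s2, x10_4_0, x11_0_1, x12_0_1, x8_3_0]
              · linarith only [C.f23_1, C.f33_0, C.f33_3, C.o1, s2, x10_4_0, x11_0_1, x12_1_1, x1_0_1, x8_3_0]
            · linarith only [s2, x10_4_0, x11_1_1, x8_3_0]
          · rcases d_tzpm with x13_0_0 | x13_1_0 | x13_2_0 | x13_3_0 | x13_4_0 | x13_5_0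
            · linarith only [C.f22_1, C.f23_1, C.f33_0, C.o0, C.o1, s1, x13_0_0, x1_0_1]
            · linarith only [C.f22_4, C.f22_6, C.f23_9, C.f33_7, C.o1, s3, x13_1_0]
            · linarith only [C.f11_0, C.f22_4, C.f23_5, C.f33_3, C.o0, C.o1, s2, x13_2_0, x7_2_0]
            · linarith only [C.f22_4, C.f23_5, C.f33_4, C.f33_7, C.o1, s2, s3, x10_5_0, x13_3_0]
            · linarith only [C.f33_7, s3, x10_5_0, x13_4_0]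
            · linarith only [C.f23_5, s2, x13_5_0, x8_3_0]
        · linarith only [C.f23_9, s3, x8_4_0]
      · linarith only [C.a3, C.f11_0, C.f11_1, C.f22_4, C.f23_5, C.o0, s2, x7_3_0]
      · linarith only [C.f11_0, C.f11_1, C.f11_2, C.f22_4, C.f22_6, C.f23_9, s3, x2_1_1, x7_4_0]
  · rcases d_p11_33A with x14_0_0 | x14_1_0 | x14_2_0 | x14_3_0 | x14_4_0
    · rcases d_t12 with ⟨x15_0_0, x15_0_1⟩ | ⟨x15_1_0, x15_1_1⟩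
      · linarith only [C.o0, x14_0_0, x15_0_0]
      · linarith only [x14_0_0, x15_1_0]
    · linarith only [C.f22_4, C.f23_5, C.f33_4, C.o1, e0, s2, x14_1_0]
    · rcases d_f33_2 with ⟨x16_0_0, x16_0_1⟩ | ⟨x16_1_0, x16_1_1⟩
      · linarith only [C.f11_0, C.f22_1, C.f23_0, C.o0, C.o1, s1, x14_2_0, x16_0_1, x1_1_1]
      · linarith only [C.f11_0, C.f22_1, C.f22_4, C.f23_1, C.f23_5, C.f33_4, C.o0, C.o1, s1, s2, x14_2_0, x16_1_1]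
    · linarith only [C.a3, C.f11_0, C.f11_1, C.f22_4, C.f23_5, C.o0, s2, x14_3_0]
    · linarith only [C.b3, C.f11_0, C.f11_1, C.f11_2, C.f22_4, C.f22_6, C.f23_9, s3, x14_4_0]
  · linarith only [C.f22_4, C.f23_1, C.f23_5, C.f33_4, C.o2, s2, x1_2_1]

theorem c3_22_23_33_k3 {n1 n2 n3 A1 A2 A3 B1 B2 B3 m11_1 m11_2 m11_3 m22_1 m22_2 m22_3 m23_1 m23_2 m23_3 m33_1 m33_2 m33_3 : ℤ}
    (C : Ctx3 n1 n2 n3 A1 A2 A3 B1 B2 B3 m11_1 m11_2 m11_3 m22_1 m22_2 m22_3 m23_1 m23_2 m23_3 m33_1 m33_2 m33_3)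
    (e0 : 0 < B2)
    (e1 : 0 < A2)
    (e2 : 0 < B3)
    (e3 : 0 < A3)
    (s1 : 3 * A1 + 0 * B1 ≤ m22_1 + m23_1 + m33_1)
    (s2 : 3 * A2 + 0 * B2 ≤ m22_2 + m23_2 + m33_2)
    (s3 : 3 * A3 + 0 * B3 ≤ m22_3 + m23_3 + m33_3) : False := by
  have d_t12 : (-A1 + 1 ≤ 0 ∧ -A1 + A2 - n2 + 1 ≤ 0) ∨ (-B1 + 1 ≤ 0 ∧ -B1 + B2 - n2 + 1 ≤ 0) := by
    have h := C.t12
    omega
  have d_f22_2 : (m22_1 - n1 ≤ 0 ∧ -m22_1 + n1 ≤ 0) ∨ (-B2 + m22_1 + 1 ≤ 0 ∧ B2 - m22_1 - 1 ≤ 0) := by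
    have h := C.f22_2
    omega
  have d_f22_5 : (-m22_1 + m22_2 - n2 ≤ 0 ∧ m22_1 - m22_2 + n2 ≤ 0) ∨ (-B2 + m22_2 + 1 ≤ 0 ∧ B2 - m22_2 - 1 ≤ 0) := by
    have h := C.f22_5
    omega
  have d_f33_2 : (m33_1 - n1 ≤ 0 ∧ -m33_1 + n1 ≤ 0) ∨ (-A3 + m33_1 + 1 ≤ 0 ∧ A3 - m33_1 - 1 ≤ 0) := by
    have h := C.f33_2
    omega
  have d_f33_8 : (-m33_2 + m33_3 - n3 ≤ 0 ∧ m33_2 - m33_3 + n3 ≤ 0) ∨ (-A3 + m33_3 + 1 ≤ 0 ∧ A3 - m33_3 - 1 ≤ 0) := by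
    have h := C.f33_8
    omega
  have d_p22_33A : B2 ≤ 0 ∨ A3 ≤ 0 ∨ (-2) * A1 + m22_1 + m33_1 + 1 ≤ 0 ∨ (-2) * A2 + m22_2 + m33_2 + 1 ≤ 0 ∨ (-2) * A3 + m22_3 + m33_3 + 1 ≤ 0 := by
    have h := C.p22_33A
    omega
  rcases d_f22_2 with ⟨x1_0_0, x1_0_1⟩ | ⟨x1_1_0, x1_1_1⟩
  · rcases d_t12 with ⟨x2_0_0, x2_0_1⟩ | ⟨x2_1_0, x2_1_1⟩
    · rcases d_p22_33A with x3_0_0 | x3_1_0 | x3_2_0 | x3_3_0 | x3_4_0
      · linarith only [C.f22_1, C.f23_0, C.f33_0, s1, x1_0_1, x2_0_0, x3_0_0]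
      · linarith only [C.f22_4, C.f23_5, C.f33_4, C.o1, e0, s2, x3_1_0]
      · rcases d_f33_2 with ⟨x4_0_0, x4_0_1⟩ | ⟨x4_1_0, x4_1_1⟩
        · linarith only [C.f23_0, s1, x1_0_1, x3_2_0, x4_0_1]
        · linarith only [C.f22_1, C.f22_4, C.f23_5, C.f33_0, C.f33_4, C.o1, s2, x1_0_1, x4_1_1]
      · linarith only [C.f23_5, s2, x3_3_0]
      · rcases d_f33_8 with ⟨x5_0_0, x5_0_1⟩ | ⟨x5_1_0, x5_1_1⟩
        · linarith only [C.f22_6, C.f23_5, C.f23_8, s2, s3, x3_4_0, x5_0_1]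
        · rcases d_f22_5 with ⟨x6_0_0, x6_0_1⟩ | ⟨x6_1_0, x6_1_1⟩
          · linarith only [C.f22_4, C.f23_0, C.f23_4, C.f33_0, C.f33_3, C.o1, s2, x1_0_1, x6_0_1]
          · linarith only [C.b5, C.f22_6, C.f23_9, s3, x3_4_0, x5_1_1, x6_1_1]
    · rcases d_p22_33A with x7_0_0 | x7_1_0 | x7_2_0 | x7_3_0 | x7_4_0
      · linarith only [C.f22_1, C.f23_0, C.f33_0, C.o0, s1, x1_0_1, x2_1_0, x7_0_0]
      · linarith only [C.f22_4, C.f23_5, C.f33_4, C.o1, e0, s2, x7_1_0]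
      · rcases d_f33_2 with ⟨x8_0_0, x8_0_1⟩ | ⟨x8_1_0, x8_1_1⟩
        · linarith only [C.f23_0, s1, x1_0_1, x7_2_0, x8_0_1]
        · linarith only [C.f22_1, C.f22_4, C.f23_5, C.f33_0, C.f33_4, C.o1, s2, x1_0_1, x8_1_1]
      · linarith only [C.f23_5, s2, x7_3_0]
      · rcases d_f33_8 with ⟨x9_0_0, x9_0_1⟩ | ⟨x9_1_0, x9_1_1⟩
        · linarith only [C.f22_6, C.f23_5, C.f23_8, s2, s3, x7_4_0, x9_0_1]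
        · rcases d_f22_5 with ⟨x10_0_0, x10_0_1⟩ | ⟨x10_1_0, x10_1_1⟩
          · linarith only [C.f22_4, C.f23_0, C.f23_4, C.f33_0, C.f33_3, C.o1, s2, x10_0_1, x1_0_1]
          · linarith only [C.b5, C.f22_6, C.f23_9, s3, x10_1_1, x7_4_0, x9_1_1]
  · rcases d_p22_33A with x11_0_0 | x11_1_0 | x11_2_0 | x11_3_0 | x11_4_0
    · linarith only [e0, x11_0_0]
    · linarith only [C.f22_4, C.f23_5, C.f33_4, C.o1, e0, s2, x11_1_0]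
    · rcases d_f33_2 with ⟨x12_0_0, x12_0_1⟩ | ⟨x12_1_0, x12_1_1⟩
      · linarith only [C.b2, C.f23_0, C.o0, s1, x11_2_0, x12_0_1, x1_1_1]
      · linarith only [C.f22_4, C.f23_1, C.f23_5, C.f33_4, s1, s2, x11_2_0, x12_1_1, x1_1_1]
    · linarith only [C.f23_5, s2, x11_3_0]
    · rcases d_f33_8 with ⟨x13_0_0, x13_0_1⟩ | ⟨x13_1_0, x13_1_1⟩
      · linarith only [C.b5, C.f22_6, C.f23_5, C.f23_9, C.o1, s2, s3, x11_4_0, x13_0_1]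
      · rcases d_f22_5 with ⟨x14_0_0, x14_0_1⟩ | ⟨x14_1_0, x14_1_1⟩
        · linarith only [C.a3, C.b2, C.b5, C.f22_6, C.f23_9, C.o0, C.o1, s3, x11_4_0, x13_1_1, x14_0_1, x1_1_1]
        · linarith only [C.b5, C.f22_6, C.f23_9, s3, x11_4_0, x13_1_1, x14_1_1]

end Pool.Agent.Helper89.TQ
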